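import Pool.Agent.H3.TB.Ker

/-! Project 3B: the binary is almost unperturbed on bounded time intervals (stub 3B-BIN). -/

set_option autoImplicit false

open Complex Set

namespace Pool.Agent.H3.TB

theorem bin_hasDerivAt_cexpI (t : ℝ) : HasDerivAt (fun t : ℝ => cexp (I * t)) (I * cexp (I * t)) t := by
  have h0 : HasDerivAt (fun t : ℝ => (t : ℂ)) 1 t := by
    simpa using (hasDerivAt_id t).ofReal_comp
  have h1 : HasDerivAt (fun t : ℝ => I * (t : ℂ)) (I * 1) t := h0.const_mul I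
  have h2 := h1.cexp
  rw [mul_one, mul_comm] at h2
  exact h2

theorem binary (T δ : ℝ) (hT : 0 < T) (hδ : 0 < δ) : ∃ η : ℝ, 0 < η ∧ ∀ m12 m3 a : ℝ, |m12 - 1| ≤ η → |m3| ≤ η →
    ∀ u v x y : ℝ → ℂ, JSol m12 m3 a u v x y → ‖u 0 - 1‖ ≤ η → ‖v 0 - I‖ ≤ η →
      ∀ t ∈ Set.Icc 0 T, ‖u t - cexp (I * t)‖ ≤ δ ∧ ‖v t - I * cexp (I * t)‖ ≤ δ := by
  set η : ℝ := δ / (2 * Real.exp (256 * T)) with hη
  have hη0 : 0 < η := by positivity
  refine ⟨η, hη0, fun m12 m3 a hm12 hm3 u v x y hs hu0 hv0 t ht => ?_⟩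
  let V : ℝ → ℂ × ℂ → ℂ × ℂ := fun _ p => (p.2, -ker (1/4) p.1)
  have hk : ∀ p : ℂ, ‖ker (1/4) p‖ ≤ 16 := by
    intro p
    have := ker_norm (by norm_num : (0:ℝ) < 1/4) p
    norm_num at this ⊢
    exact this
  have hV : ∀ t, LipschitzWith (256 : NNReal) (V t) := by
    intro t
    refine LipschitzWith.of_dist_le_mul fun z w => ?_
    rw [dist_eq_norm, dist_eq_norm]
    have n1 : ‖z.1 - w.1‖ ≤ ‖z - w‖ := norm_fst_le (z - w)
    have n2 : ‖z.2 - w.2‖ ≤ ‖z - w‖ := norm_snd_le (z - w)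
    have hn := norm_nonneg (z - w)
    have e : V t z - V t w = (z.2 - w.2, -ker (1/4) z.1 - -ker (1/4) w.1) := rfl
    have h256 : ((256 : NNReal) : ℝ) = 256 := by norm_num
    rw [e, Prod.norm_def, h256]
    refine max_le ?_ ?_
    · show ‖z.2 - w.2‖ ≤ _
      linarith
    · show ‖-ker (1/4) z.1 - -ker (1/4) w.1‖ ≤ _
      have e2 : -ker (1/4) z.1 - -ker (1/4) w.1 = -(ker (1/4) z.1 - ker (1/4) w.1) := by ring
      rw [e2, norm_neg]
      have := ker_lip (by norm_num : (0:ℝ) < 1/4) z.1 w.1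
      norm_num at this ⊢
      linarith
  have hf : ∀ t, HasDerivAt (fun t => (u t, v t)) (v t, fu m12 m3 a (u t) (x t)) t := fun t =>
    (hs.du t).prodMk (hs.dv t)
  have hg : ∀ t : ℝ, HasDerivAt (fun t : ℝ => (cexp (I * t), I * cexp (I * t)))
      (I * cexp (I * t), I * (I * cexp (I * t))) t := fun t =>
    (bin_hasDerivAt_cexpI t).prodMk ((bin_hasDerivAt_cexpI t).const_mul I)
  have hfb : ∀ t ∈ Ico 0 T, dist (v t, fu m12 m3 a (u t) (x t)) (V t (u t, v t)) ≤ 48 * η := by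
    intro t _
    rw [dist_eq_norm]
    have e : (v t, fu m12 m3 a (u t) (x t)) - V t (u t, v t) =
        (0, -((m12 - 1 : ℝ) : ℂ) * ker (1/4) (u t) + (m3 : ℂ) * (ker (1/4) (x t - (1 - (a : ℂ)) * u t) -
          ker (1/4) (x t + (a : ℂ) * u t))) := by
      ext1
      · show v t - v t = 0
        ring
      · show fu m12 m3 a (u t) (x t) - -ker (1/4) (u t) = _
        unfold fu
        push_cast
        ring
    rw [e, Prod.norm_def]
    refine max_le ?_ ?_
    · simp only [norm_zero]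
      positivity
    · show ‖-((m12 - 1 : ℝ) : ℂ) * ker (1/4) (u t) + (m3 : ℂ) * (ker (1/4) (x t - (1 - (a : ℂ)) * u t) -
          ker (1/4) (x t + (a : ℂ) * u t))‖ ≤ _
      refine (norm_add_le _ _).trans ?_
      rw [norm_mul, norm_mul, norm_neg, Complex.norm_real, Complex.norm_real, Real.norm_eq_abs, Real.norm_eq_abs]
      have h1 : |m12 - 1| * ‖ker (1/4) (u t)‖ ≤ η * 16 := by gcongr; exact hk _
      have h2 : ‖ker (1/4) (x t - (1 - (a : ℂ)) * u t) - ker (1/4) (x t + (a : ℂ) * u t)‖ ≤ 32 := by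
        refine (norm_sub_le _ _).trans ?_
        linarith [hk (x t - (1 - (a : ℂ)) * u t), hk (x t + (a : ℂ) * u t)]
      have h3 : |m3| * ‖ker (1/4) (x t - (1 - (a : ℂ)) * u t) - ker (1/4) (x t + (a : ℂ) * u t)‖ ≤ η * 32 := by
        gcongr
      linarith
  have hgb : ∀ t ∈ Ico 0 T, dist (I * cexp (I * t), I * (I * cexp (I * t))) (V t (cexp (I * t), I * cexp (I * t))) ≤ 0 := by
    intro t _
    have hn : ‖cexp (I * t)‖ = 1 := by
      rw [mul_comm]; exact Complex.norm_exp_ofReal_mul_I t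
    have e : (I * cexp (I * t), I * (I * cexp (I * t))) = V t (cexp (I * t), I * cexp (I * t)) := by
      ext1
      · rfl
      · show I * (I * cexp (I * t)) = -ker (1/4) (cexp (I * t))
        rw [ker_eq (by rw [hn]; norm_num), hn]
        rw [← mul_assoc, Complex.I_mul_I]
        norm_num
    rw [e, dist_self]
  have h0 : dist (u 0, v 0) (cexp (I * (0:ℝ)), I * cexp (I * (0:ℝ))) ≤ η := by
    rw [dist_eq_norm, Prod.norm_def]
    have e1 : cexp (I * (0:ℝ)) = 1 := by simp
    rw [e1, mul_one]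
    exact max_le hu0 hv0
  have hmain := dist_le_of_approx_trajectories_ODE (v := V) (K := 256) (f := fun t => (u t, v t))
    (g := fun t : ℝ => (cexp (I * t), I * cexp (I * t)))
    (f' := fun t => (v t, fu m12 m3 a (u t) (x t))) (g' := fun t : ℝ => (I * cexp (I * t), I * (I * cexp (I * t))))
    (a := 0) (b := T) (εf := 48 * η) (εg := 0) (δ := η) hV
    (fun t _ => (hf t).continuousAt.continuousWithinAt) (fun t _ => (hf t).hasDerivWithinAt) hfb
    (fun t _ => (hg t).continuousAt.continuousWithinAt) (fun t _ => (hg t).hasDerivWithinAt) hgb h0 t ht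
  have h256 : ((256 : NNReal) : ℝ) = 256 := by norm_num
  rw [h256, add_zero, sub_zero, gronwallBound_of_K_ne_0 (by norm_num)] at hmain
  have hexp : Real.exp (256 * t) ≤ Real.exp (256 * T) := by
    apply Real.exp_le_exp.mpr
    linarith [ht.2]
  have hexp0 : 0 < Real.exp (256 * t) := Real.exp_pos _
  have hle : η * Real.exp (256 * t) + 48 * η / 256 * (Real.exp (256 * t) - 1) ≤ δ := by
    have h1 : η * Real.exp (256 * T) = δ / 2 := by
      rw [hη]; field_simp
    have h2 : η * Real.exp (256 * t) ≤ η * Real.exp (256 * T) := by gcongr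
    nlinarith
  have hd := hmain.trans hle
  rw [dist_eq_norm, Prod.norm_def] at hd
  exact ⟨(le_max_left _ _).trans hd, (le_max_right _ _).trans hd⟩

end Pool.Agent.H3.TB
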