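import Pool.Agent.H3.TB.Conf

/-! Stub 3B-CHAIN of project 3B (MP_6e7c44_mp): near + binary + transit + escape.  The stubs NEAR, BIN, TR, ESC and
KER are hypotheses here (`S_near`, ...). -/

set_option autoImplicit false

open Complex

namespace Pool.Agent.H3.TB

/-- the statement of stub KER (`ker_norm`) -/
def S_ker_norm : Prop := ∀ {ε : ℝ} (_ : 0 < ε) (x : ℂ), ‖ker ε x‖ ≤ 1 / ε ^ 2

/-- the statement of stub KER (`ker_lip`) -/
def S_ker_lip : Prop := ∀ {ε : ℝ} (_ : 0 < ε) (x y : ℂ), ‖ker ε x - ker ε y‖ ≤ 4 / ε ^ 3 * ‖x - y‖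

/-- the statement of stub NEAR -/
def S_near : Prop := ∀ (δ : ℝ) (_ : 0 < δ), ∃ η : ℝ, 0 < η ∧ ∀ m12 m3 a z : ℝ, IsRE m12 m3 a z → 0 < m3 → m3 < η →
    |z - 1 / 2| < η → |m12 - 1| ≤ δ ∧ |a - 19 / 82| ≤ δ ∧ ∃ (l : ℝ) (gu gx : ℂ), ∀ s : ℝ, 0 < s →
      s ≤ 1 / 10 ^ 9 → ∀ u v x y : ℝ → ℂ, JSol m12 m3 a u v x y →
      u 0 = 1 + (s : ℂ) * gu → v 0 = I * (1 + (s : ℂ) * gu) + (l : ℂ) * (s : ℂ) * gu →
      x 0 = (1 + z - a : ℝ) + (s : ℂ) * gx → y 0 = I * ((1 + z - a : ℝ) + (s : ℂ) * gx) + (l : ℂ) * (s : ℂ) * gx →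
      ∃ T : ℝ, 0 ≤ T ∧
        (∀ t ∈ Set.Icc 0 T, 2 / 5 ≤ ‖u t‖ ∧ 2 / 5 ≤ ‖x t + (a : ℂ) * u t‖ ∧
          2 / 5 ≤ ‖x t - (1 - (a : ℂ)) * u t‖) ∧
        ‖u T - cexp (I * T)‖ ≤ δ ∧ ‖v T - I * cexp (I * T)‖ ≤ δ ∧
        ‖x T - cexp (I * T) * Z0‖ ≤ 8 / 10 ^ 17 ∧ ‖y T - cexp (I * T) * Z1‖ ≤ 16 / 10 ^ 17

/-- the statement of stub BIN -/
def S_binary : Prop := ∀ (T δ : ℝ) (_ : 0 < T) (_ : 0 < δ), ∃ η : ℝ, 0 < η ∧
    ∀ m12 m3 a : ℝ, |m12 - 1| ≤ η → |m3| ≤ η →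
    ∀ u v x y : ℝ → ℂ, JSol m12 m3 a u v x y → ‖u 0 - 1‖ ≤ η → ‖v 0 - I‖ ≤ η →
      ∀ t ∈ Set.Icc 0 T, ‖u t - cexp (I * t)‖ ≤ δ ∧ ‖v t - I * cexp (I * t)‖ ≤ δ

/-- the statement of stub TR -/
def S_transit : Prop := ∀ (x y th : ℝ → ℂ) (_ : ∀ t ∈ Set.Icc (0 : ℝ) 20, HasDerivAt x (y t) t)
    (_ : ∀ t ∈ Set.Icc (0 : ℝ) 20, HasDerivAt y (-(63 / 82 * ker (1/4) (x t + 19 / 82 * cexp (I * t)) +
      19 / 82 * ker (1/4) (x t - 63 / 82 * cexp (I * t))) + th t) t)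
    (_ : ∀ t ∈ Set.Icc (0 : ℝ) 20, ‖th t‖ ≤ 1 / 10 ^ 20)
    (_ : ‖x 0 - Z0‖ ≤ 8 / 10 ^ 17) (_ : ‖y 0 - Z1‖ ≤ 16 / 10 ^ 17),
    (∀ t ∈ Set.Icc (0 : ℝ) 20, 9 / 20 ≤ ‖x t + 19 / 82 * cexp (I * t)‖ ∧ 9 / 20 ≤ ‖x t - 63 / 82 * cexp (I * t)‖) ∧
    ∃ E : ℂ, ‖E‖ = 1 ∧ 28 / 5 ≤ ((starRingEnd ℂ) E * x 20).re ∧ 17 / 25 ≤ ((starRingEnd ℂ) E * y 20).re

/-- the statement of stub ESC -/
def S_escape : Prop := ∃ δ : ℝ, 0 < δ ∧ ∀ m12 m3 a : ℝ, |m12 - 1| ≤ δ → 0 < m3 → m3 ≤ δ → |a - 19 / 82| ≤ δ →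
    ∀ u v x y : ℝ → ℂ, JSol m12 m3 a u v x y → ∀ P E : ℂ, ‖P‖ = 1 → ‖E‖ = 1 →
      ‖u 0 - P‖ ≤ δ → ‖v 0 - I * P‖ ≤ δ →
      28 / 5 ≤ ((starRingEnd ℂ) E * x 0).re → 17 / 25 ≤ ((starRingEnd ℂ) E * y 0).re →
      ∀ t, 0 ≤ t → 2 / 5 ≤ ‖u t‖ ∧ 2 / 5 ≤ ‖x t + (a : ℂ) * u t‖ ∧ 2 / 5 ≤ ‖x t - (1 - (a : ℂ)) * u t‖ ∧
        5 + t / 10 ≤ ‖x t‖ ∧ ‖u t‖ ≤ 2

/-! ### symmetries of the equations -/

theorem ker_rot' {ε : ℝ} {c : ℂ} (hc : ‖c‖ = 1) (x : ℂ) : ker ε (c * x) = c * ker ε x := by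
  unfold ker
  rw [norm_mul, hc, one_mul]
  ring

theorem fu_rot {m12 m3 a : ℝ} {c : ℂ} (hc : ‖c‖ = 1) (u x : ℂ) :
    fu m12 m3 a (c * u) (c * x) = c * fu m12 m3 a u x := by
  unfold fu
  rw [show c * x - (1 - (a : ℂ)) * (c * u) = c * (x - (1 - (a : ℂ)) * u) by ring,
    show c * x + (a : ℂ) * (c * u) = c * (x + (a : ℂ) * u) by ring, ker_rot' hc, ker_rot' hc, ker_rot' hc]
  ring

theorem fx_rot {m12 m3 a : ℝ} {c : ℂ} (hc : ‖c‖ = 1) (u x : ℂ) :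
    fx m12 m3 a (c * u) (c * x) = c * fx m12 m3 a u x := by
  unfold fx
  rw [show c * x - (1 - (a : ℂ)) * (c * u) = c * (x - (1 - (a : ℂ)) * u) by ring,
    show c * x + (a : ℂ) * (c * u) = c * (x + (a : ℂ) * u) by ring, ker_rot' hc, ker_rot' hc]
  ring

/-- time shifts and rotations of solutions are solutions -/
theorem JSol.move {m12 m3 a : ℝ} {u v x y : ℝ → ℂ} (h : JSol m12 m3 a u v x y) (T : ℝ) {c : ℂ} (hc : ‖c‖ = 1) :
    JSol m12 m3 a (fun t => c * u (t + T)) (fun t => c * v (t + T)) (fun t => c * x (t + T))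
      (fun t => c * y (t + T)) := by
  have sh : ∀ (f : ℝ → ℂ) (f' : ℂ) (t : ℝ), HasDerivAt f f' (t + T) →
      HasDerivAt (fun t => c * f (t + T)) (c * f') t := by
    intro f f' t hf
    exact (hf.comp_add_const t T).const_mul c
  constructor
  · intro t; exact sh _ _ t (h.du (t + T))
  · intro t; rw [fu_rot hc]; exact sh _ _ t (h.dv (t + T))
  · intro t; exact sh _ _ t (h.dx (t + T))
  · intro t; rw [fx_rot hc]; exact sh _ _ t (h.dy (t + T))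

/-! ### the perturbation of the restricted problem -/

theorem norm_exp_I (t : ℝ) : ‖cexp (I * t)‖ = 1 := by
  rw [mul_comm, Complex.norm_exp_ofReal_mul_I]

theorem th_bound (hkn : S_ker_norm) (hkl : S_ker_lip) {m12 m3 a d : ℝ} (hd : d ≤ 1 / 10 ^ 24)
    (h12 : |m12 - 1| ≤ d) (h3 : |m3| ≤ d) (ha : |a - 19 / 82| ≤ d) {u x e : ℂ} (he : ‖e‖ = 1) (hu : ‖u - e‖ ≤ d) :
    ‖fx m12 m3 a u x + (63 / 82 * ker (1/4) (x + 19 / 82 * e) + 19 / 82 * ker (1/4) (x - 63 / 82 * e))‖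
      ≤ 1 / 10 ^ 20 := by
  have hd0 : 0 ≤ d := le_trans (abs_nonneg _) h12
  have hd1 : d ≤ 1 := hd.trans (by norm_num)
  obtain ⟨a1, a2⟩ := abs_le.1 ha
  have hd2 : d ≤ 1 / 100 := hd.trans (by norm_num)
  -- distances
  have n1 : ‖(a : ℂ) * u - 19 / 82 * e‖ ≤ 2 * d := by
    have e1 : (a : ℂ) * u - 19 / 82 * e = (a : ℂ) * (u - e) + ((a - 19 / 82 : ℝ) : ℂ) * e := by push_cast; ring
    rw [e1]
    refine (norm_add_le _ _).trans ?_
    rw [norm_mul, norm_mul, he, Complex.norm_real, Complex.norm_real, Real.norm_eq_abs, Real.norm_eq_abs]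
    have : |a| ≤ 1 := abs_le.2 ⟨by linarith, by linarith⟩
    nlinarith [abs_nonneg a, norm_nonneg (u - e)]
  have n2 : ‖(1 - (a : ℂ)) * u - 63 / 82 * e‖ ≤ 2 * d := by
    have e1 : (1 - (a : ℂ)) * u - 63 / 82 * e = ((1 - a : ℝ) : ℂ) * (u - e) + ((19 / 82 - a : ℝ) : ℂ) * e := by
      push_cast; ring
    rw [e1]
    refine (norm_add_le _ _).trans ?_
    rw [norm_mul, norm_mul, he, Complex.norm_real, Complex.norm_real, Real.norm_eq_abs, Real.norm_eq_abs]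
    have h1 : |1 - a| ≤ 1 := abs_le.2 ⟨by linarith, by linarith⟩
    have h2 : |19 / 82 - a| ≤ d := by rw [abs_sub_comm]; exact ha
    nlinarith [abs_nonneg (1 - a), norm_nonneg (u - e)]
  have l1 : ‖ker (1/4) (x + 19 / 82 * e) - ker (1/4) (x + (a : ℂ) * u)‖ ≤ 512 * d := by
    refine (hkl (by norm_num : (0:ℝ) < 1/4) _ _).trans ?_
    have e1 : x + 19 / 82 * e - (x + (a : ℂ) * u) = -((a : ℂ) * u - 19 / 82 * e) := by ring
    rw [e1, norm_neg]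
    nlinarith [norm_nonneg ((a : ℂ) * u - 19 / 82 * e)]
  have l2 : ‖ker (1/4) (x - 63 / 82 * e) - ker (1/4) (x - (1 - (a : ℂ)) * u)‖ ≤ 512 * d := by
    refine (hkl (by norm_num : (0:ℝ) < 1/4) _ _).trans ?_
    have e1 : x - 63 / 82 * e - (x - (1 - (a : ℂ)) * u) = (1 - (a : ℂ)) * u - 63 / 82 * e := by ring
    rw [e1]
    nlinarith [norm_nonneg ((1 - (a : ℂ)) * u - 63 / 82 * e)]
  have b1 : ‖ker (1/4) (x + (a : ℂ) * u)‖ ≤ 16 := by
    refine (hkn (by norm_num : (0:ℝ) < 1/4) _).trans ?_; norm_num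
  have b2 : ‖ker (1/4) (x - (1 - (a : ℂ)) * u)‖ ≤ 16 := by
    refine (hkn (by norm_num : (0:ℝ) < 1/4) _).trans ?_; norm_num
  obtain ⟨p1, p2⟩ := abs_le.1 h12
  obtain ⟨q1, q2⟩ := abs_le.1 h3
  have c1 : |63 / 82 - (m12 + m3) * (1 - a)| ≤ 4 * d := by
    rw [abs_le]
    constructor <;> nlinarith
  have c2 : |19 / 82 - (m12 + m3) * a| ≤ 4 * d := by
    rw [abs_le]
    constructor <;> nlinarith
  have hsplit : fx m12 m3 a u x + (63 / 82 * ker (1/4) (x + 19 / 82 * e) + 19 / 82 * ker (1/4) (x - 63 / 82 * e)) =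
      ((63 / 82 : ℝ) : ℂ) * (ker (1/4) (x + 19 / 82 * e) - ker (1/4) (x + (a : ℂ) * u)) +
      ((19 / 82 : ℝ) : ℂ) * (ker (1/4) (x - 63 / 82 * e) - ker (1/4) (x - (1 - (a : ℂ)) * u)) +
      ((63 / 82 - (m12 + m3) * (1 - a) : ℝ) : ℂ) * ker (1/4) (x + (a : ℂ) * u) +
      ((19 / 82 - (m12 + m3) * a : ℝ) : ℂ) * ker (1/4) (x - (1 - (a : ℂ)) * u) := by
    unfold fx
    push_cast
    ring
  rw [hsplit]
  refine (norm_add_le _ _).trans ?_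
  have t1 := norm_add_le (((63 / 82 : ℝ) : ℂ) * (ker (1/4) (x + 19 / 82 * e) - ker (1/4) (x + (a : ℂ) * u)) +
      ((19 / 82 : ℝ) : ℂ) * (ker (1/4) (x - 63 / 82 * e) - ker (1/4) (x - (1 - (a : ℂ)) * u)))
      (((63 / 82 - (m12 + m3) * (1 - a) : ℝ) : ℂ) * ker (1/4) (x + (a : ℂ) * u))
  have t2 := norm_add_le (((63 / 82 : ℝ) : ℂ) * (ker (1/4) (x + 19 / 82 * e) - ker (1/4) (x + (a : ℂ) * u)))
      (((19 / 82 : ℝ) : ℂ) * (ker (1/4) (x - 63 / 82 * e) - ker (1/4) (x - (1 - (a : ℂ)) * u)))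
  simp only [norm_mul, Complex.norm_real, Real.norm_eq_abs] at t1 t2 ⊢
  have s1 : |(63 / 82 : ℝ)| ≤ 1 := by rw [abs_le]; norm_num
  have s2 : |(19 / 82 : ℝ)| ≤ 1 := by rw [abs_le]; norm_num
  have r1 : |(63 / 82 : ℝ)| * ‖ker (1/4) (x + 19 / 82 * e) - ker (1/4) (x + (a : ℂ) * u)‖ ≤ 512 * d := by
    nlinarith [abs_nonneg (63 / 82 : ℝ), norm_nonneg (ker (1/4) (x + 19 / 82 * e) - ker (1/4) (x + (a : ℂ) * u))]
  have r2 : |(19 / 82 : ℝ)| * ‖ker (1/4) (x - 63 / 82 * e) - ker (1/4) (x - (1 - (a : ℂ)) * u)‖ ≤ 512 * d := by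
    nlinarith [abs_nonneg (19 / 82 : ℝ), norm_nonneg (ker (1/4) (x - 63 / 82 * e) - ker (1/4) (x - (1 - (a : ℂ)) * u))]
  have r3 : |63 / 82 - (m12 + m3) * (1 - a)| * ‖ker (1/4) (x + (a : ℂ) * u)‖ ≤ 4 * d * 16 :=
    mul_le_mul c1 b1 (norm_nonneg _) (by positivity)
  have r4 : |19 / 82 - (m12 + m3) * a| * ‖ker (1/4) (x - (1 - (a : ℂ)) * u)‖ ≤ 4 * d * 16 :=
    mul_le_mul c2 b2 (norm_nonneg _) (by positivity)
  have hfin : 512 * d + 512 * d + 4 * d * 16 + 4 * d * 16 ≤ 1 / 10 ^ 20 := by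
    have : (512 * d + 512 * d + 4 * d * 16 + 4 * d * 16) = 1152 * d := by ring
    rw [this]
    calc 1152 * d ≤ 1152 * (1 / 10 ^ 24) := by linarith
      _ ≤ 1 / 10 ^ 20 := by norm_num
  linarith

/-! ### chain -/

theorem chain_of (hkn : S_ker_norm) (hkl : S_ker_lip) (hnear : S_near) (hbin : S_binary) (htr : S_transit)
    (hesc : S_escape) : S_chain := by
  obtain ⟨δe, hδe, hesc⟩ := hesc
  obtain ⟨δb, hδb⟩ : ∃ δb : ℝ, δb = min δe (1 / 10 ^ 24) := ⟨_, rfl⟩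
  have hδb0 : 0 < δb := by rw [hδb]; exact lt_min hδe (by norm_num)
  have hδb1 : δb ≤ 1 / 10 ^ 24 := by rw [hδb]; exact min_le_right _ _
  have hδb2 : δb ≤ δe := by rw [hδb]; exact min_le_left _ _
  obtain ⟨ηb, hηb, hbin⟩ := hbin 20 δb (by norm_num) hδb0
  obtain ⟨δ, hδ⟩ : ∃ δ : ℝ, δ = min δb ηb := ⟨_, rfl⟩
  have hδ0 : 0 < δ := by rw [hδ]; exact lt_min hδb0 hηb
  have hδ1 : δ ≤ δb := by rw [hδ]; exact min_le_left _ _
  have hδ2 : δ ≤ ηb := by rw [hδ]; exact min_le_right _ _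
  obtain ⟨η₁, hη₁, hnear⟩ := hnear δ hδ0
  refine ⟨min η₁ δ, lt_min hη₁ hδ0, fun m12 m3 a z hre h3 h3η hz => ?_⟩
  have h3η1 : m3 < η₁ := lt_of_lt_of_le h3η (min_le_left _ _)
  have h3δ : m3 < δ := lt_of_lt_of_le h3η (min_le_right _ _)
  have hzη : |z - 1 / 2| < η₁ := lt_of_lt_of_le hz (min_le_left _ _)
  obtain ⟨h12, ha, l, gu, gx, hs⟩ := hnear m12 m3 a z hre h3 h3η1 hzη
  have hsm : δ ≤ 1 / 10 := hδ1.trans (hδb1.trans (by norm_num))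
  refine ⟨h12.trans hsm, ha.trans hsm, l, gu, gx, fun s hs0 hs1 u v x y hJ hu0 hv0 hx0 hy0 => ?_⟩
  obtain ⟨T, hT, hd1, hu, hv, hx, hy⟩ := hs s hs0 hs1 u v x y hJ hu0 hv0 hx0 hy0
  -- rotate and shift
  obtain ⟨c, hcdef⟩ : ∃ c : ℂ, c = cexp (-(I * T)) := ⟨_, rfl⟩
  have hc : ‖c‖ = 1 := by
    rw [hcdef, show -(I * (T : ℂ)) = ((-T : ℝ) : ℂ) * I by push_cast; ring, Complex.norm_exp_ofReal_mul_I]
  have hce : c * cexp (I * T) = 1 := by rw [hcdef, ← Complex.exp_add, neg_add_cancel, Complex.exp_zero]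
  have hJ' := hJ.move T hc
  have hm : ∀ p q : ℂ, ‖c * p - q‖ = ‖p - cexp (I * T) * q‖ := by
    intro p q
    rw [show c * p - q = c * (p - cexp (I * T) * q) by
      rw [mul_sub, ← mul_assoc c, hce, one_mul], norm_mul, hc, one_mul]
  have h3a : |m3| ≤ δ := by rw [abs_of_pos h3]; exact h3δ.le
  have u0 : ‖(fun t => c * u (t + T)) 0 - 1‖ ≤ ηb := by
    simp only [zero_add]
    rw [hm, mul_one]
    exact hu.trans hδ2
  have v0 : ‖(fun t => c * v (t + T)) 0 - I‖ ≤ ηb := by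
    simp only [zero_add]
    rw [hm, mul_comm (cexp (I * T))]
    exact hv.trans hδ2
  have hb := hbin m12 m3 a (h12.trans hδ2) (h3a.trans hδ2) _ _ _ _ hJ' u0 v0
  -- transit
  obtain ⟨hd2, E, hE, hE1, hE2⟩ := htr (fun t => c * x (t + T)) (fun t => c * y (t + T))
    (fun t => fx m12 m3 a (c * u (t + T)) (c * x (t + T)) +
      (63 / 82 * ker (1/4) (c * x (t + T) + 19 / 82 * cexp (I * t)) +
        19 / 82 * ker (1/4) (c * x (t + T) - 63 / 82 * cexp (I * t))))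
    (fun t _ => hJ'.dx t) (fun t _ => by
      refine (hJ'.dy t).congr_deriv ?_
      ring)
    (fun t ht => th_bound hkn hkl hδb1 (h12.trans hδ1) (h3a.trans hδ1) (ha.trans hδ1) (norm_exp_I t) (hb t ht).1)
    (by
      simp only [zero_add]
      rw [hm]
      exact hx)
    (by
      simp only [zero_add]
      rw [hm]
      exact hy)
  -- escape
  have hJ2 := hJ'.move 20 (c := 1) (by simp)
  have hb20 := hb 20 ⟨by norm_num, le_refl _⟩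
  have hesc2 := hesc m12 m3 a (h12.trans (hδ1.trans hδb2)) h3 (h3δ.le.trans (hδ1.trans hδb2))
    (ha.trans (hδ1.trans hδb2)) _ _ _ _ hJ2 (cexp (I * (20 : ℝ))) E (norm_exp_I 20) hE
    (by
      simp only [zero_add, one_mul]
      exact hb20.1.trans hδb2)
    (by
      simp only [zero_add, one_mul]
      exact hb20.2.trans hδb2)
    (by
      simp only [zero_add, one_mul]
      exact hE1)
    (by
      simp only [zero_add, one_mul]
      exact hE2)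
  have k1 : ∀ t, ‖c * x t + (a : ℂ) * (c * u t)‖ = ‖x t + (a : ℂ) * u t‖ := by
    intro t
    rw [show c * x t + (a : ℂ) * (c * u t) = c * (x t + (a : ℂ) * u t) by ring, norm_mul, hc, one_mul]
  have k2 : ∀ t, ‖c * x t - (1 - (a : ℂ)) * (c * u t)‖ = ‖x t - (1 - (a : ℂ)) * u t‖ := by
    intro t
    rw [show c * x t - (1 - (a : ℂ)) * (c * u t) = c * (x t - (1 - (a : ℂ)) * u t) by ring, norm_mul, hc, one_mul]
  have k3 : ∀ p, ‖c * p‖ = ‖p‖ := by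
    intro p
    rw [norm_mul, hc, one_mul]
  obtain ⟨a1, a2⟩ := abs_le.1 ha
  have hδs : δ ≤ 1 / 10 ^ 24 := hδ1.trans hδb1
  have hδt : δ ≤ 1 / 1000 := hδs.trans (by norm_num)
  have hδbt : δb ≤ 1 / 1000 := hδb1.trans (by norm_num)
  constructor
  · intro t ht
    by_cases h1 : t ≤ T
    · exact hd1 t ⟨ht, h1⟩
    by_cases h2 : t ≤ T + 20
    · -- the transit part
      have htr' : t - T ∈ Set.Icc (0 : ℝ) 20 := ⟨by linarith, by linarith⟩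
      obtain ⟨w1, w2⟩ := hd2 (t - T) htr'
      have w3 := (hb (t - T) htr').1
      simp only [sub_add_cancel] at w1 w2 w3
      obtain ⟨e, hedef⟩ : ∃ e : ℂ, e = cexp (I * ((t - T : ℝ) : ℂ)) := ⟨_, rfl⟩
      have he : ‖e‖ = 1 := by rw [hedef]; exact norm_exp_I _
      rw [← hedef] at w1 w2 w3
      refine ⟨?_, ?_, ?_⟩
      · rw [← k3]
        have := norm_sub_norm_le e (c * u t)
        rw [norm_sub_rev, he] at this
        linarith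
      · rw [← k1]
        have e1 : (c * x t + 19 / 82 * e) - (c * x t + (a : ℂ) * (c * u t)) =
            -((a : ℂ) * (c * u t - e) + ((a - 19 / 82 : ℝ) : ℂ) * e) := by push_cast; ring
        have n1 : ‖(c * x t + 19 / 82 * e) - (c * x t + (a : ℂ) * (c * u t))‖ ≤ δb + δ := by
          rw [e1, norm_neg]
          refine (norm_add_le _ _).trans ?_
          rw [norm_mul, norm_mul, he, Complex.norm_real, Complex.norm_real, Real.norm_eq_abs, Real.norm_eq_abs]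
          have : |a| ≤ 1 := abs_le.2 ⟨by linarith, by linarith⟩
          nlinarith [abs_nonneg a, norm_nonneg (c * u t - e)]
        have := norm_sub_norm_le (c * x t + 19 / 82 * e) (c * x t + (a : ℂ) * (c * u t))
        linarith
      · rw [← k2]
        have e1 : (c * x t - 63 / 82 * e) - (c * x t - (1 - (a : ℂ)) * (c * u t)) =
            ((1 - a : ℝ) : ℂ) * (c * u t - e) + ((19 / 82 - a : ℝ) : ℂ) * e := by push_cast; ring
        have n1 : ‖(c * x t - 63 / 82 * e) - (c * x t - (1 - (a : ℂ)) * (c * u t))‖ ≤ δb + δ := by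
          rw [e1]
          refine (norm_add_le _ _).trans ?_
          rw [norm_mul, norm_mul, he, Complex.norm_real, Complex.norm_real, Real.norm_eq_abs, Real.norm_eq_abs]
          have h1 : |1 - a| ≤ 1 := abs_le.2 ⟨by linarith, by linarith⟩
          have h2 : |19 / 82 - a| ≤ δ := by rw [abs_sub_comm]; exact ha
          nlinarith [abs_nonneg (1 - a), norm_nonneg (c * u t - e)]
        have := norm_sub_norm_le (c * x t - 63 / 82 * e) (c * x t - (1 - (a : ℂ)) * (c * u t))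
        linarith
    · -- the escape part
      have h3 := hesc2 (t - T - 20) (by linarith)
      simp only [one_mul, sub_add_cancel] at h3
      rw [k1, k2, k3] at h3
      exact ⟨h3.1, h3.2.1, h3.2.2.1⟩
  · refine ⟨T + 20, by linarith, fun t ht => ?_⟩
    have h3 := hesc2 (t - T - 20) (by linarith)
    simp only [one_mul, sub_add_cancel] at h3
    rw [k1, k2, k3, k3] at h3
    exact ⟨by linarith [h3.2.2.2.1], h3.2.2.2.2⟩

end Pool.Agent.H3.TB
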