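import Pool.Agent.H3.TB.Defs

/-! Stub 3B-ESC: escape of the third body. -/

set_option autoImplicit false

open Complex Set

namespace Pool.Agent.H3.TB

namespace Esc

/-- continuity argument -/
theorem boot {p : ℝ → Prop} (hopen : IsOpen {t | p t}) (h0 : p 0)
    (step : ∀ T, 0 < T → (∀ s ∈ Ico 0 T, p s) → p T) : ∀ t, 0 ≤ t → p t := by
  intro t ht
  by_contra hcon
  set B : Set ℝ := Ici 0 ∩ {t | p t}ᶜ with hB
  have hBc : IsClosed B := isClosed_Ici.inter hopen.isClosed_compl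
  have hBn : B.Nonempty := ⟨t, ht, hcon⟩
  have hBb : BddBelow B := ⟨0, fun s hs => hs.1⟩
  have hmem : sInf B ∈ B := hBc.csInf_mem hBn hBb
  have h1 : ∀ s ∈ Ico 0 (sInf B), p s := by
    intro s hs
    by_contra hs'
    exact absurd (csInf_le hBb (show s ∈ B from ⟨hs.1, hs'⟩)) (not_le.2 hs.2)
  rcases eq_or_lt_of_le (show (0 : ℝ) ≤ sInf B from hmem.1) with h | h
  · exact hmem.2 (by rw [← h]; exact h0)
  · exact hmem.2 (step _ h h1)

theorem ker_eq' {x : ℂ} (h : 1 / 4 ≤ ‖x‖) : ker (1/4) x = ((1 / ‖x‖ ^ 3 : ℝ) : ℂ) * x := by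
  rw [ker, max_eq_right h]

theorem ker_norm' {x : ℂ} (h : 1 / 4 ≤ ‖x‖) : ‖ker (1/4) x‖ = 1 / ‖x‖ ^ 2 := by
  have hx : 0 < ‖x‖ := by linarith
  rw [ker_eq' h, norm_mul, Complex.norm_real, Real.norm_of_nonneg (by positivity)]
  field_simp

theorem norm_sq_deriv {w : ℝ → ℂ} {w' : ℂ} {t : ℝ} (h : HasDerivAt w w' t) :
    HasDerivAt (fun s => ‖w s‖ ^ 2) (2 * ((starRingEnd ℂ) (w t) * w').re) t := by
  have h1 : HasDerivAt (fun s => (w s).re) w'.re t := Complex.reCLM.hasFDerivAt.comp_hasDerivAt t h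
  have h2 : HasDerivAt (fun s => (w s).im) w'.im t := Complex.imCLM.hasFDerivAt.comp_hasDerivAt t h
  have h3 := (h1.mul h1).add (h2.mul h2)
  have e : (fun s => ‖w s‖ ^ 2) = fun s => (w s).re * (w s).re + (w s).im * (w s).im := by
    funext s
    rw [← Complex.normSq_eq_norm_sq, Complex.normSq_apply]
  rw [e]
  refine HasDerivAt.congr_deriv h3 ?_
  rw [Complex.mul_re, Complex.conj_re, Complex.conj_im]
  ring

theorem norm_deriv {w : ℝ → ℂ} {w' : ℂ} {t : ℝ} (h : HasDerivAt w w' t) (h0 : 0 < ‖w t‖) :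
    HasDerivAt (fun s => ‖w s‖) (((starRingEnd ℂ) (w t) * w').re / ‖w t‖) t := by
  have h1 := (norm_sq_deriv h).sqrt (by positivity)
  have e : (fun s => ‖w s‖) = fun s => Real.sqrt (‖w s‖ ^ 2) := by
    funext s
    rw [Real.sqrt_sq (norm_nonneg _)]
  rw [e]
  refine HasDerivAt.congr_deriv h1 ?_
  rw [Real.sqrt_sq (norm_nonneg _)]
  field_simp

theorem re_deriv (E : ℂ) {w : ℝ → ℂ} {w' : ℂ} {t : ℝ} (h : HasDerivAt w w' t) :
    HasDerivAt (fun s => ((starRingEnd ℂ) E * w s).re) ((starRingEnd ℂ) E * w').re t :=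
  Complex.reCLM.hasFDerivAt.comp_hasDerivAt t (h.const_mul _)

theorem alg1 (k : ℝ) (u v : ℂ) : ((starRingEnd ℂ) v * ((k : ℂ) * u)).re = k * ((starRingEnd ℂ) u * v).re := by
  simp only [Complex.mul_re, Complex.mul_im, Complex.conj_re, Complex.conj_im, Complex.ofReal_re, Complex.ofReal_im]
  ring

theorem alg2 (k : ℝ) (u v p : ℂ) : ((starRingEnd ℂ) v * v + (starRingEnd ℂ) u * ((k : ℂ) * u + p)).im =
    ((starRingEnd ℂ) u * p).im := by
  simp only [Complex.mul_re, Complex.mul_im, Complex.conj_re, Complex.conj_im, Complex.ofReal_re, Complex.ofReal_im,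
    Complex.add_re, Complex.add_im]
  ring

/-- `|u|^2 |v|^2 = (Re conj u v)^2 + (Im conj u v)^2` -/
theorem alg3 (u v : ℂ) : ((starRingEnd ℂ) u * v).im ^ 2 ≤ ‖u‖ ^ 2 * ‖v‖ ^ 2 := by
  have h1 := Complex.abs_im_le_norm ((starRingEnd ℂ) u * v)
  rw [norm_mul, RCLike.norm_conj] at h1
  rw [← mul_pow, ← sq_abs ((starRingEnd ℂ) u * v).im]
  exact pow_le_pow_left₀ (abs_nonneg _) h1 2

theorem re_le (E : ℂ) (hE : ‖E‖ = 1) (w : ℂ) : |((starRingEnd ℂ) E * w).re| ≤ ‖w‖ := by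
  refine (Complex.abs_re_le_norm _).trans ?_
  rw [norm_mul, RCLike.norm_conj, hE, one_mul]

/-- a function with derivative at least `c` -/
theorem lower {f f' : ℝ → ℝ} {c T : ℝ} (hf : ∀ t, HasDerivAt f (f' t) t) (h : ∀ t ∈ Icc 0 T, c ≤ f' t) :
    ∀ t ∈ Icc 0 T, f 0 + c * t ≤ f t := by
  intro t ht
  have h1 : ∀ s, HasDerivAt (fun s => f s - c * s) (f' s - c * 1) s :=
    fun s => (hf s).sub ((hasDerivAt_id s).const_mul c)
  have h2 : MonotoneOn (fun s => f s - c * s) (Icc 0 T) := by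
    refine monotoneOn_of_deriv_nonneg (convex_Icc 0 T) (fun s _ => (h1 s).continuousAt.continuousWithinAt)
      (fun s _ => (h1 s).differentiableAt.differentiableWithinAt) ?_
    intro s hs
    rw [interior_Icc] at hs
    rw [(h1 s).deriv]
    have := h s ⟨hs.1.le, hs.2.le⟩
    linarith
  have h3 := h2 (left_mem_Icc.2 (ht.1.trans ht.2)) ht ht.1
  simp only [mul_zero, sub_zero] at h3
  linarith

/-- a perturbation which is integrable -/
theorem integr {f f' : ℝ → ℝ} {m T : ℝ} (hm : 0 ≤ m) (hf : ∀ t ∈ Icc 0 T, HasDerivAt f (f' t) t)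
    (h : ∀ t ∈ Icc 0 T, |f' t| ≤ 4 * m / (47 / 10 + 3 / 20 * t) ^ 2) :
    ∀ t ∈ Icc 0 T, |f t - f 0| ≤ 6 * m := by
  have hB : ∀ t : ℝ, 0 ≤ t → HasDerivAt (fun s : ℝ => 80 / 3 * m * (10 / 47 - (47 / 10 + 3 / 20 * s)⁻¹))
      (4 * m / (47 / 10 + 3 / 20 * t) ^ 2) t := by
    intro t ht
    have hp : (0 : ℝ) < 47 / 10 + 3 / 20 * t := by positivity
    have h1 : HasDerivAt (fun s : ℝ => 47 / 10 + 3 / 20 * s) (3 / 20 * 1) t :=
      ((hasDerivAt_id t).const_mul (3 / 20 : ℝ)).const_add _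
    have h2 := ((h1.inv hp.ne').const_sub (10 / 47)).const_mul (80 / 3 * m)
    refine HasDerivAt.congr_deriv h2 ?_
    have hp2 : (47 / 10 + 3 / 20 * t) ^ 2 ≠ 0 := by positivity
    ring
  have key := image_norm_le_of_norm_deriv_right_le_deriv_boundary' (f := fun t => f t - f 0) (f' := f')
    (a := 0) (b := T) (B := fun s : ℝ => 80 / 3 * m * (10 / 47 - (47 / 10 + 3 / 20 * s)⁻¹))
    (B' := fun t => 4 * m / (47 / 10 + 3 / 20 * t) ^ 2)
    (fun t ht => ((hf t ht).continuousAt.continuousWithinAt).sub continuousWithinAt_const)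
    (fun t ht => by
      have := (hf t ⟨ht.1, ht.2.le⟩).sub_const (f 0)
      exact this.hasDerivWithinAt)
    (by simp) (fun t ht => (hB t ht.1).continuousAt.continuousWithinAt)
    (fun t ht => (hB t ht.1).hasDerivWithinAt) (fun t ht => by
      rw [Real.norm_eq_abs]
      exact h t ⟨ht.1, ht.2.le⟩)
  intro t ht
  have h1 := key ht
  rw [Real.norm_eq_abs] at h1
  refine h1.trans ?_
  have hp : (0 : ℝ) < (47 / 10 + 3 / 20 * t)⁻¹ := by have := ht.1; positivity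
  nlinarith

theorem dist_low {a : ℝ} {E u x : ℂ} (ha : 0 ≤ a) (hb : 0 ≤ 1 - a) (ha1 : a ≤ 9 / 11) (hb1 : 1 - a ≤ 9 / 11)
    (hE : ‖E‖ = 1) (hu : ‖u‖ ≤ 11 / 10) :
    ((starRingEnd ℂ) E * x).re - 9 / 10 ≤ ‖x + (a : ℂ) * u‖ ∧
      ((starRingEnd ℂ) E * x).re - 9 / 10 ≤ ‖x - (1 - (a : ℂ)) * u‖ := by
  have h1 := (abs_le.1 (re_le E hE (x + (a : ℂ) * u))).2
  have h2 := (abs_le.1 (re_le E hE (x - (1 - (a : ℂ)) * u))).2
  have h3 := abs_le.1 (re_le E hE ((a : ℂ) * u))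
  have h4 := abs_le.1 (re_le E hE ((1 - (a : ℂ)) * u))
  have e1 : ‖(a : ℂ) * u‖ ≤ 9 / 10 := by
    rw [norm_mul, Complex.norm_real, Real.norm_of_nonneg ha]
    have := norm_nonneg u
    nlinarith
  have e2 : ‖(1 - (a : ℂ)) * u‖ ≤ 9 / 10 := by
    have : (1 - (a : ℂ)) = ((1 - a : ℝ) : ℂ) := by push_cast; ring
    rw [this, norm_mul, Complex.norm_real, Real.norm_of_nonneg hb]
    have := norm_nonneg u
    nlinarith
  rw [mul_add, Complex.add_re] at h1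
  rw [mul_sub, Complex.sub_re] at h2
  constructor
  · linarith [h3.1]
  · linarith [h4.2]

theorem fx_norm {m12 m3 a k : ℝ} {u x : ℂ} (hM : 0 ≤ m12 + m3) (ha : 0 ≤ a) (hb : 0 ≤ 1 - a)
    (h1 : ‖ker (1/4) (x + (a : ℂ) * u)‖ ≤ k) (h2 : ‖ker (1/4) (x - (1 - (a : ℂ)) * u)‖ ≤ k) :
    ‖fx m12 m3 a u x‖ ≤ (m12 + m3) * k := by
  have e1 : -((m12 : ℂ) + (m3 : ℂ)) = ((-(m12 + m3) : ℝ) : ℂ) := by push_cast; ring
  have e2 : (1 - (a : ℂ)) = ((1 - a : ℝ) : ℂ) := by push_cast; ring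
  rw [fx, norm_mul, e1, Complex.norm_real, norm_neg, Real.norm_of_nonneg hM]
  refine mul_le_mul_of_nonneg_left ?_ hM
  refine (norm_add_le _ _).trans ?_
  rw [norm_mul, norm_mul, Complex.norm_real, Real.norm_of_nonneg ha]
  have e3 : ‖(1 - (a : ℂ))‖ = 1 - a := by
    rw [e2, Complex.norm_real, Real.norm_of_nonneg hb]
  rw [e3]
  nlinarith

/-- the binary stays almost circular -/
theorem final {m12 m3 : ℝ} {P : ℂ} {u v : ℝ → ℂ} {T : ℝ} (hm1 : -(1 / 10 ^ 6) ≤ m12 - 1) (hm2 : m12 - 1 ≤ 1 / 10 ^ 6)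
    (hm3 : 0 ≤ m3) (hm3' : m3 ≤ 1 / 10 ^ 6) (hP : ‖P‖ = 1) (hu0 : ‖u 0 - P‖ ≤ 1 / 10 ^ 6)
    (hv0 : ‖v 0 - I * P‖ ≤ 1 / 10 ^ 6) (h1 : 9 / 10 ≤ ‖u T‖) (h2 : ‖u T‖ ≤ 11 / 10)
    (hh : |(‖v T‖ ^ 2 / 2 - m12 * (‖u T‖)⁻¹) - (‖v 0‖ ^ 2 / 2 - m12 * (‖u 0‖)⁻¹)| ≤ 6 * m3)
    (hl : |((starRingEnd ℂ) (u T) * v T).im - ((starRingEnd ℂ) (u 0) * v 0).im| ≤ 6 * m3) :
    9 / 10 < ‖u T‖ ∧ ‖u T‖ < 11 / 10 ∧ ‖v T‖ < 2 := by
  have nu0 : |‖u 0‖ - 1| ≤ 1 / 10 ^ 6 := by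
    have := (abs_norm_sub_norm_le (u 0) P).trans hu0
    rwa [hP] at this
  have nv0 : |‖v 0‖ - 1| ≤ 1 / 10 ^ 6 := by
    have h1 : ‖I * P‖ = 1 := by rw [norm_mul, Complex.norm_I, hP, one_mul]
    have := (abs_norm_sub_norm_le (v 0) (I * P)).trans hv0
    rwa [h1] at this
  -- angular momentum at time 0
  have l0 : |((starRingEnd ℂ) (u 0) * v 0).im - 1| ≤ 3 / 10 ^ 6 := by
    have e1 : (starRingEnd ℂ) (u 0) * v 0 - I =
        (starRingEnd ℂ) (u 0 - P) * (v 0 - I * P) + (starRingEnd ℂ) (u 0 - P) * (I * P) + (starRingEnd ℂ) P * (v 0 - I * P) := by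
      have e2 : (starRingEnd ℂ) P * P = 1 := by
        rw [mul_comm, Complex.mul_conj, Complex.normSq_eq_norm_sq, hP]; norm_num
      have e3 : I = I * ((starRingEnd ℂ) P * P) := by rw [e2, mul_one]
      rw [map_sub]
      linear_combination -e3
    have e4 : ((starRingEnd ℂ) (u 0) * v 0).im - 1 = ((starRingEnd ℂ) (u 0) * v 0 - I).im := by simp
    rw [e4]
    refine (Complex.abs_im_le_norm _).trans ?_
    rw [e1]
    have hIP : ‖I * P‖ = 1 := by rw [norm_mul, Complex.norm_I, hP, one_mul]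
    refine (norm_add₃_le).trans ?_
    rw [norm_mul, norm_mul ((starRingEnd ℂ) (u 0 - P)) (I * P), norm_mul ((starRingEnd ℂ) P), RCLike.norm_conj,
      RCLike.norm_conj, hIP, hP]
    have := norm_nonneg (u 0 - P)
    have := norm_nonneg (v 0 - I * P)
    have h3 : ‖u 0 - P‖ * ‖v 0 - I * P‖ ≤ 1 / 10 ^ 6 * (1 / 10 ^ 6) := mul_le_mul hu0 hv0 (norm_nonneg _) (by norm_num)
    norm_num at h3 hu0 hv0 ⊢
    linarith
  obtain ⟨nu1, nu2⟩ := abs_le.1 nu0
  obtain ⟨nv1, nv2⟩ := abs_le.1 nv0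
  generalize ((starRingEnd ℂ) (u 0) * v 0).im = L0 at l0 hl
  obtain ⟨l1, l2⟩ := abs_le.1 l0
  obtain ⟨hh1, hh2⟩ := abs_le.1 hh
  obtain ⟨hl1, hl2⟩ := abs_le.1 hl
  have hal := alg3 (u T) (v T)
  norm_num at hm1 hm2 hm3' nu1 nu2 nv1 nv2 l1 l2
  -- inverse of |u 0|
  have hi : 1 - 2 / 10 ^ 6 ≤ (‖u 0‖)⁻¹ := by
    rw [show (1 - 2 / 10 ^ 6 : ℝ) = ((1 - 2 / 10 ^ 6 : ℝ)⁻¹)⁻¹ by rw [inv_inv]]
    refine inv_anti₀ (by linarith) ?_
    norm_num
    linarith
  have h0 : ‖v 0‖ ^ 2 / 2 - m12 * (‖u 0‖)⁻¹ ≤ -1 / 2 + 5 / 10 ^ 6 := by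
    have e1 : ‖v 0‖ ^ 2 ≤ (1 + 1 / 10 ^ 6) ^ 2 := pow_le_pow_left₀ (norm_nonneg _) (by norm_num; linarith) 2
    have e2 : (1 - 1 / 10 ^ 6) * (1 - 2 / 10 ^ 6) ≤ m12 * (‖u 0‖)⁻¹ :=
      mul_le_mul (by norm_num; linarith) hi (by norm_num) (by linarith)
    norm_num at e1 e2 ⊢
    linarith
  -- at time T
  set ρ := ‖u T‖ with hρ
  set w := ‖v T‖ with hw
  set l := ((starRingEnd ℂ) (u T) * v T).im with hl'
  have hE : w ^ 2 / 2 - m12 * ρ⁻¹ ≤ -1 / 2 + 11 / 10 ^ 6 := by norm_num at h0 ⊢; linarith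
  have hl0 : 1 - 9 / 10 ^ 6 ≤ l := by norm_num; linarith
  have hρ0 : 0 < ρ := by linarith
  have h3 : ρ ^ 2 * (w ^ 2 / 2 - m12 * ρ⁻¹) ≤ ρ ^ 2 * (-1 / 2 + 11 / 10 ^ 6) :=
    mul_le_mul_of_nonneg_left hE (sq_nonneg _)
  have h4 : ρ ^ 2 * (w ^ 2 / 2 - m12 * ρ⁻¹) = ρ ^ 2 * w ^ 2 / 2 - m12 * ρ := by
    field_simp
  rw [h4] at h3
  have h5 : (1 - 9 / 10 ^ 6) ^ 2 ≤ l ^ 2 := pow_le_pow_left₀ (by norm_num) hl0 2
  have hρ2 : ρ ^ 2 ≤ (11 / 10) ^ 2 := pow_le_pow_left₀ hρ0.le h2 2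
  have h6 : m12 * ρ ≤ ρ + 2 / 10 ^ 6 := by
    have : (m12 - 1) * ρ ≤ 1 / 10 ^ 6 * (11 / 10) := mul_le_mul (by norm_num; linarith) h2 hρ0.le (by norm_num)
    norm_num at this ⊢
    linarith
  have h7 : (ρ - 1) ^ 2 ≤ 1 / 10 ^ 4 := by
    norm_num at h3 h5 hρ2 h6 ⊢
    nlinarith
  have h8 : |ρ - 1| ≤ 1 / 10 ^ 2 := by
    apply abs_le_of_sq_le_sq _ (by norm_num)
    norm_num at h7 ⊢
    linarith
  obtain ⟨h9, h10⟩ := abs_le.1 h8
  refine ⟨by norm_num at h9; linarith, by norm_num at h10; linarith, ?_⟩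
  have h11 : ρ⁻¹ ≤ 10 / 9 := by
    rw [show (10 / 9 : ℝ) = (9 / 10)⁻¹ by norm_num]
    exact inv_anti₀ (by norm_num) h1
  have h12 : m12 * ρ⁻¹ ≤ (1 + 1 / 10 ^ 6) * (10 / 9) :=
    mul_le_mul (by norm_num; linarith) h11 (by positivity) (by norm_num)
  have h13 : w ^ 2 < 2 ^ 2 := by
    norm_num at h12 hE ⊢
    linarith
  exact lt_of_pow_lt_pow_left₀ 2 (by norm_num) h13

end Esc

open Esc

theorem escape : ∃ δ : ℝ, 0 < δ ∧ ∀ m12 m3 a : ℝ, |m12 - 1| ≤ δ → 0 < m3 → m3 ≤ δ → |a - 19 / 82| ≤ δ →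
    ∀ u v x y : ℝ → ℂ, JSol m12 m3 a u v x y → ∀ P E : ℂ, ‖P‖ = 1 → ‖E‖ = 1 →
      ‖u 0 - P‖ ≤ δ → ‖v 0 - I * P‖ ≤ δ →
      28 / 5 ≤ ((starRingEnd ℂ) E * x 0).re → 17 / 25 ≤ ((starRingEnd ℂ) E * y 0).re →
      ∀ t, 0 ≤ t → 2 / 5 ≤ ‖u t‖ ∧ 2 / 5 ≤ ‖x t + (a : ℂ) * u t‖ ∧ 2 / 5 ≤ ‖x t - (1 - (a : ℂ)) * u t‖ ∧
        5 + t / 10 ≤ ‖x t‖ ∧ ‖u t‖ ≤ 2 := by
  refine ⟨1 / 10 ^ 6, by norm_num, ?_⟩
  intro m12 m3 a hm12 hm3 hm3' ha u v x y hJ P E hP hE hu0 hv0 hx0 hy0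
  obtain ⟨hm1, hm2⟩ := abs_le.1 hm12
  obtain ⟨ha1, ha2⟩ := abs_le.1 ha
  have ha0 : 0 < a := by norm_num at ha1; linarith
  have hb0 : 0 < 1 - a := by norm_num at ha2; linarith
  -- the real functions
  set Y : ℝ → ℝ := fun t => ((starRingEnd ℂ) E * x t).re with hY
  set Z : ℝ → ℝ := fun t => ((starRingEnd ℂ) E * y t).re with hZ
  set F : ℝ → ℝ := fun t => ((starRingEnd ℂ) E * fx m12 m3 a (u t) (x t)).re with hF
  have dY : ∀ t, HasDerivAt Y (Z t) t := fun t => re_deriv E (hJ.dx t)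
  have dZ : ∀ t, HasDerivAt Z (F t) t := fun t => re_deriv E (hJ.dy t)
  have cu : Continuous u := continuous_iff_continuousAt.2 fun t => (hJ.du t).continuousAt
  have cv : Continuous v := continuous_iff_continuousAt.2 fun t => (hJ.dv t).continuousAt
  have cY : Continuous Y := continuous_iff_continuousAt.2 fun t => (dY t).continuousAt
  have cZ : Continuous Z := continuous_iff_continuousAt.2 fun t => (dZ t).continuousAt
  -- initial values
  have nu0 : |‖u 0‖ - 1| ≤ 1 / 10 ^ 6 := by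
    have := (abs_norm_sub_norm_le (u 0) P).trans hu0
    rwa [hP] at this
  have nv0 : |‖v 0‖ - 1| ≤ 1 / 10 ^ 6 := by
    have h1 : ‖I * P‖ = 1 := by rw [norm_mul, Complex.norm_I, hP, one_mul]
    have := (abs_norm_sub_norm_le (v 0) (I * P)).trans hv0
    rwa [h1] at this
  obtain ⟨nu1, nu2⟩ := abs_le.1 nu0
  obtain ⟨nv1, nv2⟩ := abs_le.1 nv0
  -- the main bootstrap
  have main : ∀ t, 0 ≤ t → (9 / 10 < ‖u t‖ ∧ ‖u t‖ < 11 / 10 ∧ ‖v t‖ < 2 ∧ 3 / 20 < Z t) := by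
    refine boot (p := fun t => 9 / 10 < ‖u t‖ ∧ ‖u t‖ < 11 / 10 ∧ ‖v t‖ < 2 ∧ 3 / 20 < Z t) ?_ ?_ ?_
    · refine (isOpen_lt continuous_const cu.norm).inter ((isOpen_lt cu.norm continuous_const).inter
        ((isOpen_lt cv.norm continuous_const).inter (isOpen_lt continuous_const cZ)))
    · refine ⟨by linarith, by linarith, by linarith, ?_⟩
      have : 17 / 25 ≤ Z 0 := hy0
      linarith
    · intro T hT hp
      -- weak inequalities on the closed interval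
      have hw : ∀ s ∈ Icc 0 T, 9 / 10 ≤ ‖u s‖ ∧ ‖u s‖ ≤ 11 / 10 ∧ ‖v s‖ ≤ 2 ∧ 3 / 20 ≤ Z s := by
        have hcl : IsClosed {s : ℝ | 9 / 10 ≤ ‖u s‖ ∧ ‖u s‖ ≤ 11 / 10 ∧ ‖v s‖ ≤ 2 ∧ 3 / 20 ≤ Z s} :=
          (isClosed_le continuous_const cu.norm).inter ((isClosed_le cu.norm continuous_const).inter
            ((isClosed_le cv.norm continuous_const).inter (isClosed_le continuous_const cZ)))
        have hsub : Ico 0 T ⊆ {s : ℝ | 9 / 10 ≤ ‖u s‖ ∧ ‖u s‖ ≤ 11 / 10 ∧ ‖v s‖ ≤ 2 ∧ 3 / 20 ≤ Z s} := by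
          intro s hs
          obtain ⟨h1, h2, h3, h4⟩ := hp s hs
          exact ⟨h1.le, h2.le, h3.le, h4.le⟩
        have h5 := closure_minimal hsub hcl
        rw [closure_Ico hT.ne] at h5
        exact h5
      -- the position of the third body
      have hYt : ∀ s ∈ Icc 0 T, 28 / 5 + 3 / 20 * s ≤ Y s := by
        intro s hs
        have h1 := lower dY (fun r hr => (hw r hr).2.2.2) s hs
        have h2 : 28 / 5 ≤ Y 0 := hx0
        linarith
      have hdist : ∀ s ∈ Icc 0 T, Y s - 9 / 10 ≤ ‖x s + (a : ℂ) * u s‖ ∧ Y s - 9 / 10 ≤ ‖x s - (1 - (a : ℂ)) * u s‖ := by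
        intro s hs
        exact dist_low ha0.le hb0.le (by norm_num at ha2; linarith) (by norm_num at ha1; linarith) hE (hw s hs).2.1
      have hker : ∀ s ∈ Icc 0 T, ‖ker (1/4) (x s + (a : ℂ) * u s)‖ ≤ 1 / (Y s - 9 / 10) ^ 2 ∧
          ‖ker (1/4) (x s - (1 - (a : ℂ)) * u s)‖ ≤ 1 / (Y s - 9 / 10) ^ 2 := by
        intro s hs
        have h1 := hYt s hs
        have h2 : 47 / 10 ≤ Y s - 9 / 10 := by have := hs.1; linarith
        obtain ⟨h3, h4⟩ := hdist s hs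
        constructor
        · rw [ker_norm' (by linarith)]
          gcongr
        · rw [ker_norm' (by linarith)]
          gcongr
      have hFs : ∀ s ∈ Icc 0 T, -((m12 + m3) / (Y s - 9 / 10) ^ 2) ≤ F s := by
        intro s hs
        have h1 := re_le E hE (fx m12 m3 a (u s) (x s))
        have h2 := fx_norm (m12 := m12) (m3 := m3) (by norm_num at hm1; linarith) ha0.le hb0.le (hker s hs).1 (hker s hs).2
        have h3 := (abs_le.1 h1).1
        have h4 : -((m12 + m3) / (Y s - 9 / 10) ^ 2) = -((m12 + m3) * (1 / (Y s - 9 / 10) ^ 2)) := by ring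
        rw [h4]
        linarith
      have hTT : T ∈ Icc 0 T := ⟨hT.le, le_refl _⟩
      have hZT : 3 / 20 < Z T := by
        have dG : ∀ s ∈ Icc 0 T, HasDerivAt (fun r => Z r ^ 2 / 2 - (m12 + m3) * (Y r - 9 / 10)⁻¹)
            (Z s * F s + (m12 + m3) * (Z s / (Y s - 9 / 10) ^ 2)) s := by
          intro s hs
          have h2 : 0 < Y s - 9 / 10 := by have := hs.1; have := hYt s hs; linarith
          have h3 := (((dZ s).pow 2).div_const 2).sub ((((dY s).sub_const (9 / 10)).inv h2.ne').const_mul (m12 + m3))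
          refine HasDerivAt.congr_deriv h3 ?_
          simp only [Nat.cast_ofNat, Nat.add_one_sub_one, pow_one]
          ring
        have hmono : MonotoneOn (fun r => Z r ^ 2 / 2 - (m12 + m3) * (Y r - 9 / 10)⁻¹) (Icc 0 T) := by
          refine monotoneOn_of_deriv_nonneg (convex_Icc 0 T) (fun s hs => (dG s hs).continuousAt.continuousWithinAt)
            (fun s hs => (dG s (interior_subset hs)).differentiableAt.differentiableWithinAt) ?_
          intro s hs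
          have hs' := interior_subset hs
          rw [(dG s hs').deriv]
          have h2 := hFs s hs'
          have h3 := (hw s hs').2.2.2
          have h4 : Z s * F s + (m12 + m3) * (Z s / (Y s - 9 / 10) ^ 2) =
            Z s * (F s + (m12 + m3) / (Y s - 9 / 10) ^ 2) := by ring
          rw [h4]
          exact mul_nonneg (by linarith) (by linarith)
        have h1 := hmono (left_mem_Icc.2 hT.le) hTT hT.le
        simp only at h1
        have hY0 : 28 / 5 ≤ Y 0 := hx0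
        have hZ0 : 17 / 25 ≤ Z 0 := hy0
        have h2 : (Y 0 - 9 / 10)⁻¹ ≤ 10 / 47 := by
          rw [show (10 / 47 : ℝ) = (47 / 10)⁻¹ by norm_num]
          exact inv_anti₀ (by norm_num) (by linarith)
        have h3 : 0 < (Y T - 9 / 10)⁻¹ := by
          have := hYt T hTT
          exact inv_pos.2 (by linarith)
        have hM0 : 0 < m12 + m3 := by norm_num at hm1; linarith
        have hM1 : m12 + m3 ≤ 101 / 100 := by norm_num at hm2 hm3'; linarith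
        have h4 : (m12 + m3) * (Y 0 - 9 / 10)⁻¹ ≤ 101 / 100 * (10 / 47) :=
          mul_le_mul hM1 h2 (by rw [inv_nonneg]; linarith) (by norm_num)
        have h5 : 0 < (m12 + m3) * (Y T - 9 / 10)⁻¹ := mul_pos hM0 h3
        have h6 : (17 / 25) ^ 2 ≤ Z 0 ^ 2 := pow_le_pow_left₀ (by norm_num) hZ0 2
        have h7 := (hw T hTT).2.2.2
        by_contra hcon
        have h8 : Z T ≤ 3 / 20 := not_lt.1 hcon
        have h9 : Z T ^ 2 ≤ (3 / 20) ^ 2 := pow_le_pow_left₀ (by linarith) h8 2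
        norm_num at h4 h6 h9
        linarith
      -- the binary
      set p : ℝ → ℂ := fun s => (m3 : ℂ) * (ker (1/4) (x s - (1 - (a : ℂ)) * u s) - ker (1/4) (x s + (a : ℂ) * u s)) with hp'
      have hpn : ∀ s ∈ Icc 0 T, ‖p s‖ ≤ 2 * m3 / (47 / 10 + 3 / 20 * s) ^ 2 := by
        intro s hs
        obtain ⟨h1, h2⟩ := hker s hs
        have h3 := hYt s hs
        have h4 := hs.1
        rw [hp', norm_mul, Complex.norm_real, Real.norm_of_nonneg hm3.le]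
        have h5 : 1 / (Y s - 9 / 10) ^ 2 ≤ 1 / (47 / 10 + 3 / 20 * s) ^ 2 := by
          gcongr
          linarith
        have h6 := (norm_sub_le (ker (1/4) (x s - (1 - (a : ℂ)) * u s)) (ker (1/4) (x s + (a : ℂ) * u s))).trans
          (add_le_add (h2.trans h5) (h1.trans h5))
        calc m3 * ‖ker (1/4) (x s - (1 - (a : ℂ)) * u s) - ker (1/4) (x s + (a : ℂ) * u s)‖
            ≤ m3 * (1 / (47 / 10 + 3 / 20 * s) ^ 2 + 1 / (47 / 10 + 3 / 20 * s) ^ 2) :=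
              mul_le_mul_of_nonneg_left h6 hm3.le
          _ = 2 * m3 / (47 / 10 + 3 / 20 * s) ^ 2 := by ring
      have hfu : ∀ s ∈ Icc 0 T, fu m12 m3 a (u s) (x s) = ((-(m12 / ‖u s‖ ^ 3) : ℝ) : ℂ) * u s + p s := by
        intro s hs
        have h1 := (hw s hs).1
        rw [fu, ker_eq' (x := u s) (by linarith), hp']
        push_cast
        ring
      -- energy and angular momentum
      have dh : ∀ s ∈ Icc 0 T, HasDerivAt (fun r => ‖v r‖ ^ 2 / 2 - m12 * (‖u r‖)⁻¹)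
          ((starRingEnd ℂ) (v s) * p s).re s := by
        intro s hs
        have h1 : 0 < ‖u s‖ := by have := (hw s hs).1; linarith
        have h3 := ((norm_sq_deriv (hJ.dv s)).div_const 2).sub ((((norm_deriv (hJ.du s) h1)).inv h1.ne').const_mul m12)
        refine HasDerivAt.congr_deriv h3 ?_
        rw [hfu s hs, mul_add, Complex.add_re]
        have e1 := alg1 (-(m12 / ‖u s‖ ^ 3)) (u s) (v s)
        rw [e1]
        field_simp
        ring
      have dl : ∀ s ∈ Icc 0 T, HasDerivAt (fun r => ((starRingEnd ℂ) (u r) * v r).im)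
          ((starRingEnd ℂ) (u s) * p s).im s := by
        intro s hs
        have h1 : HasDerivAt (fun r => (starRingEnd ℂ) (u r)) ((starRingEnd ℂ) (v s)) s :=
          (Complex.conjCLE.toContinuousLinearMap.hasFDerivAt.comp_hasDerivAt s (hJ.du s))
        have h2 := Complex.imCLM.hasFDerivAt.comp_hasDerivAt s (h1.mul (hJ.dv s))
        refine HasDerivAt.congr_deriv h2 ?_
        rw [hfu s hs]
        exact alg2 _ _ _ _
      have hh := integr hm3.le dh (fun s hs => by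
        refine (Complex.abs_re_le_norm _).trans ?_
        rw [norm_mul, RCLike.norm_conj]
        have h1 := (hw s hs).2.2.1
        have h2 := mul_le_mul h1 (hpn s hs) (norm_nonneg _) (by norm_num)
        refine h2.trans (le_of_eq ?_)
        ring) T hTT
      have hl := integr hm3.le dl (fun s hs => by
        refine (Complex.abs_im_le_norm _).trans ?_
        rw [norm_mul, RCLike.norm_conj]
        have h1 := (hw s hs).2.1
        have h2 := mul_le_mul (h1.trans (show (11 / 10 : ℝ) ≤ 2 by norm_num)) (hpn s hs) (norm_nonneg _) (by norm_num)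
        refine h2.trans (le_of_eq ?_)
        ring) T hTT
      -- initial values of energy and angular momentum
      have hfin := final hm1 hm2 hm3.le hm3' hP hu0 hv0 (hw T hTT).1 (hw T hTT).2.1 hh hl
      exact ⟨hfin.1, hfin.2.1, hfin.2.2, hZT⟩
  intro t ht
  obtain ⟨h1, h2, h3, h4⟩ := main t ht
  have hYt : 28 / 5 + 3 / 20 * t ≤ Y t := by
    have h5 := lower dY (fun r (hr : r ∈ Icc 0 t) => (main r hr.1).2.2.2.le) t ⟨ht, le_refl _⟩
    have h6 : 28 / 5 ≤ Y 0 := hx0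
    linarith
  obtain ⟨h5, h6⟩ := dist_low (x := x t) ha0.le hb0.le (by norm_num at ha2; linarith) (by norm_num at ha1; linarith) hE h2.le
  have h7 := (abs_le.1 (re_le E hE (x t))).2
  have h8 : ((starRingEnd ℂ) E * x t).re = Y t := rfl
  rw [h8] at h5 h6 h7
  refine ⟨by linarith, by linarith, by linarith, by linarith, by linarith⟩

end Pool.Agent.H3.TB
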