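import Pool.Agent.H3.TB.Defs

/-! Stub 3B-MODE: the exact unstable mode at the relative equilibrium. -/

set_option autoImplicit false

open Complex Filter Topology

namespace Pool.Agent.H3.TB

namespace Mode

noncomputable def k2 (z : ℝ) : ℝ := 1 / z ^ 2 - 1 / (1 + z) ^ 2
noncomputable def MM (m3 z : ℝ) : ℝ := 1 + m3 * k2 z + m3
noncomputable def AA (m3 z : ℝ) : ℝ := (1 + z - MM m3 z / (1 + z) ^ 2) / (1 + MM m3 z * k2 z)
noncomputable def B22 (m3 z : ℝ) : ℝ := MM m3 z * ((1 - AA m3 z) / (1 + z) ^ 3 + AA m3 z / z ^ 3)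
noncomputable def B11 (m3 z : ℝ) : ℝ := 1 + m3 * k2 z + m3 * ((1 - AA m3 z) / z ^ 3 + AA m3 z / (1 + z) ^ 3)
noncomputable def Bt (m3 z : ℝ) : ℝ := B11 m3 z + B22 m3 z - 1
noncomputable def WW (m3 z : ℝ) : ℝ := -m3 * (1 / z ^ 3 - 1 / (1 + z) ^ 3) / (B22 m3 z - 1)
noncomputable def LL (b : ℝ) : ℝ := Real.sqrt (((b - 2) + Real.sqrt (9 * b ^ 2 - 8 * b)) / 2)
noncomputable def CC (b : ℝ) : ℝ := (LL b ^ 2 - 1 - 2 * b) / (2 * LL b)

theorem k2_half : k2 (1/2) = 32/9 := by unfold k2; norm_num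
theorem MM_half : MM 0 (1/2) = 1 := by unfold MM; norm_num
theorem AA_half : AA 0 (1/2) = 19/82 := by unfold AA; rw [MM_half, k2_half]; norm_num
theorem B22_half : B22 0 (1/2) = 256/123 := by unfold B22; rw [MM_half, AA_half]; norm_num
theorem B11_half : B11 0 (1/2) = 1 := by unfold B11; norm_num
theorem Bt_half : Bt 0 (1/2) = 256/123 := by unfold Bt; rw [B11_half, B22_half]; norm_num
theorem WW_half : WW 0 (1/2) = 0 := by unfold WW; norm_num

theorem cont_k2 : ContinuousAt (fun p : ℝ × ℝ => k2 p.2) (0, 1/2) := by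
  unfold k2
  apply ContinuousAt.sub
  · exact ContinuousAt.div (by fun_prop) (by fun_prop) (by norm_num)
  · exact ContinuousAt.div (by fun_prop) (by fun_prop) (by norm_num)

theorem cont_MM : ContinuousAt (fun p : ℝ × ℝ => MM p.1 p.2) (0, 1/2) := by
  unfold MM
  have := cont_k2
  fun_prop

theorem cont_AA : ContinuousAt (fun p : ℝ × ℝ => AA p.1 p.2) (0, 1/2) := by
  have h1 := cont_k2
  have h2 := cont_MM
  unfold AA
  apply ContinuousAt.div
  · apply ContinuousAt.sub (by fun_prop)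
    exact ContinuousAt.div h2 (by fun_prop) (by norm_num)
  · fun_prop
  · simp only [MM_half, k2_half]; norm_num

theorem cont_B22 : ContinuousAt (fun p : ℝ × ℝ => B22 p.1 p.2) (0, 1/2) := by
  have h1 := cont_AA
  have h2 := cont_MM
  unfold B22
  apply ContinuousAt.mul h2
  apply ContinuousAt.add
  · exact ContinuousAt.div (by fun_prop) (by fun_prop) (by norm_num)
  · exact ContinuousAt.div (by fun_prop) (by fun_prop) (by norm_num)

theorem cont_B11 : ContinuousAt (fun p : ℝ × ℝ => B11 p.1 p.2) (0, 1/2) := by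
  have h1 := cont_AA
  have h2 := cont_k2
  unfold B11
  apply ContinuousAt.add (by fun_prop)
  apply ContinuousAt.mul (by fun_prop)
  apply ContinuousAt.add
  · exact ContinuousAt.div (by fun_prop) (by fun_prop) (by norm_num)
  · exact ContinuousAt.div (by fun_prop) (by fun_prop) (by norm_num)

theorem cont_Bt : ContinuousAt (fun p : ℝ × ℝ => Bt p.1 p.2) (0, 1/2) := by
  have h1 := cont_B22
  have h2 := cont_B11
  unfold Bt
  fun_prop

theorem cont_WW : ContinuousAt (fun p : ℝ × ℝ => WW p.1 p.2) (0, 1/2) := by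
  have h1 := cont_B22
  unfold WW
  apply ContinuousAt.div
  · apply ContinuousAt.mul (by fun_prop)
    apply ContinuousAt.sub
    · exact ContinuousAt.div (by fun_prop) (by fun_prop) (by norm_num)
    · exact ContinuousAt.div (by fun_prop) (by fun_prop) (by norm_num)
  · fun_prop
  · simp only [B22_half]; norm_num

theorem sq_half : (9 * (256/123 : ℝ) ^ 2 - 8 * (256/123)) = 337920/15129 := by norm_num

theorem s_lo : (4.7260883576 : ℝ) < Real.sqrt (337920/15129) := by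
  apply Real.lt_sqrt_of_sq_lt; norm_num

theorem s_hi : Real.sqrt (337920/15129) < (4.7260883577 : ℝ) := by
  rw [Real.sqrt_lt' (by norm_num)]; norm_num

theorem LL_lo : (1.5503853021 : ℝ) < LL (256/123) := by
  unfold LL
  rw [sq_half]
  apply Real.lt_sqrt_of_sq_lt
  have := s_lo
  norm_num
  norm_num at this
  linarith

theorem LL_hi : LL (256/123) < (1.5503853023 : ℝ) := by
  unfold LL
  rw [sq_half, Real.sqrt_lt' (by norm_num)]
  have := s_hi
  norm_num
  norm_num at this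
  linarith

theorem LL_sq {b : ℝ} (hb : 2 ≤ b) : LL b ^ 2 = ((b - 2) + Real.sqrt (9 * b ^ 2 - 8 * b)) / 2 := by
  unfold LL
  apply Real.sq_sqrt
  have := Real.sqrt_nonneg (9 * b ^ 2 - 8 * b)
  linarith

theorem LL_half : |LL (256/123) - ll| < 1 / 10 ^ 9 := by
  have h1 := LL_lo
  have h2 := LL_hi
  unfold ll
  rw [abs_lt]
  norm_num at h1 h2 ⊢
  constructor <;> linarith

theorem CC_half : |CC (256/123) - cc| < 1 / 10 ^ 9 := by
  have h1 := LL_lo
  have h2 := LL_hi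
  have h3 := s_lo
  have h4 := s_hi
  have hpos : 0 < 2 * LL (256/123) := by linarith [show (0:ℝ) < 1.5503853021 by norm_num]
  have e : LL (256/123) ^ 2 - 1 - 2 * (256/123) =
      ((256/123 - 2) + Real.sqrt (337920/15129)) / 2 - 1 - 2 * (256/123) := by
    rw [LL_sq (by norm_num), sq_half]
  have key1 : -0.8897488385 < CC (256/123) := by
    unfold CC
    rw [lt_div_iff₀ hpos, e]
    norm_num at h1 h2 h3 h4 ⊢
    linarith
  have key2 : CC (256/123) < -0.8897488365 := by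
    unfold CC
    rw [div_lt_iff₀ hpos, e]
    norm_num at h1 h2 h3 h4 ⊢
    linarith
  unfold cc
  rw [abs_lt]
  norm_num at key1 key2 ⊢
  constructor <;> linarith

theorem cont_LL : Continuous LL := by
  unfold LL
  fun_prop

theorem cont_CC : ContinuousAt CC (256/123) := by
  have h := cont_LL.continuousAt (x := (256/123 : ℝ))
  unfold CC
  apply ContinuousAt.div
  · fun_prop
  · fun_prop
  · have := LL_lo
    have : (0:ℝ) < LL (256/123) := by linarith [show (0:ℝ) < 1.5503853021 by norm_num]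
    positivity

theorem lc_spec {b : ℝ} (hb : 2 ≤ b) (hl : 0 < LL b) :
    LL b ^ 2 - 1 - 2 * b = 2 * LL b * CC b ∧ (LL b ^ 2 - 1 + b) * CC b = -2 * LL b := by
  have h1 : LL b ^ 2 - 1 - 2 * b = 2 * LL b * CC b := by
    unfold CC; field_simp
  refine ⟨h1, ?_⟩
  have h2 := LL_sq hb
  have h0 : 0 ≤ 9 * b ^ 2 - 8 * b := by nlinarith
  have h3 := Real.sq_sqrt h0
  set s := Real.sqrt (9 * b ^ 2 - 8 * b) with hs
  have h4 : (LL b ^ 2 - 1 + b) * (LL b ^ 2 - 1 - 2 * b) = -4 * LL b ^ 2 := by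
    rw [h2]
    linear_combination h3 / 4
  rw [h1] at h4
  have h5 : 2 * LL b * ((LL b ^ 2 - 1 + b) * CC b + 2 * LL b) = 0 := by linear_combination h4
  rcases mul_eq_zero.mp h5 with h | h
  · exfalso; linarith
  · linarith

/-- the algebra -/
theorem mode_alg {m12 m3 a z : ℝ} (h : IsRE m12 m3 a z) (h1 : 1 + MM m3 z * k2 z ≠ 0) (h2 : B22 m3 z - 1 ≠ 0) :
    m12 = 1 + m3 * k2 z ∧ a = AA m3 z ∧
      Bt m3 z = (m12 + m3) * ((1 - a) * (1 + a * WW m3 z) / (1 + z) ^ 3 + a * (1 - (1 - a) * WW m3 z) / z ^ 3) ∧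
      Bt m3 z * WW m3 z = m12 * WW m3 z - m3 * ((1 - (1 - a) * WW m3 z) / z ^ 3 -
        (1 + a * WW m3 z) / (1 + z) ^ 3) := by
  obtain ⟨hz, h12, hx⟩ := h
  have hz1 : 0 < 1 + z := by linarith
  have e12 : m12 = 1 + m3 * k2 z := by unfold k2; exact h12
  have eM : m12 + m3 = MM m3 z := by unfold MM; rw [e12]
  have eA : a = AA m3 z := by
    unfold AA
    rw [eq_div_iff h1]
    rw [eM] at hx
    have : (1 - a) / (1 + z) ^ 2 + a / z ^ 2 = 1 / (1 + z) ^ 2 + a * k2 z := by unfold k2; ring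
    rw [this] at hx
    linear_combination -hx
  refine ⟨e12, eA, ?_⟩
  -- polynomial form
  have ep : 1 / z ^ 2 = z * (1 / z ^ 3) := by field_simp
  have eq : 1 / (1 + z) ^ 2 = (1 + z) * (1 / (1 + z) ^ 3) := by field_simp
  set p := 1 / z ^ 3 with hp
  set q := 1 / (1 + z) ^ 3 with hq
  have ek : k2 z = z * p - (1 + z) * q := by unfold k2; rw [ep, eq]
  have hx' : 1 + z - a = (m12 + m3) * ((1 - a) * ((1 + z) * q) + a * (z * p)) := by
    rw [hx, ← ep, ← eq]; ring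
  have e22 : B22 m3 z = (m12 + m3) * ((1 - a) * q + a * p) := by
    unfold B22; rw [← eA, ← eM, hp, hq]; ring
  have e11 : B11 m3 z = m12 + m3 * ((1 - a) * p + a * q) := by
    unfold B11; rw [← eA, ← e12, hp, hq]; ring
  have eW : WW m3 z * (B22 m3 z - 1) = -m3 * (p - q) := by
    unfold WW; rw [div_mul_cancel₀ _ h2]
  set w := WW m3 z with hw
  set b22 := B22 m3 z with hb22
  have hb : Bt m3 z = B11 m3 z + b22 - 1 := rfl
  have hB21 : (m12 + m3) * (a * (1 - a)) * (q - p) = (1 - b22) * (1 + z - a) := by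
    rw [e22]
    linear_combination -hx'
  constructor
  · have : (m12 + m3) * ((1 - a) * (1 + a * w) / (1 + z) ^ 3 + a * (1 - (1 - a) * w) / z ^ 3) =
      (m12 + m3) * ((1 - a) * q + a * p) + w * ((m12 + m3) * (a * (1 - a)) * (q - p)) := by
      rw [hp, hq]; ring
    rw [this, ← e22, hB21, hb, e11]
    have : w * ((1 - b22) * (1 + z - a)) = m3 * (p - q) * (1 + z - a) := by linear_combination -(1 + z - a) * eW
    rw [this, e12, ek]
    ring
  · have : m12 * w - m3 * ((1 - (1 - a) * w) / z ^ 3 - (1 + a * w) / (1 + z) ^ 3) =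
      w * (m12 + m3 * ((1 - a) * p + a * q)) - m3 * (p - q) := by
      rw [hp, hq]; ring
    rw [this, ← e11, hb]
    linear_combination eW

end Mode

open Mode in
theorem mode (ε : ℝ) (hε : 0 < ε) : ∃ η : ℝ, 0 < η ∧ ∀ m12 m3 a z : ℝ, IsRE m12 m3 a z → 0 < m3 → m3 < η →
    |z - 1 / 2| < η → |m12 - 1| ≤ ε ∧ |a - 19 / 82| ≤ ε ∧ ∃ l c w β : ℝ,
      |l - ll| ≤ 1 / 10 ^ 9 ∧ |c - cc| ≤ 1 / 10 ^ 9 ∧ |w| ≤ ε ∧
      l ^ 2 - 1 - 2 * β = 2 * l * c ∧ (l ^ 2 - 1 + β) * c = -2 * l ∧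
      β = (m12 + m3) * ((1 - a) * (1 + a * w) / (1 + z) ^ 3 + a * (1 - (1 - a) * w) / z ^ 3) ∧
      β * w = m12 * w - m3 * ((1 - (1 - a) * w) / z ^ 3 - (1 + a * w) / (1 + z) ^ 3) := by
  have cBt := cont_Bt
  have cLL : ContinuousAt (fun p : ℝ × ℝ => LL (Bt p.1 p.2)) (0, 1/2) := by
    have := cont_LL.continuousAt (x := Bt 0 (1/2))
    exact ContinuousAt.comp_of_eq (f := fun p : ℝ × ℝ => Bt p.1 p.2) this cBt rfl
  have cCC : ContinuousAt (fun p : ℝ × ℝ => CC (Bt p.1 p.2)) (0, 1/2) := by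
    exact ContinuousAt.comp_of_eq (f := fun p : ℝ × ℝ => Bt p.1 p.2) cont_CC cBt Bt_half
  have E1 : ∀ᶠ p : ℝ × ℝ in 𝓝 (0, 1/2), |1 + p.1 * k2 p.2 - 1| < ε := by
    have : ContinuousAt (fun p : ℝ × ℝ => |1 + p.1 * k2 p.2 - 1|) (0, 1/2) := by
      have := cont_k2
      fun_prop
    exact this.eventually_lt continuousAt_const (by simp [hε])
  have E2 : ∀ᶠ p : ℝ × ℝ in 𝓝 (0, 1/2), |AA p.1 p.2 - 19/82| < ε := by
    have : ContinuousAt (fun p : ℝ × ℝ => |AA p.1 p.2 - 19/82|) (0, 1/2) := by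
      have := cont_AA
      fun_prop
    exact this.eventually_lt continuousAt_const (by simp only [AA_half]; simp [hε])
  have E3 : ∀ᶠ p : ℝ × ℝ in 𝓝 (0, 1/2), |LL (Bt p.1 p.2) - ll| < 1 / 10 ^ 9 := by
    have : ContinuousAt (fun p : ℝ × ℝ => |LL (Bt p.1 p.2) - ll|) (0, 1/2) := by
      fun_prop
    exact this.eventually_lt continuousAt_const (by simp only [Bt_half]; exact LL_half)
  have E4 : ∀ᶠ p : ℝ × ℝ in 𝓝 (0, 1/2), |CC (Bt p.1 p.2) - cc| < 1 / 10 ^ 9 := by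
    have : ContinuousAt (fun p : ℝ × ℝ => |CC (Bt p.1 p.2) - cc|) (0, 1/2) := by
      fun_prop
    exact this.eventually_lt continuousAt_const (by simp only [Bt_half]; exact CC_half)
  have E5 : ∀ᶠ p : ℝ × ℝ in 𝓝 (0, 1/2), |WW p.1 p.2| < ε := by
    have : ContinuousAt (fun p : ℝ × ℝ => |WW p.1 p.2|) (0, 1/2) := by
      have := cont_WW
      fun_prop
    exact this.eventually_lt continuousAt_const (by simp only [WW_half]; simp [hε])
  have E6 : ∀ᶠ p : ℝ × ℝ in 𝓝 (0, 1/2), 2 < Bt p.1 p.2 :=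
    continuousAt_const.eventually_lt cBt (by simp only [Bt_half]; norm_num)
  have E7 : ∀ᶠ p : ℝ × ℝ in 𝓝 (0, 1/2), 1 < B22 p.1 p.2 :=
    continuousAt_const.eventually_lt cont_B22 (by simp only [B22_half]; norm_num)
  have E8 : ∀ᶠ p : ℝ × ℝ in 𝓝 (0, 1/2), 0 < 1 + MM p.1 p.2 * k2 p.2 := by
    have : ContinuousAt (fun p : ℝ × ℝ => 1 + MM p.1 p.2 * k2 p.2) (0, 1/2) := by
      have h1 := cont_MM
      have h2 := cont_k2
      fun_prop
    exact continuousAt_const.eventually_lt this (by simp only [MM_half, k2_half]; norm_num)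
  have E9 : ∀ᶠ p : ℝ × ℝ in 𝓝 (0, 1/2), 0 < LL (Bt p.1 p.2) :=
    continuousAt_const.eventually_lt cLL (by
      simp only [Bt_half]; linarith [LL_lo, show (0:ℝ) < 1.5503853021 by norm_num])
  have E := E1.and (E2.and (E3.and (E4.and (E5.and (E6.and (E7.and (E8.and E9)))))))
  rw [Metric.eventually_nhds_iff] at E
  obtain ⟨η, hη, H⟩ := E
  refine ⟨η, hη, ?_⟩
  intro m12 m3 a z hre h3 h3η hzη
  have hd : dist ((m3, z) : ℝ × ℝ) (0, 1/2) < η := by
    rw [Prod.dist_eq]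
    apply max_lt
    · simp only [Real.dist_eq, sub_zero]; rw [abs_of_pos h3]; exact h3η
    · simp only [Real.dist_eq]; exact hzη
  obtain ⟨e1, e2, e3, e4, e5, e6, e7, e8, e9⟩ := H hd
  simp only at e1 e2 e3 e4 e5 e6 e7 e8 e9
  obtain ⟨a1, a2, a3, a4⟩ := mode_alg hre (ne_of_gt e8) (by linarith)
  refine ⟨by rw [a1]; exact e1.le, by rw [a2]; exact e2.le, LL (Bt m3 z), CC (Bt m3 z), WW m3 z, Bt m3 z,
    e3.le, e4.le, e5.le, (lc_spec e6.le e9).1, (lc_spec e6.le e9).2, a3, a4⟩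

end Pool.Agent.H3.TB
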