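import Pool.Agent.H3.TB.Ker
import Pool.Agent.H3.TB.Mode

/-! 3B-NEAR: the phase near the relative equilibrium. -/

set_option autoImplicit false

open Complex

namespace Pool.Agent.H3.TB

namespace NearAux

/-- numerical hypotheses on the parameters -/
structure NP (ε kap m12 m3 a z l c w β : ℝ) : Prop where
  e0 : 0 ≤ ε
  e1 : ε ≤ 1 / 10 ^ 20
  k0 : 10 ≤ kap
  ke : kap * ε ≤ 1 / 10 ^ 6
  h12 : |m12 - 1| ≤ ε
  h3 : 0 < m3
  h3' : m3 ≤ ε
  hz : |z - 1 / 2| ≤ ε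
  ha : |a - 19 / 82| ≤ ε
  hl : |l - ll| ≤ 1 / 10 ^ 9
  hc : |c - cc| ≤ 1 / 10 ^ 9
  hw : |w| ≤ ε
  re : IsRE m12 m3 a z
  q1 : l ^ 2 - 1 - 2 * β = 2 * l * c
  q2 : (l ^ 2 - 1 + β) * c = -2 * l
  q3 : β = (m12 + m3) * ((1 - a) * (1 + a * w) / (1 + z) ^ 3 + a * (1 - (1 - a) * w) / z ^ 3)
  q4 : β * w = m12 * w - m3 * ((1 - (1 - a) * w) / z ^ 3 - (1 + a * w) / (1 + z) ^ 3)

/-- the direction `1 + i c` -/
noncomputable def gg (c : ℝ) : ℂ := 1 + (c : ℂ) * I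

theorem gg_conj (c : ℝ) : (starRingEnd ℂ) (gg c) = 1 - (c : ℂ) * I := by
  simp [gg, sub_eq_add_neg]

theorem gg_normSq (c : ℝ) : ‖gg c‖ ^ 2 = 1 + c ^ 2 := by
  rw [← Complex.normSq_eq_norm_sq, gg, Complex.normSq_apply]
  simp
  ring

/-- complex form of the mode equation -/
theorem mode_c {l c β : ℝ} (q1 : l ^ 2 - 1 - 2 * β = 2 * l * c) (q2 : (l ^ 2 - 1 + β) * c = -2 * l) :
    ((l : ℂ) ^ 2 - 1 + 2 * I * l) * gg c = (β : ℂ) / 2 * (gg c + 3 * (starRingEnd ℂ) (gg c)) := by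
  rw [gg_conj, gg]
  have e1 : (l : ℂ) ^ 2 - 1 - 2 * β = 2 * l * c := by exact_mod_cast q1
  have e2 : ((l : ℂ) ^ 2 - 1 + β) * c = -2 * l := by exact_mod_cast q2
  linear_combination e1 + I * e2 + (2 * l * c : ℂ) * I_sq

variable {ε kap m12 m3 a z l c w β : ℝ}

namespace NP

theorem b12 (h : NP ε kap m12 m3 a z l c w β) : 999 / 1000 ≤ m12 ∧ m12 ≤ 1001 / 1000 := by
  have := abs_le.1 h.h12
  have := h.e1
  constructor <;> norm_num at * <;> linarith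

theorem bM (h : NP ε kap m12 m3 a z l c w β) : 999 / 1000 ≤ m12 + m3 ∧ m12 + m3 ≤ 1001 / 1000 := by
  have := abs_le.1 h.h12
  have := h.e1
  have := h.h3
  have := h.h3'
  constructor <;> norm_num at * <;> linarith

theorem bm3 (h : NP ε kap m12 m3 a z l c w β) : m3 ≤ 1 / 1000 := by
  have := h.e1
  have := h.h3'
  norm_num at *; linarith

theorem ba (h : NP ε kap m12 m3 a z l c w β) : 2317 / 10000 ≤ a ∧ a ≤ 2318 / 10000 := by
  have := abs_le.1 h.ha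
  have := h.e1
  constructor <;> norm_num at * <;> linarith

theorem bz (h : NP ε kap m12 m3 a z l c w β) : 4999 / 10000 ≤ z ∧ z ≤ 5001 / 10000 := by
  have := abs_le.1 h.hz
  have := h.e1
  constructor <;> norm_num at * <;> linarith

theorem bw (h : NP ε kap m12 m3 a z l c w β) : |w| ≤ 1 / 10000 := by
  have := h.hw
  have := h.e1
  norm_num at *; linarith

theorem bc (h : NP ε kap m12 m3 a z l c w β) : -8898 / 10000 ≤ c ∧ c ≤ -8897 / 10000 := by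
  have := abs_le.1 h.hc
  unfold cc at this
  constructor <;> norm_num at * <;> linarith

theorem bl (h : NP ε kap m12 m3 a z l c w β) : 15503 / 10000 ≤ l ∧ l ≤ 15504 / 10000 := by
  have := abs_le.1 h.hl
  unfold ll at this
  constructor <;> norm_num at * <;> linarith

theorem bg2 (h : NP ε kap m12 m3 a z l c w β) : ‖gg c‖ ^ 2 ≤ 17918 / 10000 := by
  rw [gg_normSq]
  have := h.bc
  nlinarith

theorem bg (h : NP ε kap m12 m3 a z l c w β) : ‖gg c‖ ≤ 134 / 100 := by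
  have := h.bg2
  by_contra hh
  push Not at hh
  nlinarith

theorem b1 (h : NP ε kap m12 m3 a z l c w β) : |1 + a * w| ≤ 1001 / 1000 := by
  have := h.ba; have := abs_le.1 h.bw
  rw [abs_le]; constructor <;> nlinarith

theorem b2 (h : NP ε kap m12 m3 a z l c w β) : |1 - (1 - a) * w| ≤ 1001 / 1000 := by
  have := h.ba; have := abs_le.1 h.bw
  rw [abs_le]; constructor <;> nlinarith

end NP

/-- remainder of the kernel -/
noncomputable def rem (X : ℝ) (h : ℂ) : ℂ := ker (1/4) ((X : ℂ) + h) - (((1 / X ^ 2 : ℝ) : ℂ) -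
      ((1 / (2 * X ^ 3) : ℝ) : ℂ) * (h + 3 * (starRingEnd ℂ) h))

/-- the two increments -/
theorem rem_bounds (h : NP ε kap m12 m3 a z l c w β) {σ : ℝ} (s0 : 0 ≤ σ) (s1 : σ ≤ 1 / 10 ^ 9) :
    ‖rem (1 + z) (((σ * (1 + a * w) : ℝ) : ℂ) * gg c)‖ ≤ 47 / 10 * σ ^ 2 ∧
    ‖rem z (((σ * (1 - (1 - a) * w) : ℝ) : ℂ) * gg c)‖ ≤ 3745 / 10 * σ ^ 2 ∧
    ‖rem 1 (((σ * w : ℝ) : ℂ) * gg c)‖ ≤ 24 * ε ^ 2 * σ ^ 2 := by
  obtain ⟨hz0, -, -⟩ := h.re
  have bz := h.bz; have ba := h.ba; have b1 := h.b1; have b2 := h.b2; have bg := h.bg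
  have hw := h.hw; have bw := h.bw; have he := h.e0; have bg2 := h.bg2
  set g := gg c with hg
  refine ⟨?_, ?_, ?_⟩
  · set h1 : ℂ := ((σ * (1 + a * w) : ℝ) : ℂ) * g with hh1
    have n1 : ‖h1‖ = σ * |1 + a * w| * ‖g‖ := by
      rw [hh1, norm_mul, Complex.norm_real, Real.norm_eq_abs, abs_mul, abs_of_nonneg s0]
    have m1 : ‖h1‖ ≤ σ * (1001 / 1000) * (134 / 100) := by rw [n1]; gcongr
    have k1 : ‖rem (1 + z) h1‖ ≤ 13 * ‖h1‖ ^ 2 / (1 + z) ^ 4 := by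
      have := ker_taylor (ε := 1/4) (X := 1 + z) (h := h1) (by norm_num) (by linarith) (by linarith)
      simpa [rem] using this
    refine k1.trans ?_
    rw [div_le_iff₀ (by positivity)]
    have : (14999 / 10000 : ℝ) ^ 4 ≤ (1 + z) ^ 4 := by gcongr; linarith
    have h2' : ‖h1‖ ^ 2 ≤ (1001 / 1000) ^ 2 * σ ^ 2 * (17918 / 10000) := by
      rw [n1, mul_pow, mul_pow]
      calc σ ^ 2 * |1 + a * w| ^ 2 * ‖g‖ ^ 2 ≤ σ ^ 2 * (1001 / 1000) ^ 2 * (17918 / 10000) := by gcongr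
        _ = _ := by ring
    calc 13 * ‖h1‖ ^ 2 ≤ 13 * ((1001 / 1000) ^ 2 * σ ^ 2 * (17918 / 10000)) := by gcongr
      _ ≤ 47 / 10 * σ ^ 2 * (14999 / 10000 : ℝ) ^ 4 := by nlinarith [sq_nonneg σ]
      _ ≤ _ := by gcongr
  · set h2 : ℂ := ((σ * (1 - (1 - a) * w) : ℝ) : ℂ) * g with hh2
    have n2 : ‖h2‖ = σ * |1 - (1 - a) * w| * ‖g‖ := by
      rw [hh2, norm_mul, Complex.norm_real, Real.norm_eq_abs, abs_mul, abs_of_nonneg s0]
    have m2 : ‖h2‖ ≤ σ * (1001 / 1000) * (134 / 100) := by rw [n2]; gcongr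
    have k2 : ‖rem z h2‖ ≤ 13 * ‖h2‖ ^ 2 / z ^ 4 := by
      have := ker_taylor (ε := 1/4) (X := z) (h := h2) (by norm_num) (by linarith) (by linarith)
      simpa [rem] using this
    refine k2.trans ?_
    rw [div_le_iff₀ (by positivity)]
    have : (4999 / 10000 : ℝ) ^ 4 ≤ z ^ 4 := by gcongr; linarith
    have h2' : ‖h2‖ ^ 2 ≤ (1001 / 1000) ^ 2 * σ ^ 2 * (17918 / 10000) := by
      rw [n2, mul_pow, mul_pow]
      calc σ ^ 2 * |1 - (1 - a) * w| ^ 2 * ‖g‖ ^ 2 ≤ σ ^ 2 * (1001 / 1000) ^ 2 * (17918 / 10000) := by gcongr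
        _ = _ := by ring
    calc 13 * ‖h2‖ ^ 2 ≤ 13 * ((1001 / 1000) ^ 2 * σ ^ 2 * (17918 / 10000)) := by gcongr
      _ ≤ 3745 / 10 * σ ^ 2 * (4999 / 10000 : ℝ) ^ 4 := by nlinarith [sq_nonneg σ]
      _ ≤ _ := by gcongr
  · set h2 : ℂ := ((σ * w : ℝ) : ℂ) * g with hh2
    have n2 : ‖h2‖ = σ * |w| * ‖g‖ := by
      rw [hh2, norm_mul, Complex.norm_real, Real.norm_eq_abs, abs_mul, abs_of_nonneg s0]
    have m2 : ‖h2‖ ≤ σ * (1 / 10000) * (134 / 100) := by rw [n2]; gcongr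
    have k2 : ‖rem 1 h2‖ ≤ 13 * ‖h2‖ ^ 2 / 1 ^ 4 := by
      have := ker_taylor (ε := 1/4) (X := 1) (h := h2) (by norm_num) (by norm_num) (by linarith)
      simpa [rem] using this
    refine k2.trans ?_
    rw [n2, mul_pow, mul_pow]
    calc 13 * (σ ^ 2 * |w| ^ 2 * ‖g‖ ^ 2) / 1 ^ 4 ≤ 13 * (σ ^ 2 * ε ^ 2 * (17918 / 10000)) / 1 ^ 4 := by gcongr
      _ ≤ _ := by nlinarith [mul_nonneg (sq_nonneg σ) (sq_nonneg ε)]

/-- kernel at the first increment -/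
theorem ker1 (c a w z σ : ℝ) :
    ker (1/4) ((((1 + z - a : ℝ) : ℂ) + (σ : ℂ) * gg c) + (a : ℂ) * (1 + (σ : ℂ) * ((w : ℂ) * gg c))) =
      rem (1 + z) (((σ * (1 + a * w) : ℝ) : ℂ) * gg c) + (((1 / (1 + z) ^ 2 : ℝ) : ℂ) - ((1 / (2 * (1 + z) ^ 3) : ℝ) : ℂ) *
        (((σ * (1 + a * w) : ℝ) : ℂ) * (gg c + 3 * (starRingEnd ℂ) (gg c)))) := by
  have : (((1 + z - a : ℝ) : ℂ) + (σ : ℂ) * gg c) + (a : ℂ) * (1 + (σ : ℂ) * ((w : ℂ) * gg c)) =
      ((1 + z : ℝ) : ℂ) + ((σ * (1 + a * w) : ℝ) : ℂ) * gg c := by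
    push_cast; ring
  rw [this, rem, map_mul, Complex.conj_ofReal]; ring

theorem ker2 (c a w z σ : ℝ) :
    ker (1/4) ((((1 + z - a : ℝ) : ℂ) + (σ : ℂ) * gg c) - (1 - (a : ℂ)) * (1 + (σ : ℂ) * ((w : ℂ) * gg c))) =
      rem z (((σ * (1 - (1 - a) * w) : ℝ) : ℂ) * gg c) + (((1 / z ^ 2 : ℝ) : ℂ) - ((1 / (2 * z ^ 3) : ℝ) : ℂ) *
        (((σ * (1 - (1 - a) * w) : ℝ) : ℂ) * (gg c + 3 * (starRingEnd ℂ) (gg c)))) := by
  have : (((1 + z - a : ℝ) : ℂ) + (σ : ℂ) * gg c) - (1 - (a : ℂ)) * (1 + (σ : ℂ) * ((w : ℂ) * gg c)) =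
      (z : ℂ) + ((σ * (1 - (1 - a) * w) : ℝ) : ℂ) * gg c := by
    push_cast; ring
  rw [this, rem, map_mul, Complex.conj_ofReal]; ring

theorem ker0 (c w σ : ℝ) :
    ker (1/4) (1 + (σ : ℂ) * ((w : ℂ) * gg c)) =
      rem 1 (((σ * w : ℝ) : ℂ) * gg c) + (1 - ((1 / 2 : ℝ) : ℂ) *
        (((σ * w : ℝ) : ℂ) * (gg c + 3 * (starRingEnd ℂ) (gg c)))) := by
  have : (1 + (σ : ℂ) * ((w : ℂ) * gg c)) = ((1 : ℝ) : ℂ) + ((σ * w : ℝ) : ℂ) * gg c := by
    push_cast; ring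
  rw [this, rem, map_mul, Complex.conj_ofReal]; push_cast; ring

/-- residual of `x` -/
theorem res_x (h : NP ε kap m12 m3 a z l c w β) {σ : ℝ} (s0 : 0 ≤ σ) (s1 : σ ≤ 1 / 10 ^ 9) :
    ‖fx m12 m3 a (1 + (σ : ℂ) * ((w : ℂ) * gg c)) (((1 + z - a : ℝ) : ℂ) + (σ : ℂ) * gg c) -
      (-(((1 + z - a : ℝ) : ℂ) + (σ : ℂ) * gg c) + 2 * I * l * σ * gg c + (l : ℂ) ^ 2 * σ * gg c)‖ ≤ 91 * σ ^ 2 := by
  obtain ⟨hz0, hre1, hre2⟩ := h.re
  have key := mode_c h.q1 h.q2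
  have hk1 := ker1 c a w z σ
  have hk2 := ker2 c a w z σ
  obtain ⟨k1', k2', -⟩ := rem_bounds h s0 s1
  set g := gg c with hg
  set p1 : ℝ := 1 / (1 + z) ^ 2 with hp1
  set r1 : ℝ := 1 / (2 * (1 + z) ^ 3) with hr1
  set p2 : ℝ := 1 / z ^ 2 with hp2
  set r2 : ℝ := 1 / (2 * z ^ 3) with hr2
  have e1 : (1 + z - a : ℝ) = (m12 + m3) * ((1 - a) * p1 + a * p2) := by rw [hre2, hp1, hp2]; ring
  have e2 : β = 2 * (m12 + m3) * ((1 - a) * (1 + a * w) * r1 + a * (1 - (1 - a) * w) * r2) := by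
    rw [h.q3, hr1, hr2]
    have : z ≠ 0 := hz0.ne'
    have : 1 + z ≠ 0 := by positivity
    field_simp
  have c1 : ((1 + z - a : ℝ) : ℂ) = ((m12 : ℂ) + m3) * ((1 - a) * p1 + a * p2) := by rw [e1]; push_cast; ring
  have c2 : (β : ℂ) = 2 * ((m12 : ℂ) + m3) * ((1 - a) * (1 + a * w) * r1 + a * (1 - (1 - a) * w) * r2) := by
    rw [e2]; push_cast; ring
  set R1 := rem (1 + z) (((σ * (1 + a * w) : ℝ) : ℂ) * g)
  set R2 := rem z (((σ * (1 - (1 - a) * w) : ℝ) : ℂ) * g)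
  have hmain : fx m12 m3 a (1 + (σ : ℂ) * ((w : ℂ) * g)) (((1 + z - a : ℝ) : ℂ) + (σ : ℂ) * g) -
      (-(((1 + z - a : ℝ) : ℂ) + (σ : ℂ) * g) + 2 * I * l * σ * g + (l : ℂ) ^ 2 * σ * g) =
      -((m12 : ℂ) + m3) * ((1 - a) * R1 + a * R2) := by
    rw [fx, hk1, hk2]
    push_cast at c1 ⊢
    linear_combination c1 + (σ : ℂ) * (g + 3 * (starRingEnd ℂ) g) / 2 * (-c2) - (σ : ℂ) * key
  rw [hmain]
  have ba := h.ba; have bM := h.bM
  rw [norm_mul]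
  have q1 : ‖-((m12 : ℂ) + m3)‖ ≤ 1001 / 1000 := by
    rw [norm_neg, ← Complex.ofReal_add, Complex.norm_real, Real.norm_eq_abs, abs_of_nonneg (by linarith)]
    exact bM.2
  have q2 : ‖(1 - (a : ℂ)) * R1 + a * R2‖ ≤ 7683 / 10000 * (47 / 10 * σ ^ 2) +
      2318 / 10000 * (3745 / 10 * σ ^ 2) := by
    refine (norm_add_le _ _).trans ?_
    rw [norm_mul, norm_mul]
    have t1 : ‖1 - (a : ℂ)‖ ≤ 7683 / 10000 := by
      rw [← Complex.ofReal_one, ← Complex.ofReal_sub, Complex.norm_real, Real.norm_eq_abs, abs_of_nonneg (by linarith)]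
      linarith
    have t2 : ‖(a : ℂ)‖ ≤ 2318 / 10000 := by
      rw [Complex.norm_real, Real.norm_eq_abs, abs_of_nonneg (by linarith)]
      linarith
    gcongr
  calc ‖-((m12 : ℂ) + m3)‖ * ‖(1 - (a : ℂ)) * R1 + a * R2‖
      ≤ 1001 / 1000 * (7683 / 10000 * (47 / 10 * σ ^ 2) + 2318 / 10000 * (3745 / 10 * σ ^ 2)) := by gcongr
    _ ≤ 91 * σ ^ 2 := by nlinarith [sq_nonneg σ]

/-- residual of `u` -/
theorem res_u (h : NP ε kap m12 m3 a z l c w β) {σ : ℝ} (s0 : 0 ≤ σ) (s1 : σ ≤ 1 / 10 ^ 9) :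
    ‖fu m12 m3 a (1 + (σ : ℂ) * ((w : ℂ) * gg c)) (((1 + z - a : ℝ) : ℂ) + (σ : ℂ) * gg c) -
      (-(1 + (σ : ℂ) * ((w : ℂ) * gg c)) + 2 * I * l * σ * ((w : ℂ) * gg c) +
        (l : ℂ) ^ 2 * σ * ((w : ℂ) * gg c))‖ ≤ 400 * ε * σ ^ 2 := by
  obtain ⟨hz0, hre1, hre2⟩ := h.re
  have key := mode_c h.q1 h.q2
  have hk1 := ker1 c a w z σ
  have hk2 := ker2 c a w z σ
  have hk0 := ker0 c w σ
  obtain ⟨k1', k2', k0'⟩ := rem_bounds h s0 s1
  set g := gg c with hg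
  set p1 : ℝ := 1 / (1 + z) ^ 2 with hp1
  set r1 : ℝ := 1 / (2 * (1 + z) ^ 3) with hr1
  set p2 : ℝ := 1 / z ^ 2 with hp2
  set r2 : ℝ := 1 / (2 * z ^ 3) with hr2
  have e2 : β * w = m12 * w - 2 * m3 * ((1 - (1 - a) * w) * r2 - (1 + a * w) * r1) := by
    rw [h.q4, hr1, hr2]
    have : z ≠ 0 := hz0.ne'
    have : 1 + z ≠ 0 := by positivity
    field_simp
  have c1 : (m12 : ℂ) = 1 + m3 * (p2 - p1) := by exact_mod_cast hre1
  have c2 : (β : ℂ) * w = m12 * w - 2 * m3 * ((1 - (1 - a) * w) * r2 - (1 + a * w) * r1) := by exact_mod_cast e2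
  set R1 := rem (1 + z) (((σ * (1 + a * w) : ℝ) : ℂ) * g)
  set R2 := rem z (((σ * (1 - (1 - a) * w) : ℝ) : ℂ) * g)
  set R0 := rem 1 (((σ * w : ℝ) : ℂ) * g)
  have hmain : fu m12 m3 a (1 + (σ : ℂ) * ((w : ℂ) * g)) (((1 + z - a : ℝ) : ℂ) + (σ : ℂ) * g) -
      (-(1 + (σ : ℂ) * ((w : ℂ) * g)) + 2 * I * l * σ * ((w : ℂ) * g) + (l : ℂ) ^ 2 * σ * ((w : ℂ) * g)) =
      -(m12 : ℂ) * R0 + m3 * (R2 - R1) := by
    rw [fu, hk1, hk2, hk0]
    push_cast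
    linear_combination (-c1) + (σ : ℂ) * (g + 3 * (starRingEnd ℂ) g) / 2 * (-c2) - (σ : ℂ) * w * key
  rw [hmain]
  have b12 := h.b12; have h3 := h.h3; have h3' := h.h3'; have he := h.e0; have he1 := h.e1
  calc ‖-(m12 : ℂ) * R0 + m3 * (R2 - R1)‖ ≤ m12 * ‖R0‖ + m3 * (‖R2‖ + ‖R1‖) := by
        refine (norm_add_le _ _).trans ?_
        rw [norm_mul, norm_mul, norm_neg, Complex.norm_real, Complex.norm_real, Real.norm_eq_abs,
          Real.norm_eq_abs, abs_of_nonneg (by linarith : 0 ≤ m12), abs_of_pos h3]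
        gcongr
        exact norm_sub_le _ _
    _ ≤ 1001 / 1000 * (24 * ε ^ 2 * σ ^ 2) + ε * (3745 / 10 * σ ^ 2 + 47 / 10 * σ ^ 2) := by
        gcongr
        exact b12.2
    _ ≤ 400 * ε * σ ^ 2 := by
        have : ε ^ 2 ≤ ε / 100 := by
          norm_num at he1
          nlinarith
        have h2 := mul_le_mul_of_nonneg_right this (sq_nonneg σ)
        have h3 := mul_nonneg he (sq_nonneg σ)
        nlinarith

theorem fu_rot {c : ℂ} (hc : ‖c‖ = 1) (m12 m3 a : ℝ) (u x : ℂ) :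
    fu m12 m3 a (c * u) (c * x) = c * fu m12 m3 a u x := by
  rw [fu, fu, show c * x - (1 - (a : ℂ)) * (c * u) = c * (x - (1 - (a : ℂ)) * u) by ring,
    show c * x + (a : ℂ) * (c * u) = c * (x + (a : ℂ) * u) by ring, ker_rot hc, ker_rot hc, ker_rot hc]
  ring

theorem fx_rot {c : ℂ} (hc : ‖c‖ = 1) (m12 m3 a : ℝ) (u x : ℂ) :
    fx m12 m3 a (c * u) (c * x) = c * fx m12 m3 a u x := by
  rw [fx, fx, show c * x - (1 - (a : ℂ)) * (c * u) = c * (x - (1 - (a : ℂ)) * u) by ring,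
    show c * x + (a : ℂ) * (c * u) = c * (x + (a : ℂ) * u) by ring, ker_rot hc, ker_rot hc]
  ring

/-- `x`-force is Lipschitz near the relative equilibrium -/
theorem lip_x (h : NP ε kap m12 m3 a z l c w β) {u x u' x' : ℂ}
    (h1 : 149 / 100 ≤ ‖x + (a : ℂ) * u‖) (h1' : 149 / 100 ≤ ‖x' + (a : ℂ) * u'‖)
    (h2 : 499 / 1000 ≤ ‖x - (1 - (a : ℂ)) * u‖) (h2' : 499 / 1000 ≤ ‖x' - (1 - (a : ℂ)) * u'‖) :
    ‖fx m12 m3 a u x - fx m12 m3 a u' x'‖ ≤ 421 / 100 * ‖x - x'‖ + 3 * ‖u - u'‖ := by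
  have k1 := ker_lip_loc (ε := 1/4) (ρ := 149 / 100) (by norm_num) (by norm_num) h1 h1'
  have k2 := ker_lip_loc (ε := 1/4) (ρ := 499 / 1000) (by norm_num) (by norm_num) h2 h2'
  have ba := h.ba; have bM := h.bM
  have na : ‖(a : ℂ)‖ ≤ 2318 / 10000 := by
    rw [Complex.norm_real, Real.norm_eq_abs, abs_of_nonneg (by linarith)]
    linarith
  have nb : ‖1 - (a : ℂ)‖ ≤ 7683 / 10000 := by
    rw [← Complex.ofReal_one, ← Complex.ofReal_sub, Complex.norm_real, Real.norm_eq_abs, abs_of_nonneg (by linarith)]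
    linarith
  have nM : ‖-((m12 : ℂ) + m3)‖ ≤ 1001 / 1000 := by
    rw [norm_neg, ← Complex.ofReal_add, Complex.norm_real, Real.norm_eq_abs, abs_of_nonneg (by linarith)]
    exact bM.2
  have d1 : ‖(x + (a : ℂ) * u) - (x' + (a : ℂ) * u')‖ ≤ ‖x - x'‖ + 2318 / 10000 * ‖u - u'‖ := by
    rw [show (x + (a : ℂ) * u) - (x' + (a : ℂ) * u') = (x - x') + (a : ℂ) * (u - u') by ring]
    refine (norm_add_le _ _).trans ?_
    rw [norm_mul]
    gcongr
  have d2 : ‖(x - (1 - (a : ℂ)) * u) - (x' - (1 - (a : ℂ)) * u')‖ ≤ ‖x - x'‖ + 7683 / 10000 * ‖u - u'‖ := by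
    rw [show (x - (1 - (a : ℂ)) * u) - (x' - (1 - (a : ℂ)) * u') = (x - x') - (1 - (a : ℂ)) * (u - u') by ring]
    refine (norm_sub_le _ _).trans ?_
    rw [norm_mul]
    gcongr
  have e : fx m12 m3 a u x - fx m12 m3 a u' x' = -((m12 : ℂ) + m3) *
      ((1 - (a : ℂ)) * (ker (1/4) (x + (a : ℂ) * u) - ker (1/4) (x' + (a : ℂ) * u')) +
        (a : ℂ) * (ker (1/4) (x - (1 - (a : ℂ)) * u) - ker (1/4) (x' - (1 - (a : ℂ)) * u'))) := by
    rw [fx, fx]; ring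
  rw [e, norm_mul]
  calc ‖-((m12 : ℂ) + m3)‖ * _ ≤ 1001 / 1000 * (7683 / 10000 * (2 / (149 / 100) ^ 3 *
        (‖x - x'‖ + 2318 / 10000 * ‖u - u'‖)) + 2318 / 10000 * (2 / (499 / 1000) ^ 3 *
        (‖x - x'‖ + 7683 / 10000 * ‖u - u'‖))) := by
        gcongr
        refine (norm_add_le _ _).trans ?_
        rw [norm_mul, norm_mul]
        gcongr
        · exact k1.trans (by gcongr)
        · exact k2.trans (by gcongr)
    _ ≤ _ := by
        have := norm_nonneg (x - x')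
        have := norm_nonneg (u - u')
        nlinarith

/-- `u`-force is Lipschitz near the relative equilibrium -/
theorem lip_u (h : NP ε kap m12 m3 a z l c w β) {u x u' x' : ℂ}
    (h0 : 99 / 100 ≤ ‖u‖) (h0' : 99 / 100 ≤ ‖u'‖)
    (h1 : 149 / 100 ≤ ‖x + (a : ℂ) * u‖) (h1' : 149 / 100 ≤ ‖x' + (a : ℂ) * u'‖)
    (h2 : 499 / 1000 ≤ ‖x - (1 - (a : ℂ)) * u‖) (h2' : 499 / 1000 ≤ ‖x' - (1 - (a : ℂ)) * u'‖) :
    ‖fu m12 m3 a u x - fu m12 m3 a u' x'‖ ≤ 21 / 10 * ‖u - u'‖ + ε * (17 * ‖x - x'‖ + 17 * ‖u - u'‖) := by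
  have k0 := ker_lip_loc (ε := 1/4) (ρ := 99 / 100) (by norm_num) (by norm_num) h0 h0'
  have k1 := ker_lip_loc (ε := 1/4) (ρ := 149 / 100) (by norm_num) (by norm_num) h1 h1'
  have k2 := ker_lip_loc (ε := 1/4) (ρ := 499 / 1000) (by norm_num) (by norm_num) h2 h2'
  have ba := h.ba; have b12 := h.b12; have h3 := h.h3; have h3' := h.h3'; have he := h.e0
  have na : ‖(a : ℂ)‖ ≤ 2318 / 10000 := by
    rw [Complex.norm_real, Real.norm_eq_abs, abs_of_nonneg (by linarith)]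
    linarith
  have nb : ‖1 - (a : ℂ)‖ ≤ 7683 / 10000 := by
    rw [← Complex.ofReal_one, ← Complex.ofReal_sub, Complex.norm_real, Real.norm_eq_abs, abs_of_nonneg (by linarith)]
    linarith
  have nM : ‖-(m12 : ℂ)‖ ≤ 1001 / 1000 := by
    rw [norm_neg, Complex.norm_real, Real.norm_eq_abs, abs_of_nonneg (by linarith)]
    exact b12.2
  have n3 : ‖(m3 : ℂ)‖ ≤ ε := by
    rw [Complex.norm_real, Real.norm_eq_abs, abs_of_pos h3]
    exact h3'
  have d1 : ‖(x + (a : ℂ) * u) - (x' + (a : ℂ) * u')‖ ≤ ‖x - x'‖ + 2318 / 10000 * ‖u - u'‖ := by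
    rw [show (x + (a : ℂ) * u) - (x' + (a : ℂ) * u') = (x - x') + (a : ℂ) * (u - u') by ring]
    refine (norm_add_le _ _).trans ?_
    rw [norm_mul]
    gcongr
  have d2 : ‖(x - (1 - (a : ℂ)) * u) - (x' - (1 - (a : ℂ)) * u')‖ ≤ ‖x - x'‖ + 7683 / 10000 * ‖u - u'‖ := by
    rw [show (x - (1 - (a : ℂ)) * u) - (x' - (1 - (a : ℂ)) * u') = (x - x') - (1 - (a : ℂ)) * (u - u') by ring]
    refine (norm_sub_le _ _).trans ?_
    rw [norm_mul]
    gcongr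
  have e : fu m12 m3 a u x - fu m12 m3 a u' x' = -(m12 : ℂ) * (ker (1/4) u - ker (1/4) u') +
      (m3 : ℂ) * ((ker (1/4) (x - (1 - (a : ℂ)) * u) - ker (1/4) (x' - (1 - (a : ℂ)) * u')) -
        (ker (1/4) (x + (a : ℂ) * u) - ker (1/4) (x' + (a : ℂ) * u'))) := by
    rw [fu, fu]; ring
  rw [e]
  calc ‖-(m12 : ℂ) * (ker (1/4) u - ker (1/4) u') + (m3 : ℂ) * _‖
      ≤ 1001 / 1000 * (2 / (99 / 100) ^ 3 * ‖u - u'‖) +
        ε * ((2 / (499 / 1000) ^ 3 * (‖x - x'‖ + 7683 / 10000 * ‖u - u'‖)) +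
        (2 / (149 / 100) ^ 3 * (‖x - x'‖ + 2318 / 10000 * ‖u - u'‖))) := by
        refine (norm_add_le _ _).trans ?_
        rw [norm_mul, norm_mul]
        gcongr
        refine (norm_sub_le _ _).trans ?_
        gcongr
        · exact k2.trans (by gcongr)
        · exact k1.trans (by gcongr)
    _ ≤ _ := by
        have p1 := norm_nonneg (x - x')
        have p2 := norm_nonneg (u - u')
        have : (2 / (499 / 1000 : ℝ) ^ 3 * (‖x - x'‖ + 7683 / 10000 * ‖u - u'‖)) +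
        (2 / (149 / 100) ^ 3 * (‖x - x'‖ + 2318 / 10000 * ‖u - u'‖)) ≤ 17 * ‖x - x'‖ + 17 * ‖u - u'‖ := by
          norm_num
          nlinarith
        have := mul_le_mul_of_nonneg_left this he
        nlinarith

/-- rotating exponential profile -/
noncomputable def ap (s l : ℝ) (A g : ℂ) (t : ℝ) : ℂ :=
  cexp (I * t) * (A + ((s * Real.exp (l * t) : ℝ) : ℂ) * g)

theorem ap_deriv (s l : ℝ) (A g : ℂ) (t : ℝ) :
    HasDerivAt (ap s l A g) (ap s l (I * A) ((I + l) * g) t) t := by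
  have h1 : HasDerivAt (fun t : ℝ => cexp (I * t)) (cexp (I * t) * (I * 1)) t := by
    have : HasDerivAt (fun t : ℝ => I * (t : ℂ)) (I * 1) t := (Complex.ofRealCLM.hasDerivAt (x := t)).const_mul I
    exact this.cexp
  have h2 : HasDerivAt (fun t : ℝ => s * Real.exp (l * t)) (s * (Real.exp (l * t) * (l * 1))) t :=
    (((hasDerivAt_id t).const_mul l).exp).const_mul s
  have h3 : HasDerivAt (fun t : ℝ => ((s * Real.exp (l * t) : ℝ) : ℂ)) ((s * (Real.exp (l * t) * (l * 1)) : ℝ) : ℂ) t :=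
    h2.ofReal_comp
  have h4 := h1.mul ((h3.mul_const g).const_add A)
  refine h4.congr_deriv ?_
  rw [ap]
  push_cast
  ring

theorem norm_expI (t : ℝ) : ‖cexp (I * t)‖ = 1 := by
  rw [mul_comm, Complex.norm_exp_ofReal_mul_I]

/-- norm bounds on the approximate solution -/
theorem ap_bounds (h : NP ε kap m12 m3 a z l c w β) {s t : ℝ} (s0 : 0 ≤ s * Real.exp (l * t))
    (s1 : s * Real.exp (l * t) ≤ 1 / 10 ^ 9) :
    995 / 1000 ≤ ‖ap s l 1 ((w : ℂ) * gg c) t‖ ∧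
    1495 / 1000 ≤ ‖ap s l ((1 + z - a : ℝ) : ℂ) (gg c) t + (a : ℂ) * ap s l 1 ((w : ℂ) * gg c) t‖ ∧
    4995 / 10000 ≤ ‖ap s l ((1 + z - a : ℝ) : ℂ) (gg c) t - (1 - (a : ℂ)) * ap s l 1 ((w : ℂ) * gg c) t‖ := by
  set σ := s * Real.exp (l * t) with hσ
  have bz := h.bz; have ba := h.ba; have b1 := h.b1; have b2 := h.b2; have bg := h.bg; have bw := h.bw
  have s1' : σ ≤ 1 / 10000 := by norm_num at s1; linarith
  refine ⟨?_, ?_, ?_⟩
  · rw [ap, norm_mul, norm_expI, one_mul, ← hσ]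
    have e : ‖(σ : ℂ) * ((w : ℂ) * gg c)‖ ≤ 1 / 10000 * (1 / 10000 * (134 / 100)) := by
      rw [norm_mul, norm_mul, Complex.norm_real, Complex.norm_real, Real.norm_eq_abs, Real.norm_eq_abs,
        abs_of_nonneg s0]
      gcongr
    have e2 := norm_sub_norm_le (1 : ℂ) (-((σ : ℂ) * ((w : ℂ) * gg c)))
    rw [norm_neg, sub_neg_eq_add, norm_one] at e2
    linarith
  · rw [show ap s l ((1 + z - a : ℝ) : ℂ) (gg c) t + (a : ℂ) * ap s l 1 ((w : ℂ) * gg c) t =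
      cexp (I * t) * (((1 + z : ℝ) : ℂ) + ((σ * (1 + a * w) : ℝ) : ℂ) * gg c) by
        rw [ap, ap, ← hσ]; push_cast; ring, norm_mul, norm_expI, one_mul]
    have e : ‖((σ * (1 + a * w) : ℝ) : ℂ) * gg c‖ ≤ 1 / 10000 * (1001 / 1000) * (134 / 100) := by
      rw [norm_mul, Complex.norm_real, Real.norm_eq_abs, abs_mul, abs_of_nonneg s0]
      gcongr
    have e2 := norm_sub_norm_le (((1 + z : ℝ) : ℂ)) (-(((σ * (1 + a * w) : ℝ) : ℂ) * gg c))
    rw [norm_neg, sub_neg_eq_add, Complex.norm_real, Real.norm_eq_abs, abs_of_nonneg (by linarith)] at e2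
    linarith
  · rw [show ap s l ((1 + z - a : ℝ) : ℂ) (gg c) t - (1 - (a : ℂ)) * ap s l 1 ((w : ℂ) * gg c) t =
      cexp (I * t) * ((z : ℂ) + ((σ * (1 - (1 - a) * w) : ℝ) : ℂ) * gg c) by
        rw [ap, ap, ← hσ]; push_cast; ring, norm_mul, norm_expI, one_mul]
    have e : ‖((σ * (1 - (1 - a) * w) : ℝ) : ℂ) * gg c‖ ≤ 1 / 10000 * (1001 / 1000) * (134 / 100) := by
      rw [norm_mul, Complex.norm_real, Real.norm_eq_abs, abs_mul, abs_of_nonneg s0]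
      gcongr
    have e2 := norm_sub_norm_le ((z : ℂ)) (-(((σ * (1 - (1 - a) * w) : ℝ) : ℂ) * gg c))
    rw [norm_neg, sub_neg_eq_add, Complex.norm_real, Real.norm_eq_abs, abs_of_nonneg (by linarith)] at e2
    linarith

/-- distances of the true solution -/
theorem dist_bounds (h : NP ε kap m12 m3 a z l c w β) {s t : ℝ} (s0 : 0 ≤ s * Real.exp (l * t))
    (s1 : s * Real.exp (l * t) ≤ 1 / 10 ^ 9) {u x : ℂ}
    (hx : ‖x - ap s l ((1 + z - a : ℝ) : ℂ) (gg c) t‖ ≤ 1 / 10 ^ 4)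
    (hu : ‖u - ap s l 1 ((w : ℂ) * gg c) t‖ ≤ 1 / 10 ^ 4) :
    99 / 100 ≤ ‖u‖ ∧ 149 / 100 ≤ ‖x + (a : ℂ) * u‖ ∧ 499 / 1000 ≤ ‖x - (1 - (a : ℂ)) * u‖ := by
  obtain ⟨h1, h2, h3⟩ := ap_bounds h s0 s1
  have ba := h.ba
  have na : ‖(a : ℂ)‖ ≤ 1 := by
    rw [Complex.norm_real, Real.norm_eq_abs, abs_of_nonneg (by linarith)]
    linarith
  have nb : ‖1 - (a : ℂ)‖ ≤ 1 := by
    rw [← Complex.ofReal_one, ← Complex.ofReal_sub, Complex.norm_real, Real.norm_eq_abs, abs_of_nonneg (by linarith)]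
    linarith
  set ua := ap s l 1 ((w : ℂ) * gg c) t
  set xa := ap s l ((1 + z - a : ℝ) : ℂ) (gg c) t
  refine ⟨?_, ?_, ?_⟩
  · have := norm_sub_norm_le ua (ua - u)
    rw [sub_sub_cancel, norm_sub_rev] at this
    norm_num at hu
    linarith
  · have e1 : ‖(xa + (a : ℂ) * ua) - (x + (a : ℂ) * u)‖ ≤ 2 / 10 ^ 4 := by
      rw [show (xa + (a : ℂ) * ua) - (x + (a : ℂ) * u) = -((x - xa) + (a : ℂ) * (u - ua)) by ring, norm_neg]
      refine (norm_add_le _ _).trans ?_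
      rw [norm_mul]
      calc _ ≤ 1 / 10 ^ 4 + 1 * (1 / 10 ^ 4 : ℝ) := by gcongr
        _ = _ := by norm_num
    have := norm_sub_norm_le (xa + (a : ℂ) * ua) ((xa + (a : ℂ) * ua) - (x + (a : ℂ) * u))
    rw [sub_sub_cancel] at this
    norm_num at e1
    linarith
  · have e1 : ‖(xa - (1 - (a : ℂ)) * ua) - (x - (1 - (a : ℂ)) * u)‖ ≤ 2 / 10 ^ 4 := by
      rw [show (xa - (1 - (a : ℂ)) * ua) - (x - (1 - (a : ℂ)) * u) = -((x - xa) - (1 - (a : ℂ)) * (u - ua)) by ring,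
        norm_neg]
      refine (norm_sub_le _ _).trans ?_
      rw [norm_mul]
      calc _ ≤ 1 / 10 ^ 4 + 1 * (1 / 10 ^ 4 : ℝ) := by gcongr
        _ = _ := by norm_num
    have := norm_sub_norm_le (xa - (1 - (a : ℂ)) * ua) ((xa - (1 - (a : ℂ)) * ua) - (x - (1 - (a : ℂ)) * u))
    rw [sub_sub_cancel] at this
    norm_num at e1
    linarith

/-- the barrier argument -/
theorem barrier (h : NP ε kap m12 m3 a z l c w β) {s : ℝ} (hs : 0 < s) {T : ℝ}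
    (hT : ∀ t ∈ Set.Icc 0 T, s * Real.exp (l * t) ≤ 1 / 10 ^ 9)
    {u v x y : ℝ → ℂ} (hj : JSol m12 m3 a u v x y)
    (u0 : u 0 = ap s l 1 ((w : ℂ) * gg c) 0) (v0 : v 0 = ap s l (I * 1) ((I + l) * ((w : ℂ) * gg c)) 0)
    (x0 : x 0 = ap s l ((1 + z - a : ℝ) : ℂ) (gg c) 0)
    (y0 : y 0 = ap s l (I * ((1 + z - a : ℝ) : ℂ)) ((I + l) * gg c) 0) :
    ∀ t ∈ Set.Icc 0 T, ‖x t - ap s l ((1 + z - a : ℝ) : ℂ) (gg c) t‖ ≤ 150 / (205 / 100) * (s * Real.exp (l * t)) ^ 2 ∧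
      ‖y t - ap s l (I * ((1 + z - a : ℝ) : ℂ)) ((I + l) * gg c) t‖ ≤ 150 * (s * Real.exp (l * t)) ^ 2 ∧
      kap * ‖u t - ap s l 1 ((w : ℂ) * gg c) t‖ ≤ 100 * (s * Real.exp (l * t)) ^ 2 ∧
      kap * ‖v t - ap s l (I * 1) ((I + l) * ((w : ℂ) * gg c)) t‖ ≤ 150 * (s * Real.exp (l * t)) ^ 2 := by
  have hk0 := h.k0; have hke := h.ke; have he0 := h.e0; have he1 := h.e1; have bl := h.bl
  set ua := ap s l 1 ((w : ℂ) * gg c) with hua
  set va := ap s l (I * 1) ((I + l) * ((w : ℂ) * gg c)) with hva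
  set wa := ap s l (I * (I * 1)) ((I + l) * ((I + l) * ((w : ℂ) * gg c))) with hwa
  set xa := ap s l ((1 + z - a : ℝ) : ℂ) (gg c) with hxa
  set ya := ap s l (I * ((1 + z - a : ℝ) : ℂ)) ((I + l) * gg c) with hya
  set za := ap s l (I * (I * ((1 + z - a : ℝ) : ℂ))) ((I + l) * ((I + l) * gg c)) with hza
  set F : ℝ → ℂ × ℂ × ℂ × ℂ := fun t => ((205 / 100 : ℂ) * (x t - xa t), y t - ya t,
    ((3 / 2 * kap : ℝ) : ℂ) * (u t - ua t), (kap : ℂ) * (v t - va t)) with hF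
  set F' : ℝ → ℂ × ℂ × ℂ × ℂ := fun t => ((205 / 100 : ℂ) * (y t - ya t), fx m12 m3 a (u t) (x t) - za t,
    ((3 / 2 * kap : ℝ) : ℂ) * (v t - va t), (kap : ℂ) * (fu m12 m3 a (u t) (x t) - wa t)) with hF'
  have hd : ∀ t, HasDerivAt F (F' t) t := by
    intro t
    refine HasDerivAt.prodMk ?_ (HasDerivAt.prodMk ?_ (HasDerivAt.prodMk ?_ ?_))
    · exact ((hj.dx t).sub (ap_deriv s l _ _ t)).const_mul _
    · exact (hj.dy t).sub (ap_deriv s l _ _ t)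
    · exact ((hj.du t).sub (ap_deriv s l _ _ t)).const_mul _
    · exact ((hj.dv t).sub (ap_deriv s l _ _ t)).const_mul _
  have hB : ∀ t, HasDerivAt (fun t => 150 * (s * Real.exp (l * t)) ^ 2) (300 * l * (s * Real.exp (l * t)) ^ 2) t := by
    intro t
    have h2 : HasDerivAt (fun t : ℝ => s * Real.exp (l * t)) (s * (Real.exp (l * t) * (l * 1))) t :=
      (((hasDerivAt_id t).const_mul l).exp).const_mul s
    refine ((h2.pow 2).const_mul 150).congr_deriv ?_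
    push_cast
    ring
  have hF0 : F 0 = 0 := by
    rw [hF]
    simp only [u0, v0, x0, y0, sub_self, mul_zero]
    rfl
  have n1 : ∀ X : ℂ, ‖(205 / 100 : ℂ) * X‖ = 205 / 100 * ‖X‖ := by
    intro X
    rw [norm_mul]
    congr 1
    norm_num
  have n3 : ∀ X : ℂ, ‖((3 / 2 * kap : ℝ) : ℂ) * X‖ = 3 / 2 * kap * ‖X‖ := by
    intro X
    rw [norm_mul, Complex.norm_real, Real.norm_eq_abs, abs_of_nonneg (by linarith)]
  have n4 : ∀ X : ℂ, ‖(kap : ℂ) * X‖ = kap * ‖X‖ := by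
    intro X
    rw [norm_mul, Complex.norm_real, Real.norm_eq_abs, abs_of_nonneg (by linarith)]
  have comp : ∀ t B, ‖F t‖ ≤ B → (205 / 100) * ‖x t - xa t‖ ≤ B ∧ ‖y t - ya t‖ ≤ B ∧
      3 / 2 * kap * ‖u t - ua t‖ ≤ B ∧ kap * ‖v t - va t‖ ≤ B := by
    intro t B hb
    rw [hF] at hb
    simp only [Prod.norm_mk, max_le_iff, n1, n3, n4] at hb
    exact hb
  have main := image_norm_le_of_norm_deriv_right_lt_deriv_boundary' (f := F) (f' := F') (a := 0) (b := T)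
    (fun t _ => (hd t).continuousAt.continuousWithinAt) (fun t _ => (hd t).hasDerivWithinAt)
    (B := fun t => 150 * (s * Real.exp (l * t)) ^ 2) (B' := fun t => 300 * l * (s * Real.exp (l * t)) ^ 2)
    (by rw [hF0, norm_zero]; positivity)
    (fun t _ => (hB t).continuousAt.continuousWithinAt) (fun t _ => (hB t).hasDerivWithinAt)
    (by
      intro t ht hFt
      have hσ0 : 0 < s * Real.exp (l * t) := by positivity
      have hσ1 := hT t ⟨ht.1, ht.2.le⟩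
      obtain ⟨p1, p2, p3, p4⟩ := comp t _ hFt.le
      have hwa' : ‖wa t - fu m12 m3 a (ua t) (xa t)‖ ≤ 400 * ε * (s * Real.exp (l * t)) ^ 2 := by
        have r := res_u h hσ0.le hσ1
        rw [norm_sub_rev]
        have e1 : ua t = cexp (I * t) * (1 + ((s * Real.exp (l * t) : ℝ) : ℂ) * ((w : ℂ) * gg c)) := rfl
        have e2 : xa t = cexp (I * t) * (((1 + z - a : ℝ) : ℂ) + ((s * Real.exp (l * t) : ℝ) : ℂ) * gg c) := rfl
        rw [e1, e2, fu_rot (norm_expI t)]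
        have e3 : wa t = cexp (I * t) * (-(1 + ((s * Real.exp (l * t) : ℝ) : ℂ) * ((w : ℂ) * gg c)) +
            2 * I * l * ((s * Real.exp (l * t) : ℝ) : ℂ) * ((w : ℂ) * gg c) +
            (l : ℂ) ^ 2 * ((s * Real.exp (l * t) : ℝ) : ℂ) * ((w : ℂ) * gg c)) := by
          rw [hwa, ap]
          linear_combination (cexp (I * t) * (1 + ((s * Real.exp (l * t) : ℝ) : ℂ) * ((w : ℂ) * gg c))) * I_mul_I
        rw [e3, ← mul_sub, norm_mul, norm_expI, one_mul]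
        exact r
      have hza' : ‖za t - fx m12 m3 a (ua t) (xa t)‖ ≤ 91 * (s * Real.exp (l * t)) ^ 2 := by
        have r := res_x h hσ0.le hσ1
        rw [norm_sub_rev]
        have e1 : ua t = cexp (I * t) * (1 + ((s * Real.exp (l * t) : ℝ) : ℂ) * ((w : ℂ) * gg c)) := rfl
        have e2 : xa t = cexp (I * t) * (((1 + z - a : ℝ) : ℂ) + ((s * Real.exp (l * t) : ℝ) : ℂ) * gg c) := rfl
        rw [e1, e2, fx_rot (norm_expI t)]
        have e3 : za t = cexp (I * t) * (-(((1 + z - a : ℝ) : ℂ) + ((s * Real.exp (l * t) : ℝ) : ℂ) * gg c) +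
            2 * I * l * ((s * Real.exp (l * t) : ℝ) : ℂ) * gg c +
            (l : ℂ) ^ 2 * ((s * Real.exp (l * t) : ℝ) : ℂ) * gg c) := by
          rw [hza, ap]
          linear_combination (cexp (I * t) * (((1 + z - a : ℝ) : ℂ) + ((s * Real.exp (l * t) : ℝ) : ℂ) * gg c)) * I_mul_I
        rw [e3, ← mul_sub, norm_mul, norm_expI, one_mul]
        exact r
      set σ := s * Real.exp (l * t) with hσ
      have hs2 : σ ^ 2 ≤ 1 / 10 ^ 18 := by
        calc σ ^ 2 ≤ (1 / 10 ^ 9 : ℝ) ^ 2 := by gcongr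
          _ = _ := by norm_num
      have hs2' : 0 < σ ^ 2 := by positivity
      have q1 : ‖x t - xa t‖ ≤ 732 / 10 * σ ^ 2 := by
        linarith
      have q3 : kap * ‖u t - ua t‖ ≤ 100 * σ ^ 2 := by linarith
      have q3' : ‖u t - ua t‖ ≤ 10 * σ ^ 2 := by
        have := norm_nonneg (u t - ua t)
        nlinarith
      have d1 := dist_bounds h hσ0.le hσ1 (u := u t) (x := x t) (by
        refine q1.trans ?_
        norm_num at hs2 ⊢
        linarith) (by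
        refine q3'.trans ?_
        norm_num at hs2 ⊢
        linarith)
      have d2 := dist_bounds h hσ0.le hσ1 (u := ua t) (x := xa t) (by
        rw [hxa, sub_self, norm_zero]; norm_num) (by rw [hua, sub_self, norm_zero]; norm_num)
      have L1 := lip_x h d1.2.1 d2.2.1 d1.2.2 d2.2.2
      have L2 := lip_u h d1.1 d2.1 d1.2.1 d2.2.1 d1.2.2 d2.2.2
      have c2 : ‖fx m12 m3 a (u t) (x t) - za t‖ ≤ 430 * σ ^ 2 := by
        calc ‖fx m12 m3 a (u t) (x t) - za t‖ = ‖(fx m12 m3 a (u t) (x t) - fx m12 m3 a (ua t) (xa t)) -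
              (za t - fx m12 m3 a (ua t) (xa t))‖ := by congr 1; ring
          _ ≤ _ := norm_sub_le _ _
          _ ≤ _ := by linarith
      have c4 : kap * ‖fu m12 m3 a (u t) (x t) - wa t‖ ≤ 220 * σ ^ 2 := by
        have e1 : ‖fu m12 m3 a (u t) (x t) - wa t‖ ≤ (21 / 10 * ‖u t - ua t‖ + ε * (17 * ‖x t - xa t‖ +
            17 * ‖u t - ua t‖)) + 400 * ε * σ ^ 2 := by
          calc ‖fu m12 m3 a (u t) (x t) - wa t‖ = ‖(fu m12 m3 a (u t) (x t) - fu m12 m3 a (ua t) (xa t)) -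
                (wa t - fu m12 m3 a (ua t) (xa t))‖ := by congr 1; ring
            _ ≤ _ := norm_sub_le _ _
            _ ≤ _ := by gcongr
        have e2 : 17 * ‖x t - xa t‖ + 17 * ‖u t - ua t‖ ≤ 1600 * σ ^ 2 := by linarith
        calc kap * ‖fu m12 m3 a (u t) (x t) - wa t‖ ≤ kap * ((21 / 10 * ‖u t - ua t‖ + ε * (1600 * σ ^ 2)) +
              400 * ε * σ ^ 2) := by
                refine mul_le_mul_of_nonneg_left (e1.trans ?_) (by linarith)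
                gcongr
          _ = 21 / 10 * (kap * ‖u t - ua t‖) + (kap * ε) * (2000 * σ ^ 2) := by ring
          _ ≤ 21 / 10 * (100 * σ ^ 2) + 1 / 10 ^ 6 * (2000 * σ ^ 2) := by gcongr
          _ ≤ _ := by
            norm_num
            linarith
      have hl2 : 465 * σ ^ 2 ≤ 300 * l * σ ^ 2 := by
        have : 465 ≤ 300 * l := by linarith
        exact mul_le_mul_of_nonneg_right this hs2'.le
      show ‖F' t‖ < 300 * l * σ ^ 2
      refine lt_of_lt_of_le ?_ hl2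
      rw [hF']
      simp only [Prod.norm_mk, max_lt_iff, n1, n3, n4]
      refine ⟨?_, ?_, ?_, ?_⟩
      · linarith
      · linarith
      · linarith
      · linarith)
  intro t ht
  obtain ⟨p1, p2, p3, p4⟩ := comp t _ (main ht)
  refine ⟨?_, p2, by linarith, p4⟩
  rw [div_mul_eq_mul_div, le_div_iff₀ (by norm_num)]
  linarith

theorem end_x (h : NP ε kap m12 m3 a z l c w β) {s T : ℝ} (hT : s * Real.exp (l * T) = 1 / 10 ^ 9) :
    ‖ap s l ((1 + z - a : ℝ) : ℂ) (gg c) T - cexp (I * T) * Z0‖ ≤ 12 / 10 ^ 19 := by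
  have e : ap s l ((1 + z - a : ℝ) : ℂ) (gg c) T - cexp (I * T) * Z0 =
      cexp (I * T) * (((1 + z - a - 52 / 41 : ℝ) : ℂ) + ((1 / 10 ^ 9 * (c - cc) : ℝ) : ℂ) * I) := by
    rw [ap, hT, Z0, gg]
    push_cast
    ring
  rw [e, norm_mul, norm_expI, one_mul]
  refine (norm_add_le _ _).trans ?_
  rw [norm_mul, norm_I, mul_one, Complex.norm_real, Complex.norm_real, Real.norm_eq_abs, Real.norm_eq_abs]
  have h1 : |1 + z - a - 52 / 41| ≤ 2 / 10 ^ 20 := by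
    have := abs_le.1 h.hz; have := abs_le.1 h.ha; have := h.e1
    rw [abs_le]
    constructor <;> norm_num at * <;> linarith
  have h2 : |1 / 10 ^ 9 * (c - cc)| ≤ 1 / 10 ^ 18 := by
    rw [abs_mul, abs_of_nonneg (by norm_num : (0 : ℝ) ≤ 1 / 10 ^ 9)]
    calc 1 / 10 ^ 9 * |c - cc| ≤ 1 / 10 ^ 9 * (1 / 10 ^ 9) := by
          gcongr
          exact h.hc
      _ = _ := by norm_num
  norm_num at h1 h2 ⊢
  linarith

theorem end_y (h : NP ε kap m12 m3 a z l c w β) {s T : ℝ} (hT : s * Real.exp (l * T) = 1 / 10 ^ 9) :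
    ‖ap s l (I * ((1 + z - a : ℝ) : ℂ)) ((I + l) * gg c) T - cexp (I * T) * Z1‖ ≤ 5 / 10 ^ 18 := by
  have e : ap s l (I * ((1 + z - a : ℝ) : ℂ)) ((I + l) * gg c) T - cexp (I * T) * Z1 =
      cexp (I * T) * (((1 + z - a - 52 / 41 : ℝ) : ℂ) * I + ((1 / 10 ^ 9 : ℝ) : ℂ) *
        (((c - cc : ℝ) : ℂ) * ((I + l) * I) + ((l - ll : ℝ) : ℂ) * gg cc)) := by
    rw [ap, hT, Z1, Z0, gg, gg]
    push_cast
    ring
  rw [e, norm_mul, norm_expI, one_mul]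
  have bl := h.bl
  have hcc : ‖gg cc‖ ≤ 134 / 100 := by
    have h1 := gg_normSq cc
    have h2 : cc ^ 2 ≤ 795 / 1000 := by
      unfold cc; norm_num
    by_contra hh
    push Not at hh
    nlinarith
  have hIl : ‖(I + l) * I‖ ≤ 26 / 10 := by
    rw [norm_mul, norm_I, mul_one]
    refine (norm_add_le _ _).trans ?_
    rw [norm_I, Complex.norm_real, Real.norm_eq_abs, abs_of_nonneg (by linarith)]
    linarith
  have h1 : |1 + z - a - 52 / 41| ≤ 2 / 10 ^ 20 := by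
    have := abs_le.1 h.hz; have := abs_le.1 h.ha; have := h.e1
    rw [abs_le]
    constructor <;> norm_num at * <;> linarith
  calc ‖((1 + z - a - 52 / 41 : ℝ) : ℂ) * I + ((1 / 10 ^ 9 : ℝ) : ℂ) *
        (((c - cc : ℝ) : ℂ) * ((I + l) * I) + ((l - ll : ℝ) : ℂ) * gg cc)‖
      ≤ |1 + z - a - 52 / 41| + 1 / 10 ^ 9 * (|c - cc| * ‖(I + l) * I‖ + |l - ll| * ‖gg cc‖) := by
        refine (norm_add_le _ _).trans ?_
        rw [norm_mul, norm_I, mul_one, Complex.norm_real, Real.norm_eq_abs, norm_mul, Complex.norm_real,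
          Real.norm_eq_abs, abs_of_nonneg (by norm_num : (0 : ℝ) ≤ 1 / 10 ^ 9)]
        gcongr
        refine (norm_add_le _ _).trans ?_
        rw [norm_mul, norm_mul _ (gg cc), Complex.norm_real, Real.norm_eq_abs, Complex.norm_real, Real.norm_eq_abs]
    _ ≤ 2 / 10 ^ 20 + 1 / 10 ^ 9 * (1 / 10 ^ 9 * (26 / 10) + 1 / 10 ^ 9 * (134 / 100)) := by
        gcongr
        · exact h.hc
        · exact h.hl
    _ ≤ _ := by norm_num

end NearAux

open NearAux in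
theorem near (δ : ℝ) (hδ : 0 < δ) : ∃ η : ℝ, 0 < η ∧ ∀ m12 m3 a z : ℝ, IsRE m12 m3 a z → 0 < m3 → m3 < η →
    |z - 1 / 2| < η → |m12 - 1| ≤ δ ∧ |a - 19 / 82| ≤ δ ∧ ∃ (l : ℝ) (gu gx : ℂ), ∀ s : ℝ, 0 < s →
      s ≤ 1 / 10 ^ 9 → ∀ u v x y : ℝ → ℂ, JSol m12 m3 a u v x y →
      u 0 = 1 + (s : ℂ) * gu → v 0 = I * (1 + (s : ℂ) * gu) + (l : ℂ) * (s : ℂ) * gu →
      x 0 = (1 + z - a : ℝ) + (s : ℂ) * gx → y 0 = I * ((1 + z - a : ℝ) + (s : ℂ) * gx) + (l : ℂ) * (s : ℂ) * gx →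
      ∃ T : ℝ, 0 ≤ T ∧
        (∀ t ∈ Set.Icc 0 T, 2 / 5 ≤ ‖u t‖ ∧ 2 / 5 ≤ ‖x t + (a : ℂ) * u t‖ ∧
          2 / 5 ≤ ‖x t - (1 - (a : ℂ)) * u t‖) ∧
        ‖u T - cexp (I * T)‖ ≤ δ ∧ ‖v T - I * cexp (I * T)‖ ≤ δ ∧
        ‖x T - cexp (I * T) * Z0‖ ≤ 8 / 10 ^ 17 ∧ ‖y T - cexp (I * T) * Z1‖ ≤ 16 / 10 ^ 17 := by
  set kap : ℝ := 10 + 1 / δ with hkap
  have hk : 10 ≤ kap := by
    have : 0 < 1 / δ := by positivity
    linarith
  have hkδ : 1 ≤ kap * δ := by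
    rw [hkap, add_mul, one_div, inv_mul_cancel₀ hδ.ne']
    nlinarith
  set ε : ℝ := min (min δ (1 / 10 ^ 20)) (1 / (10 ^ 6 * kap)) with hε
  have hεδ : ε ≤ δ := (min_le_left _ _).trans (min_le_left _ _)
  have hε1 : ε ≤ 1 / 10 ^ 20 := (min_le_left _ _).trans (min_le_right _ _)
  have hε2 : ε ≤ 1 / (10 ^ 6 * kap) := min_le_right _ _
  have hε0 : 0 < ε := by
    rw [hε]
    refine lt_min (lt_min hδ (by norm_num)) (by positivity)
  have hke : kap * ε ≤ 1 / 10 ^ 6 := by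
    calc kap * ε ≤ kap * (1 / (10 ^ 6 * kap)) := by gcongr
      _ = _ := by field_simp
  obtain ⟨η, hη, hmode⟩ := mode ε hε0
  refine ⟨min η ε, lt_min hη hε0, ?_⟩
  intro m12 m3 a z hre h3 h3' hz
  obtain ⟨g1, g2, l, c, w, β, g3, g4, g5, g6, g7, g8, g9⟩ := hmode m12 m3 a z hre h3
    (lt_of_lt_of_le h3' (min_le_left _ _)) (lt_of_lt_of_le hz (min_le_left _ _))
  have h : NP ε kap m12 m3 a z l c w β := {
    e0 := hε0.le
    e1 := hε1
    k0 := hk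
    ke := hke
    h12 := g1
    h3 := h3
    h3' := h3'.le.trans (min_le_right _ _)
    hz := hz.le.trans (min_le_right _ _)
    ha := g2
    hl := g3
    hc := g4
    hw := g5
    re := hre
    q1 := g6
    q2 := g7
    q3 := g8
    q4 := g9 }
  refine ⟨g1.trans hεδ, g2.trans hεδ, l, (w : ℂ) * gg c, gg c, ?_⟩
  intro s hs hs1 u v x y hj u0 v0 x0 y0
  have bl := h.bl
  have hl0 : 0 < l := by linarith
  set T : ℝ := Real.log (1 / 10 ^ 9 / s) / l with hT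
  have hT0 : 0 ≤ T := by
    rw [hT]
    refine div_nonneg (Real.log_nonneg ?_) hl0.le
    rw [le_div_iff₀ hs, one_mul]
    exact hs1
  have hTe : s * Real.exp (l * T) = 1 / 10 ^ 9 := by
    rw [hT, mul_div_cancel₀ _ hl0.ne', Real.exp_log (by positivity)]
    field_simp
  have hTt : ∀ t ∈ Set.Icc 0 T, s * Real.exp (l * t) ≤ 1 / 10 ^ 9 := by
    intro t ht
    rw [← hTe]
    have := ht.2
    gcongr
  have bar := barrier h hs hTt hj (by rw [u0, ap]; simp) (by rw [v0, ap]; simp; ring) (by rw [x0, ap]; simp)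
    (by rw [y0, ap]; simp; ring)
  refine ⟨T, hT0, ?_, ?_⟩
  · intro t ht
    obtain ⟨p1, -, p3, -⟩ := bar t ht
    have hσ0 : 0 < s * Real.exp (l * t) := by positivity
    have hσ1 := hTt t ht
    set σ := s * Real.exp (l * t) with hσ
    have hs2 : σ ^ 2 ≤ 1 / 10 ^ 18 := by
      calc σ ^ 2 ≤ (1 / 10 ^ 9 : ℝ) ^ 2 := by gcongr
        _ = _ := by norm_num
    have p3' : 10 * ‖u t - ap s l 1 ((w : ℂ) * gg c) t‖ ≤ 100 * σ ^ 2 := by
      refine le_trans ?_ p3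
      gcongr
    obtain ⟨d0, d1, d2⟩ := dist_bounds h hσ0.le hσ1 (u := u t) (x := x t) (by
        refine p1.trans ?_
        norm_num at hs2 ⊢
        linarith) (by
        norm_num at hs2 ⊢
        linarith)
    exact ⟨by linarith, by linarith, by linarith⟩
  · obtain ⟨p1, p2, p3, p4⟩ := bar T ⟨hT0, le_rfl⟩
    rw [hTe] at p1 p2 p3 p4
    have ex := end_x h hTe
    have ey := end_y h hTe
    have bg := h.bg
    have q3 : ‖u T - ap s l 1 ((w : ℂ) * gg c) T‖ ≤ δ / 10 ^ 3 := by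
      have : 0 < kap := by linarith
      have h1 : kap * ‖u T - ap s l 1 ((w : ℂ) * gg c) T‖ ≤ kap * (δ / 10 ^ 3) := by
        refine p3.trans ?_
        norm_num
        linarith
      exact le_of_mul_le_mul_left h1 this
    have q4 : ‖v T - ap s l (I * 1) ((I + l) * ((w : ℂ) * gg c)) T‖ ≤ δ / 10 ^ 3 := by
      have : 0 < kap := by linarith
      have h1 : kap * ‖v T - ap s l (I * 1) ((I + l) * ((w : ℂ) * gg c)) T‖ ≤ kap * (δ / 10 ^ 3) := by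
        refine p4.trans ?_
        norm_num
        linarith
      exact le_of_mul_le_mul_left h1 this
    have nw : ‖(w : ℂ) * gg c‖ ≤ δ * (134 / 100) := by
      rw [norm_mul, Complex.norm_real, Real.norm_eq_abs]
      have := h.hw.trans hεδ
      gcongr
    have n1 : ‖ap s l 1 ((w : ℂ) * gg c) T - cexp (I * T)‖ ≤ δ / 10 ^ 3 := by
      have e : ap s l 1 ((w : ℂ) * gg c) T - cexp (I * T) = cexp (I * T) * (((1 / 10 ^ 9 : ℝ) : ℂ) *
          ((w : ℂ) * gg c)) := by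
        rw [ap, hTe]; ring
      rw [e, norm_mul, norm_expI, one_mul, norm_mul, Complex.norm_real, Real.norm_eq_abs,
        abs_of_nonneg (by norm_num : (0 : ℝ) ≤ 1 / 10 ^ 9)]
      calc 1 / 10 ^ 9 * ‖(w : ℂ) * gg c‖ ≤ 1 / 10 ^ 9 * (δ * (134 / 100)) := by gcongr
        _ ≤ _ := by norm_num; linarith
    have n2 : ‖ap s l (I * 1) ((I + l) * ((w : ℂ) * gg c)) T - I * cexp (I * T)‖ ≤ δ / 10 ^ 3 := by
      have e : ap s l (I * 1) ((I + l) * ((w : ℂ) * gg c)) T - I * cexp (I * T) =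
          cexp (I * T) * (((1 / 10 ^ 9 : ℝ) : ℂ) * ((I + l) * ((w : ℂ) * gg c))) := by
        rw [ap, hTe]; ring
      have hIl : ‖(I + l : ℂ)‖ ≤ 26 / 10 := by
        refine (norm_add_le _ _).trans ?_
        rw [norm_I, Complex.norm_real, Real.norm_eq_abs, abs_of_nonneg (by linarith)]
        linarith
      rw [e, norm_mul, norm_expI, one_mul, norm_mul, Complex.norm_real, Real.norm_eq_abs,
        abs_of_nonneg (by norm_num : (0 : ℝ) ≤ 1 / 10 ^ 9), norm_mul]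
      calc 1 / 10 ^ 9 * (‖(I + l : ℂ)‖ * ‖(w : ℂ) * gg c‖) ≤ 1 / 10 ^ 9 * (26 / 10 * (δ * (134 / 100))) := by gcongr
        _ ≤ _ := by norm_num; linarith
    refine ⟨?_, ?_, ?_, ?_⟩
    · calc ‖u T - cexp (I * T)‖ ≤ ‖u T - ap s l 1 ((w : ℂ) * gg c) T‖ +
            ‖ap s l 1 ((w : ℂ) * gg c) T - cexp (I * T)‖ := norm_sub_le_norm_sub_add_norm_sub _ _ _
        _ ≤ _ := by norm_num at q3 n1 ⊢; linarith
    · calc ‖v T - I * cexp (I * T)‖ ≤ ‖v T - ap s l (I * 1) ((I + l) * ((w : ℂ) * gg c)) T‖ +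
            ‖ap s l (I * 1) ((I + l) * ((w : ℂ) * gg c)) T - I * cexp (I * T)‖ :=
            norm_sub_le_norm_sub_add_norm_sub _ _ _
        _ ≤ _ := by norm_num at q4 n2 ⊢; linarith
    · calc ‖x T - cexp (I * T) * Z0‖ ≤ ‖x T - ap s l ((1 + z - a : ℝ) : ℂ) (gg c) T‖ +
            ‖ap s l ((1 + z - a : ℝ) : ℂ) (gg c) T - cexp (I * T) * Z0‖ :=
            norm_sub_le_norm_sub_add_norm_sub _ _ _
        _ ≤ _ := by norm_num at p1 ex ⊢; linarith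
    · calc ‖y T - cexp (I * T) * Z1‖ ≤ ‖y T - ap s l (I * ((1 + z - a : ℝ) : ℂ)) ((I + l) * gg c) T‖ +
            ‖ap s l (I * ((1 + z - a : ℝ) : ℂ)) ((I + l) * gg c) T - cexp (I * T) * Z1‖ :=
            norm_sub_le_norm_sub_add_norm_sub _ _ _
        _ ≤ _ := by norm_num at p2 ey ⊢; linarith

end Pool.Agent.H3.TB
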