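import Pool.Agent.H3.TB.Ker

/-! Project 3B: global solutions (stubs 3B-ODE). -/

set_option autoImplicit false

open Complex Set Filter Topology

namespace Pool.Agent.H3.TB

/-- radial cut off -/
noncomputable def rcut {E : Type} [NormedAddCommGroup E] [NormedSpace ℝ E] (B : ℝ) (x : E) : E :=
  (B / max B ‖x‖) • x

theorem rcut_norm {E : Type} [NormedAddCommGroup E] [NormedSpace ℝ E] {B : ℝ} (hB : 0 < B) (x : E) :
    ‖rcut B x‖ ≤ B := by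
  have h1 : B ≤ max B ‖x‖ := le_max_left _ _
  have h2 : ‖x‖ ≤ max B ‖x‖ := le_max_right _ _
  set g := max B ‖x‖ with hg
  have hg0 : 0 < g := hB.trans_le h1
  rw [rcut, ← hg, norm_smul, Real.norm_of_nonneg (by positivity)]
  calc B / g * ‖x‖ ≤ B / g * g := by gcongr
    _ = B := by field_simp

theorem rcut_norm_le {E : Type} [NormedAddCommGroup E] [NormedSpace ℝ E] {B : ℝ} (hB : 0 < B) (x : E) :
    ‖rcut B x‖ ≤ ‖x‖ := by
  have h1 : B ≤ max B ‖x‖ := le_max_left _ _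
  set g := max B ‖x‖ with hg
  have hg0 : 0 < g := hB.trans_le h1
  rw [rcut, ← hg, norm_smul, Real.norm_of_nonneg (by positivity)]
  exact mul_le_of_le_one_left (norm_nonneg _) ((div_le_one hg0).mpr h1)

theorem rcut_lip {E : Type} [NormedAddCommGroup E] [NormedSpace ℝ E] {B : ℝ} (hB : 0 < B) (x y : E) :
    ‖rcut B x - rcut B y‖ ≤ 2 * ‖x - y‖ := by
  have ha1 : B ≤ max B ‖x‖ := le_max_left _ _
  have hb1 : B ≤ max B ‖y‖ := le_max_left _ _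
  have hb2 : ‖y‖ ≤ max B ‖y‖ := le_max_right _ _
  have hab : |max B ‖x‖ - max B ‖y‖| ≤ ‖x - y‖ := by
    rw [max_comm B, max_comm B]
    exact (abs_max_sub_max_le_abs ‖x‖ ‖y‖ B).trans (abs_norm_sub_norm_le x y)
  set α := max B ‖x‖ with hα
  set β := max B ‖y‖ with hβ
  have hα0 : 0 < α := hB.trans_le ha1
  have hβ0 : 0 < β := hB.trans_le hb1
  have e1 : rcut B x - rcut B y = (B / α) • (x - y) + (B / α - B / β) • y := by
    rw [rcut, rcut, ← hα, ← hβ, smul_sub, sub_smul]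
    abel
  have e2 : |B / α - B / β| * β ≤ |α - β| := by
    have e3 : (B / α - B / β) * β = -(B / α) * (α - β) := by field_simp; ring
    have e4 : |B / α - B / β| * β = |(B / α - B / β) * β| := by rw [abs_mul, abs_of_pos hβ0]
    rw [e4, e3, abs_mul, abs_neg, abs_of_pos (by positivity : 0 < B / α)]
    exact mul_le_of_le_one_left (abs_nonneg _) ((div_le_one hα0).mpr ha1)
  rw [e1]
  refine (norm_add_le _ _).trans ?_
  rw [norm_smul, norm_smul, Real.norm_eq_abs, Real.norm_eq_abs, abs_of_pos (by positivity : 0 < B / α)]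
  have e8 : B / α * ‖x - y‖ ≤ ‖x - y‖ := mul_le_of_le_one_left (norm_nonneg _) ((div_le_one hα0).mpr ha1)
  have e9 : |B / α - B / β| * ‖y‖ ≤ ‖x - y‖ := by
    calc |B / α - B / β| * ‖y‖ ≤ |B / α - B / β| * β := by gcongr
      _ ≤ |α - β| := e2
      _ ≤ _ := hab
  linarith

theorem rcut_eq {E : Type} [NormedAddCommGroup E] [NormedSpace ℝ E] {B : ℝ} (hB : 0 < B) {x : E}
    (h : ‖x‖ ≤ B) : rcut B x = x := by
  rw [rcut, max_eq_left h, div_self hB.ne', one_smul]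

lemma ode_bdd_Ioo {E : Type} [NormedAddCommGroup E] [NormedSpace ℝ E] [CompleteSpace E]
    {X : E → E} {K M : NNReal} (hK : LipschitzWith K X) (hM : ∀ x, ‖X x‖ ≤ M) (x : E) (n : ℕ) :
    ∃ γ : ℝ → E, γ 0 = x ∧ ∀ t ∈ Ioo (-((n:ℝ) + 1)) ((n:ℝ) + 1), HasDerivAt γ (X (γ t)) t := by
  have h0 : (0:ℝ) ∈ Icc (-((n:ℝ) + 1)) ((n:ℝ) + 1) := ⟨by linarith [n.cast_nonneg (α := ℝ)],
    by positivity⟩
  have hpl : IsPicardLindelof (fun _ => X) (⟨0, h0⟩ : Icc (-((n:ℝ) + 1)) ((n:ℝ) + 1)) x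
      (M * (n + 1)) 0 M K := by
    refine IsPicardLindelof.of_time_independent (fun y _ => hM y) (hK.lipschitzOnWith) ?_
    simp
  obtain ⟨γ, h1, h2⟩ := hpl.exists_eq_forall_mem_Icc_hasDerivWithinAt₀
  exact ⟨γ, h1, fun t ht => (h2 t (Ioo_subset_Icc_self ht)).hasDerivAt (Icc_mem_nhds ht.1 ht.2)⟩

lemma ode_growth {E : Type} [NormedAddCommGroup E] [NormedSpace ℝ E] {γ γ' : ℝ → E} {K C N : ℝ} (hK : 0 ≤ K)
    (hC : 0 ≤ C) (h : ∀ t ∈ Ico (0:ℝ) N, HasDerivAt γ (γ' t) t) (hb : ∀ t ∈ Ico (0:ℝ) N, ‖γ' t‖ ≤ K * ‖γ t‖ + C) :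
    ∀ t ∈ Ico (0:ℝ) N, ‖γ t‖ ≤ gronwallBound ‖γ 0‖ K C N := by
  intro t ht
  have hcont : ContinuousOn γ (Icc 0 t) := fun s hs =>
    (h s ⟨hs.1, hs.2.trans_lt ht.2⟩).continuousAt.continuousWithinAt
  have h1 := norm_le_gronwallBound_of_norm_deriv_right_le (f := γ) (f' := γ') (δ := ‖γ 0‖) (K := K) (ε := C)
    (a := 0) (b := t) hcont (fun s hs => (h s ⟨hs.1, hs.2.trans ht.2⟩).hasDerivWithinAt) le_rfl
    (fun s hs => hb s ⟨hs.1, hs.2.trans ht.2⟩) t ⟨ht.1, le_rfl⟩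
  refine h1.trans ?_
  rw [sub_zero]
  exact gronwallBound_mono (norm_nonneg _) hC hK ht.2.le

lemma ode_lip_Ioo {E : Type} [NormedAddCommGroup E] [NormedSpace ℝ E] [CompleteSpace E]
    {X : E → E} {K : NNReal} (hK : LipschitzWith K X) (x : E) (n : ℕ) :
    ∃ γ : ℝ → E, γ 0 = x ∧ ∀ t ∈ Ioo (-((n:ℝ) + 1)) ((n:ℝ) + 1), HasDerivAt γ (X (γ t)) t := by
  set B : ℝ := gronwallBound ‖x‖ K ‖X 0‖ ((n:ℝ) + 1) + 1 with hB
  have hg0 : 0 ≤ gronwallBound ‖x‖ K ‖X 0‖ ((n:ℝ) + 1) := by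
    have h1 := gronwallBound_mono (norm_nonneg x) (norm_nonneg (X 0)) K.coe_nonneg
      (by positivity : (0:ℝ) ≤ (n:ℝ) + 1)
    rw [gronwallBound_x0] at h1
    exact (norm_nonneg x).trans h1
  have hB0 : 0 < B := by positivity
  have hXb : ∀ y, ‖X y‖ ≤ K * ‖y‖ + ‖X 0‖ := by
    intro y
    have h1 := hK.norm_sub_le y 0
    rw [sub_zero] at h1
    have h2 : X y = (X y - X 0) + X 0 := by abel
    rw [h2]
    exact (norm_add_le _ _).trans (by linarith)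
  have hlip : LipschitzWith (K * 2) (fun y => X (rcut B y)) := by
    refine hK.comp (f := X) (g := rcut B) ?_
    refine LipschitzWith.of_dist_le_mul fun y z => ?_
    rw [dist_eq_norm, dist_eq_norm]
    exact rcut_lip hB0 y z
  have hbd : ∀ y, ‖X (rcut B y)‖ ≤ ((K * ⟨B, hB0.le⟩ + ‖X 0‖₊ : NNReal) : ℝ) := by
    intro y
    push_cast
    refine (hXb _).trans ?_
    have := rcut_norm hB0 y
    show (K:ℝ) * ‖rcut B y‖ + ‖X 0‖ ≤ K * B + ‖X 0‖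
    gcongr
  obtain ⟨γ, h0, h1⟩ := ode_bdd_Ioo hlip hbd x n
  refine ⟨γ, h0, fun t ht => ?_⟩
  have hb : ∀ s, ‖X (rcut B (γ s))‖ ≤ K * ‖γ s‖ + ‖X 0‖ := by
    intro s
    refine (hXb _).trans ?_
    have := rcut_norm_le hB0 (γ s)
    gcongr
  have hn : (0:ℝ) < (n:ℝ) + 1 := by positivity
  have hpos := ode_growth (γ := γ) (γ' := fun s => X (rcut B (γ s))) (N := (n:ℝ) + 1) K.coe_nonneg (norm_nonneg (X 0))
    (fun s hs => h1 s ⟨by linarith [hs.1], hs.2⟩) (fun s _ => hb s)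
  have hneg := ode_growth (γ := fun s => γ (-s)) (γ' := fun s => -X (rcut B (γ (-s)))) (N := (n:ℝ) + 1) K.coe_nonneg
    (norm_nonneg (X 0))
    (fun s hs => by
      have h2 := (h1 (-s) ⟨by linarith [hs.2], by linarith [hs.1]⟩).scomp s (hasDerivAt_neg s)
      rw [neg_one_smul] at h2
      exact h2) (fun s _ => by rw [norm_neg]; exact hb (-s))
  simp only [neg_zero] at hneg
  rw [h0] at hpos hneg
  have hle : ‖γ t‖ ≤ B := by
    rcases le_or_gt 0 t with h | h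
    · have := hpos t ⟨h, ht.2⟩
      linarith
    · have := hneg (-t) ⟨by linarith, by linarith [ht.1]⟩
      rw [neg_neg] at this
      linarith
  have h3 := h1 t ht
  rwa [rcut_eq hB0 hle] at h3

/-- A globally Lipschitz field has global solutions. -/
theorem exists_global {E : Type} [NormedAddCommGroup E] [NormedSpace ℝ E] [CompleteSpace E]
    {X : E → E} {K : NNReal} (hK : LipschitzWith K X) (x : E) :
    ∃ γ : ℝ → E, γ 0 = x ∧ ∀ t, HasDerivAt γ (X (γ t)) t := by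
  choose γ h0 h1 using ode_lip_Ioo hK x
  have hun : ∀ n k : ℕ, n ≤ k → EqOn (γ n) (γ k) (Ioo (-((n:ℝ) + 1)) ((n:ℝ) + 1)) := by
    intro n k hnk
    have hnk' : (n:ℝ) ≤ k := by exact_mod_cast hnk
    have hn : (0:ℝ) ≤ n := n.cast_nonneg
    refine ODE_solution_unique_of_mem_Ioo (v := fun _ => X) (s := fun _ => univ) (K := K) (t₀ := 0)
      (fun t _ => hK.lipschitzOnWith) ⟨by linarith, by linarith⟩
      (fun t ht => ⟨h1 n t ht, trivial⟩) (fun t ht => ⟨h1 k t ⟨?_, ?_⟩, trivial⟩) ?_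
    · linarith [ht.1]
    · linarith [ht.2]
    · rw [h0, h0]
  refine ⟨fun t => γ ⌈|t|⌉₊ t, ?_, ?_⟩
  · simp only; rw [h0]
  · intro t
    set N : ℕ := ⌈|t|⌉₊ + 1 with hN
    have hval : ∀ s : ℝ, |s| < |t| + 1 → γ ⌈|s|⌉₊ s = γ N s := by
      intro s hs
      have h2 : ⌈|s|⌉₊ ≤ N := by
        have h3 : |s| ≤ ((⌈|t|⌉₊ + 1 : ℕ) : ℝ) := by
          push_cast
          linarith [Nat.le_ceil |t|]
        exact Nat.ceil_le.2 h3
      refine hun _ _ h2 ?_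
      have h3 := Nat.le_ceil |s|
      exact abs_lt.1 (by linarith : |s| < (⌈|s|⌉₊:ℝ) + 1)
    have h3 : HasDerivAt (γ N) (X (γ N t)) t := by
      apply h1
      have h4 := Nat.le_ceil |t|
      refine abs_lt.1 ?_
      rw [hN]; push_cast
      linarith
    have h4 : (fun s => γ ⌈|s|⌉₊ s) =ᶠ[𝓝 t] γ N := by
      have : ∀ᶠ s in 𝓝 t, |s| < |t| + 1 :=
        (continuous_abs.tendsto t).eventually (gt_mem_nhds (by linarith))
      exact this.mono hval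
    change HasDerivAt _ (X (γ ⌈|t|⌉₊ t)) t
    rw [hval t (by linarith)]
    exact h3.congr_of_eventuallyEq h4

theorem ode_fu_lip (m12 m3 a : ℝ) (u x u' x' : ℂ) {d : ℝ} (hu : ‖u - u'‖ ≤ d) (hx : ‖x - x'‖ ≤ d) :
    ‖fu m12 m3 a u x - fu m12 m3 a u' x'‖ ≤
      256 * (|m12| + |m3| * ((1 + |1 - a|) + (1 + |a|))) * d := by
  have hd : 0 ≤ d := (norm_nonneg _).trans hu
  have hk : ∀ p q : ℂ, ‖ker (1/4) p - ker (1/4) q‖ ≤ 256 * ‖p - q‖ := by
    intro p q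
    have := ker_lip (by norm_num : (0:ℝ) < 1/4) p q
    norm_num at this ⊢
    exact this
  have h1 := hk u u'
  have h2 := hk (x - (1 - (a : ℂ)) * u) (x' - (1 - (a : ℂ)) * u')
  have h3 := hk (x + (a : ℂ) * u) (x' + (a : ℂ) * u')
  have h4 : ‖(x - (1 - (a : ℂ)) * u) - (x' - (1 - (a : ℂ)) * u')‖ ≤ (1 + |1 - a|) * d := by
    have e1 : (x - (1 - (a : ℂ)) * u) - (x' - (1 - (a : ℂ)) * u') = (x - x') - ((1 - a : ℝ) : ℂ) * (u - u') := by
      push_cast; ring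
    rw [e1]
    refine (norm_sub_le _ _).trans ?_
    rw [norm_mul, Complex.norm_real, Real.norm_eq_abs]
    have := mul_le_mul_of_nonneg_left hu (abs_nonneg (1 - a))
    linarith
  have h5 : ‖(x + (a : ℂ) * u) - (x' + (a : ℂ) * u')‖ ≤ (1 + |a|) * d := by
    have e1 : (x + (a : ℂ) * u) - (x' + (a : ℂ) * u') = (x - x') + ((a : ℝ) : ℂ) * (u - u') := by
      ring
    rw [e1]
    refine (norm_add_le _ _).trans ?_
    rw [norm_mul, Complex.norm_real, Real.norm_eq_abs]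
    have := mul_le_mul_of_nonneg_left hu (abs_nonneg a)
    linarith
  have e2 : fu m12 m3 a u x - fu m12 m3 a u' x' = -(m12 : ℂ) * (ker (1/4) u - ker (1/4) u') +
      (m3 : ℂ) * ((ker (1/4) (x - (1 - (a : ℂ)) * u) - ker (1/4) (x' - (1 - (a : ℂ)) * u')) -
        (ker (1/4) (x + (a : ℂ) * u) - ker (1/4) (x' + (a : ℂ) * u'))) := by
    unfold fu; ring
  rw [e2]
  refine (norm_add_le _ _).trans ?_
  rw [norm_mul, norm_mul, norm_neg, Complex.norm_real, Complex.norm_real, Real.norm_eq_abs, Real.norm_eq_abs]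
  have h6 : ‖(ker (1/4) (x - (1 - (a : ℂ)) * u) - ker (1/4) (x' - (1 - (a : ℂ)) * u')) -
        (ker (1/4) (x + (a : ℂ) * u) - ker (1/4) (x' + (a : ℂ) * u'))‖ ≤
        256 * ((1 + |1 - a|) * d) + 256 * ((1 + |a|) * d) := by
    refine (norm_sub_le _ _).trans ?_
    gcongr
    · exact h2.trans (by gcongr)
    · exact h3.trans (by gcongr)
  have h7 : |m12| * ‖ker (1/4) u - ker (1/4) u'‖ ≤ |m12| * (256 * d) := by
    gcongr
    exact h1.trans (by gcongr)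
  have h8 := mul_le_mul_of_nonneg_left h6 (abs_nonneg m3)
  linarith

theorem ode_fx_lip (m12 m3 a : ℝ) (u x u' x' : ℂ) {d : ℝ} (hu : ‖u - u'‖ ≤ d) (hx : ‖x - x'‖ ≤ d) :
    ‖fx m12 m3 a u x - fx m12 m3 a u' x'‖ ≤
      256 * (|m12 + m3| * (|1 - a| * (1 + |a|) + |a| * (1 + |1 - a|))) * d := by
  have hd : 0 ≤ d := (norm_nonneg _).trans hu
  have hk : ∀ p q : ℂ, ‖ker (1/4) p - ker (1/4) q‖ ≤ 256 * ‖p - q‖ := by
    intro p q
    have := ker_lip (by norm_num : (0:ℝ) < 1/4) p q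
    norm_num at this ⊢
    exact this
  have h2 := hk (x - (1 - (a : ℂ)) * u) (x' - (1 - (a : ℂ)) * u')
  have h3 := hk (x + (a : ℂ) * u) (x' + (a : ℂ) * u')
  have h4 : ‖(x - (1 - (a : ℂ)) * u) - (x' - (1 - (a : ℂ)) * u')‖ ≤ (1 + |1 - a|) * d := by
    have e1 : (x - (1 - (a : ℂ)) * u) - (x' - (1 - (a : ℂ)) * u') = (x - x') - ((1 - a : ℝ) : ℂ) * (u - u') := by
      push_cast; ring
    rw [e1]
    refine (norm_sub_le _ _).trans ?_
    rw [norm_mul, Complex.norm_real, Real.norm_eq_abs]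
    have := mul_le_mul_of_nonneg_left hu (abs_nonneg (1 - a))
    linarith
  have h5 : ‖(x + (a : ℂ) * u) - (x' + (a : ℂ) * u')‖ ≤ (1 + |a|) * d := by
    have e1 : (x + (a : ℂ) * u) - (x' + (a : ℂ) * u') = (x - x') + ((a : ℝ) : ℂ) * (u - u') := by
      ring
    rw [e1]
    refine (norm_add_le _ _).trans ?_
    rw [norm_mul, Complex.norm_real, Real.norm_eq_abs]
    have := mul_le_mul_of_nonneg_left hu (abs_nonneg a)
    linarith
  have e2 : fx m12 m3 a u x - fx m12 m3 a u' x' = -((m12 + m3 : ℝ) : ℂ) *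
      (((1 - a : ℝ) : ℂ) * (ker (1/4) (x + (a : ℂ) * u) - ker (1/4) (x' + (a : ℂ) * u')) +
        (a : ℂ) * (ker (1/4) (x - (1 - (a : ℂ)) * u) - ker (1/4) (x' - (1 - (a : ℂ)) * u'))) := by
    unfold fx; push_cast; ring
  rw [e2, norm_mul, norm_neg, Complex.norm_real, Real.norm_eq_abs]
  have h6 : ‖((1 - a : ℝ) : ℂ) * (ker (1/4) (x + (a : ℂ) * u) - ker (1/4) (x' + (a : ℂ) * u')) +
        (a : ℂ) * (ker (1/4) (x - (1 - (a : ℂ)) * u) - ker (1/4) (x' - (1 - (a : ℂ)) * u'))‖ ≤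
        |1 - a| * (256 * ((1 + |a|) * d)) + |a| * (256 * ((1 + |1 - a|) * d)) := by
    refine (norm_add_le _ _).trans ?_
    rw [norm_mul, norm_mul, Complex.norm_real, Complex.norm_real, Real.norm_eq_abs, Real.norm_eq_abs]
    gcongr
    · exact h3.trans (by gcongr)
    · exact h2.trans (by gcongr)
  have h8 := mul_le_mul_of_nonneg_left h6 (abs_nonneg (m12 + m3))
  refine h8.trans (le_of_eq ?_)
  ring

theorem exists_jsol (m12 m3 a : ℝ) (u₀ v₀ x₀ y₀ : ℂ) :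
    ∃ u v x y : ℝ → ℂ, JSol m12 m3 a u v x y ∧ u 0 = u₀ ∧ v 0 = v₀ ∧ x 0 = x₀ ∧ y 0 = y₀ := by
  set L1 : ℝ := 256 * (|m12| + |m3| * ((1 + |1 - a|) + (1 + |a|))) with hL1
  set L2 : ℝ := 256 * (|m12 + m3| * (|1 - a| * (1 + |a|) + |a| * (1 + |1 - a|))) with hL2
  have hL10 : 0 ≤ L1 := by positivity
  have hL20 : 0 ≤ L2 := by positivity
  let F : ℂ × ℂ × ℂ × ℂ → ℂ × ℂ × ℂ × ℂ := fun p =>
    (p.2.1, fu m12 m3 a p.1 p.2.2.1, p.2.2.2, fx m12 m3 a p.1 p.2.2.1)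
  have hF : LipschitzWith (⟨1 + L1 + L2, by positivity⟩ : NNReal) F := by
    refine LipschitzWith.of_dist_le_mul fun z w => ?_
    rw [dist_eq_norm, dist_eq_norm]
    change _ ≤ (1 + L1 + L2) * ‖z - w‖
    have n1 : ‖z.1 - w.1‖ ≤ ‖z - w‖ := norm_fst_le (z - w)
    have n2 : ‖z.2 - w.2‖ ≤ ‖z - w‖ := norm_snd_le (z - w)
    have n3 : ‖z.2.1 - w.2.1‖ ≤ ‖z - w‖ := (norm_fst_le (z.2 - w.2)).trans n2
    have n4 : ‖z.2.2 - w.2.2‖ ≤ ‖z - w‖ := (norm_snd_le (z.2 - w.2)).trans n2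
    have n5 : ‖z.2.2.1 - w.2.2.1‖ ≤ ‖z - w‖ := (norm_fst_le (z.2.2 - w.2.2)).trans n4
    have n6 : ‖z.2.2.2 - w.2.2.2‖ ≤ ‖z - w‖ := (norm_snd_le (z.2.2 - w.2.2)).trans n4
    have hn := norm_nonneg (z - w)
    have f1 := ode_fu_lip m12 m3 a z.1 z.2.2.1 w.1 w.2.2.1 n1 n5
    have f2 := ode_fx_lip m12 m3 a z.1 z.2.2.1 w.1 w.2.2.1 n1 n5
    have p1 : 0 ≤ L1 * ‖z - w‖ := by positivity
    have p2 : 0 ≤ L2 * ‖z - w‖ := by positivity
    have e : F z - F w = (z.2.1 - w.2.1, fu m12 m3 a z.1 z.2.2.1 - fu m12 m3 a w.1 w.2.2.1,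
      z.2.2.2 - w.2.2.2, fx m12 m3 a z.1 z.2.2.1 - fx m12 m3 a w.1 w.2.2.1) := rfl
    rw [e, Prod.norm_def, Prod.norm_def, Prod.norm_def]
    refine max_le ?_ (max_le ?_ (max_le ?_ ?_))
    · show ‖z.2.1 - w.2.1‖ ≤ _
      linarith
    · show ‖fu m12 m3 a z.1 z.2.2.1 - fu m12 m3 a w.1 w.2.2.1‖ ≤ _
      linarith
    · show ‖z.2.2.2 - w.2.2.2‖ ≤ _
      linarith
    · show ‖fx m12 m3 a z.1 z.2.2.1 - fx m12 m3 a w.1 w.2.2.1‖ ≤ _
      linarith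
  obtain ⟨γ, h0, h1⟩ := exists_global hF (u₀, v₀, x₀, y₀)
  refine ⟨fun t => (γ t).1, fun t => (γ t).2.1, fun t => (γ t).2.2.1, fun t => (γ t).2.2.2, ⟨?_, ?_, ?_, ?_⟩,
    ?_, ?_, ?_, ?_⟩
  · intro t
    exact (ContinuousLinearMap.fst ℝ ℂ (ℂ × ℂ × ℂ)).hasFDerivAt.comp_hasDerivAt t (h1 t)
  · intro t
    have h2 := (ContinuousLinearMap.snd ℝ ℂ (ℂ × ℂ × ℂ)).hasFDerivAt.comp_hasDerivAt t (h1 t)
    exact (ContinuousLinearMap.fst ℝ ℂ (ℂ × ℂ)).hasFDerivAt.comp_hasDerivAt t h2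
  · intro t
    have h2 := (ContinuousLinearMap.snd ℝ ℂ (ℂ × ℂ × ℂ)).hasFDerivAt.comp_hasDerivAt t (h1 t)
    have h3 := (ContinuousLinearMap.snd ℝ ℂ (ℂ × ℂ)).hasFDerivAt.comp_hasDerivAt t h2
    exact (ContinuousLinearMap.fst ℝ ℂ ℂ).hasFDerivAt.comp_hasDerivAt t h3
  · intro t
    have h2 := (ContinuousLinearMap.snd ℝ ℂ (ℂ × ℂ × ℂ)).hasFDerivAt.comp_hasDerivAt t (h1 t)
    have h3 := (ContinuousLinearMap.snd ℝ ℂ (ℂ × ℂ)).hasFDerivAt.comp_hasDerivAt t h2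
    exact (ContinuousLinearMap.snd ℝ ℂ ℂ).hasFDerivAt.comp_hasDerivAt t h3
  all_goals simp only [h0]

end Pool.Agent.H3.TB
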