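import Pool.Agent.H3.TB.Defs

/-! Project 3B, WRAP (helper67): from the normalized collinear relative equilibria to all of them. -/

set_option autoImplicit false

open Complex

namespace Pool.Agent.H3.TB

/-- the collinear motion rotating with angular velocity `ω` -/
noncomputable def euler (r : Fin 3 → ℝ) (w : ℂ) (ω : ℝ) (t : ℝ) : Ph :=
  (fun i => w * cexp (I * ω * t) * r i, fun i => w * (I * ω) * cexp (I * ω * t) * r i)

namespace Wrap

/-! ### the accelerations on a line -/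

/-- the real acceleration -/
noncomputable def A (m r : Fin 3 → ℝ) (i : Fin 3) : ℝ :=
  ∑ b ∈ Finset.univ.erase i, m b * (r b - r i) / |r b - r i| ^ 3

lemma acc_line (m r : Fin 3 → ℝ) (c : ℂ) (i : Fin 3) :
    acc m (fun j => c * r j) i = ((A m r i / ‖c‖ ^ 3 : ℝ) : ℂ) * c := by
  unfold acc A
  rw [Finset.sum_div, Complex.ofReal_sum, Finset.sum_mul]
  refine Finset.sum_congr rfl fun b _ => ?_
  have e1 : c * (r b : ℂ) - c * (r i : ℂ) = c * ((r b - r i : ℝ) : ℂ) := by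
    push_cast
    ring
  have e2 : m b / (‖c‖ * |r b - r i|) ^ 3 = m b / |r b - r i| ^ 3 / ‖c‖ ^ 3 := by
    rw [mul_pow, mul_comm, div_div]
  rw [e1, norm_mul, Complex.norm_real, Real.norm_eq_abs, e2]
  push_cast
  ring

lemma A0 (m r : Fin 3 → ℝ) : A m r 0 =
    m 1 * (r 1 - r 0) / |r 1 - r 0| ^ 3 + m 2 * (r 2 - r 0) / |r 2 - r 0| ^ 3 := by
  unfold A
  rw [show (Finset.univ.erase (0 : Fin 3)) = {1, 2} by decide, Finset.sum_pair (by decide)]

lemma A1 (m r : Fin 3 → ℝ) : A m r 1 =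
    m 0 * (r 0 - r 1) / |r 0 - r 1| ^ 3 + m 2 * (r 2 - r 1) / |r 2 - r 1| ^ 3 := by
  unfold A
  rw [show (Finset.univ.erase (1 : Fin 3)) = {0, 2} by decide, Finset.sum_pair (by decide)]

lemma A2 (m r : Fin 3 → ℝ) : A m r 2 =
    m 0 * (r 0 - r 2) / |r 0 - r 2| ^ 3 + m 1 * (r 1 - r 2) / |r 1 - r 2| ^ 3 := by
  unfold A
  rw [show (Finset.univ.erase (2 : Fin 3)) = {0, 1} by decide, Finset.sum_pair (by decide)]

/-- the equations of a collinear relative equilibrium -/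
structure Eqs (m r : Fin 3 → ℝ) (l : ℝ) : Prop where
  com : m 0 * r 0 + m 1 * r 1 + m 2 * r 2 = 0
  eq : ∀ i, A m r i = -(l * r i)

lemma euler_deriv (r : Fin 3 → ℝ) (w : ℂ) (ω t : ℝ) :
    HasDerivAt (euler r w ω) ((euler r w ω t).2,
      fun i => ((-(ω ^ 2) * r i : ℝ) : ℂ) * (w * cexp (I * ω * t))) t := by
  have h0 : HasDerivAt (fun t : ℝ => cexp (I * ω * t)) (cexp (I * ω * t) * (I * ω)) t := by
    have h1 : HasDerivAt (fun t : ℝ => I * (ω : ℂ) * (t : ℂ)) (I * ω * 1) t :=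
      (Complex.ofRealCLM.hasDerivAt (x := t)).const_mul (I * (ω : ℂ))
    rw [mul_one] at h1
    exact h1.cexp
  unfold euler
  refine HasDerivAt.prodMk ?_ ?_
  · rw [hasDerivAt_pi]
    intro i
    have h2 := (h0.const_mul w).mul_const (r i : ℂ)
    refine h2.congr_deriv ?_
    ring
  · rw [hasDerivAt_pi]
    intro i
    have h2 := (h0.const_mul (w * (I * ω))).mul_const (r i : ℂ)
    refine h2.congr_deriv ?_
    have : I * I = -1 := Complex.I_mul_I
    push_cast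
    linear_combination (w * (ω : ℂ) ^ 2 * cexp (I * ω * t) * (r i : ℂ)) * this

lemma norm_exp (ω t : ℝ) : ‖cexp (I * ω * t)‖ = 1 := by
  rw [show I * (ω : ℂ) * (t : ℂ) = ((ω * t : ℝ) : ℂ) * I by push_cast; ring]
  exact Complex.norm_exp_ofReal_mul_I _

lemma eqs_of_sol {m r : Fin 3 → ℝ} {w : ℂ} {ω : ℝ} (hw : w ≠ 0) (h : IsSol m (euler r w ω)) :
    Eqs m r (ω ^ 2 * ‖w‖ ^ 3) := by
  obtain ⟨hp, hd⟩ := h 0
  have hu := (euler_deriv r w ω 0).unique hd
  have hE : ∀ i, (euler r w ω 0).1 i = w * r i := by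
    intro i
    simp [euler]
  have hE' : (euler r w ω 0).1 = fun j => w * r j := funext hE
  refine ⟨?_, fun i => ?_⟩
  · have h1 := hp.2.1
    simp only [hE, Fin.sum_univ_three] at h1
    have h2 : w * ((m 0 * r 0 + m 1 * r 1 + m 2 * r 2 : ℝ) : ℂ) = 0 := by
      push_cast
      linear_combination h1
    exact_mod_cast (mul_eq_zero.1 h2).resolve_left hw
  · have h1 := congrFun (congrArg Prod.snd hu) i
    simp only at h1
    rw [hE', acc_line] at h1
    simp only [Complex.ofReal_zero, mul_zero, Complex.exp_zero, mul_one] at h1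
    have h2 := mul_right_cancel₀ hw h1
    have h3 : -(ω ^ 2) * r i = A m r i / ‖w‖ ^ 3 := by exact_mod_cast h2
    have hw0 : (0 : ℝ) < ‖w‖ ^ 3 := by positivity
    rw [eq_div_iff hw0.ne'] at h3
    linarith

lemma sol_of_eqs {m r : Fin 3 → ℝ} {w : ℂ} {ω : ℝ} (hw : w ≠ 0) (h01 : r 0 < r 1) (h12 : r 1 < r 2)
    (h : Eqs m r (ω ^ 2 * ‖w‖ ^ 3)) : IsSol m (euler r w ω) := by
  intro t
  set c : ℂ := w * cexp (I * ω * t) with hc
  have hc0 : c ≠ 0 := mul_ne_zero hw (Complex.exp_ne_zero _)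
  have hcn : ‖c‖ = ‖w‖ := by rw [hc, norm_mul, norm_exp, mul_one]
  have hE : ∀ i, (euler r w ω t).1 i = c * r i := fun i => rfl
  have hE' : (euler r w ω t).1 = fun j => c * r j := funext hE
  have hE2 : ∀ i, (euler r w ω t).2 i = (I * ω) * (c * r i) := fun i => by
    simp only [euler, hc]
    ring
  have hcom : (m 0 : ℂ) * (c * r 0) + (m 1 : ℂ) * (c * r 1) + (m 2 : ℂ) * (c * r 2) = 0 := by
    have h1 : ((m 0 * r 0 + m 1 * r 1 + m 2 * r 2 : ℝ) : ℂ) = 0 := by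
      rw [h.com, Complex.ofReal_zero]
    push_cast at h1
    linear_combination c * h1
  have hinj : ∀ a b, a ≠ b → r a ≠ r b := by
    intro a b hab
    have h02 : r 0 < r 2 := h01.trans h12
    fin_cases a <;> fin_cases b <;>
      first
        | exact absurd rfl hab
        | exact h01.ne
        | exact h02.ne
        | exact h12.ne
        | exact h01.ne'
        | exact h02.ne'
        | exact h12.ne'
  refine ⟨⟨fun a b hab => ?_, ?_, ?_⟩, ?_⟩
  · rw [hE, hE]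
    intro h1
    exact hinj a b hab (by exact_mod_cast mul_left_cancel₀ hc0 h1)
  · simp only [hE, Fin.sum_univ_three]
    exact hcom
  · simp only [hE2, Fin.sum_univ_three]
    linear_combination (I * ω) * hcom
  · have h1 := euler_deriv r w ω t
    refine h1.congr_deriv ?_
    refine Prod.ext rfl ?_
    funext i
    change ((-(ω ^ 2) * r i : ℝ) : ℂ) * (w * cexp (I * ω * t)) = acc m (euler r w ω t).1 i
    rw [hE', acc_line, h.eq i, hcn, ← hc]
    have hw0 : (0 : ℝ) < ‖w‖ ^ 3 := by positivity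
    congr 2
    field_simp

/-! ### scaling of solutions -/

lemma acc_map {m m' : Fin 3 → ℝ} {D κ : ℝ} (hD : 0 < D) (hm : ∀ i, m i = D ^ 3 * κ ^ 2 * m' i)
    (L : ℂ →L[ℝ] ℂ) (hL : ∀ x, ‖L x‖ = D * ‖x‖) (q : Fin 3 → ℂ) (i : Fin 3) :
    acc m (fun j => L (q j)) i = κ ^ 2 • L (acc m' q i) := by
  unfold acc
  rw [map_sum, Finset.smul_sum]
  refine Finset.sum_congr rfl fun b _ => ?_
  have e1 : L (q b) - L (q i) = L (q b - q i) := (map_sub L _ _).symm
  have e2 : ∀ (x : ℝ) (y : ℂ), L ((x : ℂ) * y) = (x : ℂ) * L y := by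
    intro x y
    rw [← Complex.real_smul, map_smul, Complex.real_smul]
  rw [e1, e2, hL, hm, mul_pow, Complex.real_smul, ← mul_assoc]
  congr 1
  rw [← Complex.ofReal_mul]
  congr 1
  have hD3 : D ^ 3 ≠ 0 := by positivity
  rw [mul_assoc, mul_div_mul_left _ _ hD3, mul_div_assoc]

lemma forward_scale {m m' : Fin 3 → ℝ} {D κ : ℝ} (hD : 0 < D) (hκ : 0 < κ)
    (hm : ∀ i, m i = D ^ 3 * κ ^ 2 * m' i) (L : ℂ →L[ℝ] ℂ) (hL : ∀ x, ‖L x‖ = D * ‖x‖)
    {y : ℝ → Ph} (hy : IsForwardSol m' y) :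
    IsForwardSol m (fun t => (fun i => L ((y (κ * t)).1 i), fun i => κ • L ((y (κ * t)).2 i))) := by
  obtain ⟨η, hη, h⟩ := hy
  refine ⟨η / κ, by positivity, fun t ht => ?_⟩
  have ht' : -η < κ * t := by
    rw [neg_lt_iff_pos_add] at ht ⊢
    have := mul_pos hκ ht
    rw [mul_add, mul_div_cancel₀ _ hκ.ne'] at this
    linarith
  obtain ⟨⟨h1, h2, h3⟩, h4⟩ := h (κ * t) ht'
  have e2 : ∀ (x : ℝ) (y : ℂ), L ((x : ℂ) * y) = (x : ℂ) * L y := by
    intro x y
    rw [← Complex.real_smul, map_smul, Complex.real_smul]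
  refine ⟨⟨fun a b hab => ?_, ?_, ?_⟩, ?_⟩
  · intro h5
    have h6 : L ((y (κ * t)).1 a - (y (κ * t)).1 b) = 0 := by
      rw [map_sub, sub_eq_zero]
      exact h5
    have h7 := hL ((y (κ * t)).1 a - (y (κ * t)).1 b)
    rw [h6, norm_zero] at h7
    have h8 := (mul_eq_zero.1 h7.symm).resolve_left hD.ne'
    rw [norm_eq_zero, sub_eq_zero] at h8
    exact h1 a b hab h8
  · have h5 : ∀ i, (m i : ℂ) * L ((y (κ * t)).1 i) =
        ((D ^ 3 * κ ^ 2 : ℝ) : ℂ) * L ((m' i : ℂ) * (y (κ * t)).1 i) := by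
      intro i
      rw [hm, e2]
      push_cast
      ring
    simp only [h5]
    rw [← Finset.mul_sum, ← map_sum, h2, map_zero, mul_zero]
  · have h5 : ∀ i, (m i : ℂ) * (κ • L ((y (κ * t)).2 i)) =
        ((D ^ 3 * κ ^ 2 * κ : ℝ) : ℂ) * L ((m' i : ℂ) * (y (κ * t)).2 i) := by
      intro i
      rw [hm, e2, Complex.real_smul]
      push_cast
      ring
    simp only [h5]
    rw [← Finset.mul_sum, ← map_sum, h3, map_zero, mul_zero]
  · have hκt : HasDerivAt (fun s : ℝ => κ * s) κ t := by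
      have := (hasDerivAt_id t).const_mul κ
      simpa using this
    have h5 : HasDerivAt (fun s : ℝ => y (κ * s))
        (κ • ((y (κ * t)).2, acc m' (y (κ * t)).1)) t := h4.scomp t hκt
    have h6 : HasDerivAt (fun s : ℝ => (y (κ * s)).1) (κ • (y (κ * t)).2) t := by
      have := (ContinuousLinearMap.fst ℝ (Fin 3 → ℂ) (Fin 3 → ℂ)).hasFDerivAt.comp_hasDerivAt t h5
      exact this
    have h7 : HasDerivAt (fun s : ℝ => (y (κ * s)).2) (κ • acc m' (y (κ * t)).1) t := by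
      have := (ContinuousLinearMap.snd ℝ (Fin 3 → ℂ) (Fin 3 → ℂ)).hasFDerivAt.comp_hasDerivAt t h5
      exact this
    rw [hasDerivAt_pi] at h6 h7
    refine HasDerivAt.prodMk ?_ ?_
    · rw [hasDerivAt_pi]
      intro i
      have h8 := L.hasFDerivAt.comp_hasDerivAt t (h6 i)
      refine h8.congr_deriv ?_
      rw [Pi.smul_apply, map_smul]
    · rw [hasDerivAt_pi]
      intro i
      have h8 := (L.hasFDerivAt.comp_hasDerivAt t (h7 i)).const_smul κ
      refine h8.congr_deriv ?_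
      rw [acc_map hD hm L hL, Pi.smul_apply, map_smul, smul_smul, sq]

/-! ### the equations -/

lemma cube_pos {x m : ℝ} (hx : 0 < x) : m * x / |x| ^ 3 = m / x ^ 2 := by
  rw [abs_of_pos hx]
  field_simp

lemma cube_neg {x m : ℝ} (hx : 0 < x) : m * (-x) / |-x| ^ 3 = -(m / x ^ 2) := by
  rw [abs_neg, abs_of_pos hx]
  field_simp

lemma eqs_iff {m r : Fin 3 → ℝ} {l d z : ℝ} (hd : 0 < d) (hz : 0 < z) (h1 : r 1 - r 0 = d)
    (h2 : r 2 - r 1 = z * d) : Eqs m r l ↔ m 0 * r 0 + m 1 * r 1 + m 2 * r 2 = 0 ∧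
      m 1 + m 2 / (1 + z) ^ 2 = -(l * d ^ 2 * r 0) ∧ -m 0 + m 2 / z ^ 2 = -(l * d ^ 2 * r 1) ∧
      m 0 / (1 + z) ^ 2 + m 1 / z ^ 2 = l * d ^ 2 * r 2 := by
  have h3 : r 2 - r 0 = (1 + z) * d := by linarith
  have hz1 : 0 < 1 + z := by linarith
  have e0 : A m r 0 = (m 1 + m 2 / (1 + z) ^ 2) / d ^ 2 := by
    rw [A0, h1, h3, cube_pos hd, cube_pos (by positivity)]
    field_simp
  have e1 : A m r 1 = (-m 0 + m 2 / z ^ 2) / d ^ 2 := by
    rw [A1, ← neg_sub (r 1) (r 0), h1, h2, cube_neg hd, cube_pos (by positivity)]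
    field_simp
  have e2 : A m r 2 = -(m 0 / (1 + z) ^ 2 + m 1 / z ^ 2) / d ^ 2 := by
    rw [A2, ← neg_sub (r 2) (r 0), ← neg_sub (r 2) (r 1), h3, h2, cube_neg (by positivity),
      cube_neg (by positivity)]
    field_simp
    ring
  have hd2 : 0 < d ^ 2 := by positivity
  constructor
  · intro h
    have k0 := h.eq 0
    have k1 := h.eq 1
    have k2 := h.eq 2
    rw [e0, div_eq_iff hd2.ne'] at k0
    rw [e1, div_eq_iff hd2.ne'] at k1
    rw [e2, div_eq_iff hd2.ne'] at k2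
    exact ⟨h.com, by linarith, by linarith, by linarith⟩
  · rintro ⟨hc, k0, k1, k2⟩
    refine ⟨hc, fun i => ?_⟩
    fin_cases i
    · change A m r 0 = -(l * r 0)
      rw [e0, div_eq_iff hd2.ne', k0]
      ring
    · change A m r 1 = -(l * r 1)
      rw [e1, div_eq_iff hd2.ne', k1]
      ring
    · change A m r 2 = -(l * r 2)
      rw [e2, div_eq_iff hd2.ne', k2]
      ring

/-- the one equation for `z` -/
def Zeq (a ν z : ℝ) : Prop :=
  (1 + z - a) * (1 - ν * (1 / z ^ 2 - 1 / (1 + z) ^ 2)) =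
    (1 + ν) * ((1 - a) / (1 + z) ^ 2 + a / z ^ 2)

/-- from a collinear relative equilibrium to the normalized one -/
lemma norm_re {m r : Fin 3 → ℝ} (hm : ∀ i, 0 < m i) {l : ℝ} (hl : 0 < l) (h01 : r 0 < r 1)
    (h12 : r 1 < r 2) (h : Eqs m r l) :
    ∃ (d z L : ℝ), 0 < d ∧ 0 < z ∧ d = r 1 - r 0 ∧ L = l * d ^ 3 ∧ 0 < L ∧
      L = (m 0 + m 1) * (1 - m 2 / (m 0 + m 1) * (1 / z ^ 2 - 1 / (1 + z) ^ 2)) ∧
      IsRE ((m 0 + m 1) / L) (m 2 / L) (m 1 / (m 0 + m 1)) z ∧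
      Zeq (m 1 / (m 0 + m 1)) (m 2 / (m 0 + m 1)) z ∧
      ∀ i, conf ((m 0 + m 1) / L) (m 2 / L) (m 1 / (m 0 + m 1)) 1
        (((1 + z - m 1 / (m 0 + m 1) : ℝ)) : ℂ) i = ((r i / d : ℝ) : ℂ) := by
  have m0 := hm 0
  have m1 := hm 1
  have m2 := hm 2
  have hμ : 0 < m 0 + m 1 := by linarith
  set μ := m 0 + m 1 with hμd
  set d := r 1 - r 0 with hd
  have hd0 : 0 < d := by linarith
  set z := (r 2 - r 1) / d with hz
  have hz0 : 0 < z := div_pos (by linarith) hd0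
  have h2 : r 2 - r 1 = z * d := by
    rw [hz]
    field_simp
  obtain ⟨hc, k0, k1, k2⟩ := (eqs_iff hd0 hz0 hd.symm h2).1 h
  have hz1 : 0 < 1 + z := by linarith
  set u : ℝ := 1 / (1 + z) ^ 2 with hu
  set s : ℝ := 1 / z ^ 2 with hs
  have du : ∀ x : ℝ, x / (1 + z) ^ 2 = x * u := fun x => by rw [hu]; ring
  have ds : ∀ x : ℝ, x / z ^ 2 = x * s := fun x => by rw [hs]; ring
  rw [du] at k0
  rw [ds] at k1
  rw [du, ds] at k2
  have hL0 : 0 < l * d ^ 3 := by positivity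
  have hr1 : r 1 = r 0 + d := by rw [hd]; ring
  have hr2 : r 2 = r 0 + (1 + z) * d := by linarith
  have hLe : l * d ^ 3 = μ - m 2 * (s - u) := by
    have : l * d ^ 3 = l * d ^ 2 * r 1 - l * d ^ 2 * r 0 := by rw [hr1]; ring
    rw [this, hμd]
    linarith
  have hLe' : l * d ^ 3 = μ * (1 - m 2 / μ * (s - u)) := by
    rw [hLe]
    field_simp
  have hx : μ * (d * (1 + z - m 1 / μ)) = (μ + m 2) * r 2 := by
    have : μ * (d * (1 + z - m 1 / μ)) = d * (μ * (1 + z) - m 1) := by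
      field_simp
    rw [this]
    have e : (μ + m 2) * r 2 - d * (μ * (1 + z) - m 1) = m 0 * r 0 + m 1 * r 1 + m 2 * r 2 := by
      rw [hμd, hr1]
      linear_combination (m 0 + m 1) * hr2
    linarith
  have h3 : l * d ^ 3 * (1 + z - m 1 / μ) = (μ + m 2) * ((1 - m 1 / μ) * u + m 1 / μ * s) := by
    have e1 : μ * (l * d ^ 3 * (1 + z - m 1 / μ)) = (μ + m 2) * (l * d ^ 2 * r 2) := by
      linear_combination l * d ^ 2 * hx
    have e2 : μ * ((μ + m 2) * ((1 - m 1 / μ) * u + m 1 / μ * s)) =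
        (μ + m 2) * (m 0 * u + m 1 * s) := by
      have e3 : m 0 = μ - m 1 := by rw [hμd]; ring
      rw [e3]
      field_simp
    refine mul_left_cancel₀ hμ.ne' ?_
    rw [e1, e2, k2]
  refine ⟨d, z, l * d ^ 3, hd0, hz0, rfl, rfl, hL0, ?_, ⟨hz0, ?_, ?_⟩, ?_, ?_⟩
  · rw [hLe', hu, hs]
  · rw [← hs, ← hu, div_eq_iff hL0.ne', add_mul, one_mul]
    have : m 2 / (l * d ^ 3) * (s - u) * (l * d ^ 3) = m 2 * (s - u) := by
      field_simp
    rw [this]
    linarith
  · rw [du, ds, ← add_div, div_mul_eq_mul_div, eq_div_iff hL0.ne', ← h3]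
    ring
  · unfold Zeq
    rw [← hs, ← hu, du, ds]
    have e1 : μ * ((1 + z - m 1 / μ) * (1 - m 2 / μ * (s - u))) =
        l * d ^ 3 * (1 + z - m 1 / μ) := by
      rw [hLe']
      ring
    have e2 : μ * ((1 + m 2 / μ) * ((1 - m 1 / μ) * u + m 1 / μ * s)) =
        (μ + m 2) * ((1 - m 1 / μ) * u + m 1 / μ * s) := by
      field_simp
    refine mul_left_cancel₀ hμ.ne' ?_
    rw [e1, e2, h3]
  · have hq : m 2 / (l * d ^ 3) / (μ / (l * d ^ 3) + m 2 / (l * d ^ 3)) = m 2 / (μ + m 2) := by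
      rw [← add_div, div_div_div_cancel_right₀ hL0.ne']
    have hq' : μ / (l * d ^ 3) / (μ / (l * d ^ 3) + m 2 / (l * d ^ 3)) = μ / (μ + m 2) := by
      rw [← add_div, div_div_div_cancel_right₀ hL0.ne']
    have hμ2 : 0 < μ + m 2 := by linarith
    have x2 : μ / (μ + m 2) * (1 + z - m 1 / μ) = r 2 / d := by
      rw [div_mul_eq_mul_div, div_eq_div_iff hμ2.ne' hd0.ne']
      linarith
    have x3 : m 2 / (μ + m 2) * (1 + z - m 1 / μ) = (1 + z - m 1 / μ) - r 2 / d := by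
      rw [← x2]
      field_simp
      ring
    intro i
    unfold conf
    rw [hq, hq']
    fin_cases i
    · have : r 0 / d = -(m 2 / (μ + m 2)) * (1 + z - m 1 / μ) - m 1 / μ := by
        rw [neg_mul, x3, hr2]
        field_simp
        ring
      simp only [Matrix.cons_val_zero, Fin.zero_eta, mul_one]
      rw [this]
      push_cast
      ring
    · have : r 1 / d = -(m 2 / (μ + m 2)) * (1 + z - m 1 / μ) + (1 - m 1 / μ) := by
        rw [neg_mul, x3, hr2, hr1]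
        field_simp
        ring
      simp only [Matrix.cons_val_one, Fin.mk_one, Matrix.cons_val_zero, mul_one]
      rw [this]
      push_cast
      ring
    · simp only [Fin.reduceFinMk, Matrix.cons_val]
      rw [← x2]
      push_cast
      ring

/-- the position of the root -/
lemma z_near {ε : ℝ} (hε : 0 < ε) (hε1 : ε ≤ 1 / 4) : ∃ η : ℝ, 0 < η ∧ η ≤ 1 / 32 ∧
    ∀ a ν : ℝ, 0 < ν → ν < η → |a - 19 / 82| < η →
      (∀ z : ℝ, 0 < z → 0 < 1 - ν * (1 / z ^ 2 - 1 / (1 + z) ^ 2) → Zeq a ν z → |z - 1 / 2| < ε) ∧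
      ∃ z : ℝ, 1 / 2 - ε ≤ z ∧ z ≤ 1 / 2 + ε ∧ Zeq a ν z := by
  set p : ℝ := 1 / 2 - ε with hp
  set q : ℝ := 1 / 2 + ε with hq
  have hp0 : 1 / 4 ≤ p := by linarith
  have hp1 : 0 < p := by linarith
  have hq0 : 1 / 2 < q := by linarith
  have hq1 : q ≤ 3 / 4 := by linarith
  have hpl : p < 1 / 2 := by linarith
  -- the values at p and q
  set up : ℝ := 1 / (1 + p) ^ 2 with hup
  set sp : ℝ := 1 / p ^ 2 with hsp
  set uq : ℝ := 1 / (1 + q) ^ 2 with huq
  set sq : ℝ := 1 / q ^ 2 with hsq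
  have inv1 : ∀ x y : ℝ, 0 < x → x ≤ y → 1 / y ^ 2 ≤ 1 / x ^ 2 := fun x y hx hxy =>
    one_div_le_one_div_of_le (by positivity) (by gcongr)
  have inv2 : ∀ x y : ℝ, 0 < x → x < y → 1 / y ^ 2 < 1 / x ^ 2 := fun x y hx hxy =>
    one_div_lt_one_div_of_lt (by positivity) (by gcongr)
  have sp16 : sp ≤ 16 := by
    have := inv1 (1 / 4) p (by norm_num) hp0
    norm_num at this
    rw [hsp, one_div]
    exact this
  have sp4 : 4 < sp := by
    have := inv2 p (1 / 2) hp1 hpl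
    norm_num at this
    rw [hsp, one_div]
    exact this
  have up1 : up ≤ 1 := by
    have := inv1 1 (1 + p) (by norm_num) (by linarith)
    norm_num at this
    rw [hup, one_div]
    exact this
  have up0 : 4 / 9 < up := by
    have := inv2 (1 + p) (3 / 2) (by linarith) (by linarith)
    norm_num at this
    rw [hup, one_div]
    exact this
  have sq4 : sq < 4 := by
    have := inv2 (1 / 2) q (by norm_num) hq0
    norm_num at this
    rw [hsq, one_div]
    exact this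
  have sq0 : 0 < sq := by positivity
  have uq0 : 0 < uq := by positivity
  have uq1 : uq < 4 / 9 := by
    have := inv2 (3 / 2) (1 + q) (by norm_num) (by linarith)
    norm_num at this
    rw [huq, one_div]
    exact this
  set gp : ℝ := (63 / 82 * up + 19 / 82 * sp) - (1 + p - 19 / 82) with hgp
  set gq : ℝ := (1 + q - 19 / 82) - (63 / 82 * uq + 19 / 82 * sq) with hgq
  have gp0 : 0 < gp := by linarith
  have gq0 : 0 < gq := by linarith
  have ds : ∀ x y : ℝ, x / y ^ 2 = x * (1 / y ^ 2) := fun x y => by ring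
  refine ⟨min (1 / 32) (min (gp / 20) (gq / 20)), by positivity, min_le_left _ _, ?_⟩
  intro a ν hν hνη ha
  have hν1 : ν < 1 / 32 := hνη.trans_le (min_le_left _ _)
  have hν2 : ν < gp / 20 := hνη.trans_le ((min_le_right _ _).trans (min_le_left _ _))
  have hν3 : ν < gq / 20 := hνη.trans_le ((min_le_right _ _).trans (min_le_right _ _))
  have ha1 : |a - 19 / 82| < 1 / 32 := ha.trans_le (min_le_left _ _)
  have ha2 : |a - 19 / 82| < gp / 20 := ha.trans_le ((min_le_right _ _).trans (min_le_left _ _))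
  have ha3 : |a - 19 / 82| < gq / 20 := ha.trans_le ((min_le_right _ _).trans (min_le_right _ _))
  rw [abs_lt] at ha1 ha2 ha3
  have a0 : 0 < a := by linarith
  have a1 : a < 1 := by linarith
  -- C1
  have C1 : 1 + p - a < (1 - a) * up + a * sp := by
    have h1 : (1 - a) * up + a * sp - (1 + p - a) = gp + (a - 19 / 82) * (sp - up + 1) := by
      rw [hgp]
      ring
    have h2 : 0 < sp - up + 1 := by linarith
    have h3 : sp - up + 1 ≤ 17 := by linarith
    have h4 : -(gp / 20) * (sp - up + 1) ≤ (a - 19 / 82) * (sp - up + 1) :=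
      mul_le_mul_of_nonneg_right ha2.1.le h2.le
    have h5 : gp / 20 * (sp - up + 1) ≤ gp / 20 * 17 :=
      mul_le_mul_of_nonneg_left h3 (by linarith)
    linarith
  have C2 : (1 + ν) * ((1 - a) * uq + a * sq) < (1 + q - a) * (1 - 4 * ν) := by
    have h1 : (1 + q - a) - ((1 - a) * uq + a * sq) = gq - (a - 19 / 82) * (sq - uq + 1) := by
      rw [hgq]
      ring
    have h2 : 0 < sq - uq + 1 := by linarith
    have h3 : sq - uq + 1 ≤ 5 := by linarith
    have h4 : (a - 19 / 82) * (sq - uq + 1) ≤ gq / 20 * (sq - uq + 1) :=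
      mul_le_mul_of_nonneg_right ha3.2.le h2.le
    have h4' : gq / 20 * (sq - uq + 1) ≤ gq / 20 * 5 :=
      mul_le_mul_of_nonneg_left h3 (by linarith)
    have h5a : (1 - a) * uq ≤ 1 * 1 := mul_le_mul (by linarith) (by linarith) uq0.le (by norm_num)
    have h5b : a * sq ≤ 1 * 4 := mul_le_mul a1.le sq4.le sq0.le (by norm_num)
    have h7 : ν * ((1 - a) * uq + a * sq) ≤ ν * 5 :=
      mul_le_mul_of_nonneg_left (by linarith) hν.le
    have h8 : ν * (1 + q - a) ≤ ν * 2 := mul_le_mul_of_nonneg_left (by linarith) hν.le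
    linarith
  have hκ0 : ∀ z : ℝ, 0 < z → 0 ≤ 1 / z ^ 2 - 1 / (1 + z) ^ 2 := fun z hz => by
    have := inv1 z (1 + z) hz (by linarith)
    linarith
  have hκ1 : ∀ z : ℝ, q ≤ z → 1 / z ^ 2 - 1 / (1 + z) ^ 2 ≤ 4 := fun z hz => by
    have h1 := inv1 q z (by linarith) hz
    have h2 : 0 < 1 / (1 + z) ^ 2 := by
      have : 0 < 1 + z := by linarith
      positivity
    linarith
  constructor
  · intro z hz hk hZ
    unfold Zeq at hZ
    rw [ds (1 - a), ds a] at hZ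
    have hz1 : 0 < 1 + z := by linarith
    have hs0 : 0 < 1 / z ^ 2 := by positivity
    have hu0 : 0 < 1 / (1 + z) ^ 2 := by positivity
    rw [abs_lt]
    constructor
    · by_contra hcon
      push Not at hcon
      have hzp : z ≤ p := by linarith
      have i1 := inv1 z p hz hzp
      have i2 := inv1 (1 + z) (1 + p) hz1 (by linarith)
      have j1 : (1 + z - a) * (1 - ν * (1 / z ^ 2 - 1 / (1 + z) ^ 2)) ≤ 1 + p - a := by
        have := hκ0 z hz
        have h1 : 1 - ν * (1 / z ^ 2 - 1 / (1 + z) ^ 2) ≤ 1 := by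
          have := mul_nonneg hν.le this
          linarith
        have h2 : 0 < 1 + z - a := by linarith
        calc (1 + z - a) * (1 - ν * (1 / z ^ 2 - 1 / (1 + z) ^ 2)) ≤ (1 + z - a) * 1 :=
              mul_le_mul_of_nonneg_left h1 h2.le
          _ ≤ _ := by linarith
      have j2 : (1 - a) * up + a * sp ≤ (1 - a) * (1 / (1 + z) ^ 2) + a * (1 / z ^ 2) :=
        add_le_add (mul_le_mul_of_nonneg_left i2 (by linarith))
          (mul_le_mul_of_nonneg_left i1 a0.le)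
      have j3 : 0 ≤ ν * ((1 - a) * (1 / (1 + z) ^ 2) + a * (1 / z ^ 2)) := by
        have : 0 ≤ 1 - a := by linarith
        positivity
      linarith
    · by_contra hcon
      push Not at hcon
      have hzq : q ≤ z := by linarith
      have i1 := inv1 q z (by linarith) hzq
      have i2 := inv1 (1 + q) (1 + z) (by linarith) (by linarith)
      have i3 := hκ1 z hzq
      have j1 : (1 + q - a) * (1 - 4 * ν) ≤
          (1 + z - a) * (1 - ν * (1 / z ^ 2 - 1 / (1 + z) ^ 2)) := by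
        have h1 : 1 - 4 * ν ≤ 1 - ν * (1 / z ^ 2 - 1 / (1 + z) ^ 2) := by
          have := mul_le_mul_of_nonneg_left i3 hν.le
          linarith
        exact mul_le_mul (by linarith) h1 (by linarith) (by linarith)
      have j2 : (1 - a) * (1 / (1 + z) ^ 2) + a * (1 / z ^ 2) ≤ (1 - a) * uq + a * sq :=
        add_le_add (mul_le_mul_of_nonneg_left i2 (by linarith))
          (mul_le_mul_of_nonneg_left i1 a0.le)
      have j3 := mul_le_mul_of_nonneg_left j2 (by linarith : 0 ≤ 1 + ν)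
      linarith
  · set F : ℝ → ℝ := fun z => (1 + z - a) * (1 - ν * (1 / z ^ 2 - 1 / (1 + z) ^ 2)) -
      (1 + ν) * ((1 - a) / (1 + z) ^ 2 + a / z ^ 2) with hF
    have hFc : ContinuousOn F (Set.Icc p q) := by
      intro z hz
      have hz0 : 0 < z := lt_of_lt_of_le hp1 hz.1
      have hz2 : z ^ 2 ≠ 0 := by positivity
      have hz3 : (1 + z) ^ 2 ≠ 0 := by positivity
      have hc : ContinuousAt F z := by
        simp only [hF]
        fun_prop (disch := assumption)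
      exact hc.continuousWithinAt
    have Fp : F p ≤ 0 := by
      simp only [hF]
      rw [ds (1 - a), ds a, ← hsp, ← hup]
      have h1 : 1 - ν * (sp - up) ≤ 1 := by
        have : 0 ≤ ν * (sp - up) := mul_nonneg hν.le (by linarith)
        linarith
      have h2 : (1 + p - a) * (1 - ν * (sp - up)) ≤ (1 + p - a) * 1 :=
        mul_le_mul_of_nonneg_left h1 (by linarith)
      have h3 : 0 ≤ ν * ((1 - a) * up + a * sp) := by
        have : 0 ≤ 1 - a := by linarith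
        positivity
      linarith
    have Fq : 0 ≤ F q := by
      simp only [hF]
      rw [ds (1 - a), ds a, ← hsq, ← huq]
      have h1 : 1 - 4 * ν ≤ 1 - ν * (sq - uq) := by
        have := mul_le_mul_of_nonneg_left (by linarith : sq - uq ≤ 4) hν.le
        linarith
      have h2 : (1 + q - a) * (1 - 4 * ν) ≤ (1 + q - a) * (1 - ν * (sq - uq)) :=
        mul_le_mul_of_nonneg_left h1 (by linarith)
      linarith
    obtain ⟨z, hz, hFz⟩ := intermediate_value_Icc (by linarith : p ≤ q) hFc ⟨Fp, Fq⟩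
    refine ⟨z, hz.1, hz.2, ?_⟩
    unfold Zeq
    simp only [hF] at hFz
    linarith

/-- existence of the collinear relative equilibrium -/
lemma exists_re {m : Fin 3 → ℝ} (hm : ∀ i, 0 < m i) {z : ℝ} (hz : 0 < z)
    (hk : 0 < 1 - m 2 / (m 0 + m 1) * (1 / z ^ 2 - 1 / (1 + z) ^ 2))
    (hZ : Zeq (m 1 / (m 0 + m 1)) (m 2 / (m 0 + m 1)) z) :
    ∃ r : Fin 3 → ℝ, r 0 < r 1 ∧ r 1 < r 2 ∧ IsSol m (euler r 1 1) := by
  have m0 := hm 0
  have m1 := hm 1
  have m2 := hm 2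
  have hμ : 0 < m 0 + m 1 := by linarith
  set μ := m 0 + m 1 with hμd
  have hμ2 : 0 < μ + m 2 := by linarith
  have hz1 : 0 < 1 + z := by linarith
  set u : ℝ := 1 / (1 + z) ^ 2 with hu
  set s : ℝ := 1 / z ^ 2 with hs
  have du : ∀ x : ℝ, x / (1 + z) ^ 2 = x * u := fun x => by rw [hu]; ring
  have ds : ∀ x : ℝ, x / z ^ 2 = x * s := fun x => by rw [hs]; ring
  have hL : 0 < μ * (1 - m 2 / μ * (s - u)) := mul_pos hμ hk
  set d : ℝ := (μ * (1 - m 2 / μ * (s - u))) ^ ((3 : ℕ) : ℝ)⁻¹ with hd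
  have hd0 : 0 < d := Real.rpow_pos_of_pos hL _
  have hd3 : d ^ 3 = μ * (1 - m 2 / μ * (s - u)) := Real.rpow_inv_natCast_pow hL.le (by norm_num)
  have hd3' : d ^ 3 = μ - m 2 * (s - u) := by
    rw [hd3]
    field_simp
  set R : ℝ := μ * (d * (1 + z - m 1 / μ)) / (μ + m 2) with hR
  have hRe : (μ + m 2) * R = μ * (d * (1 + z - m 1 / μ)) := by
    rw [hR]
    field_simp
  have hRe' : (μ + m 2) * R = d * (μ * (1 + z) - m 1) := by
    rw [hRe]
    field_simp
  unfold Zeq at hZ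
  rw [← hs, ← hu, du, ds] at hZ
  have hZ1 : d ^ 3 * (1 + z - m 1 / μ) = (μ + m 2) * ((1 - m 1 / μ) * u + m 1 / μ * s) := by
    rw [hd3]
    have e2 : μ * ((1 + m 2 / μ) * ((1 - m 1 / μ) * u + m 1 / μ * s)) =
        (μ + m 2) * ((1 - m 1 / μ) * u + m 1 / μ * s) := by
      field_simp
    rw [← e2, ← hZ]
    ring
  have hZ2 : d ^ 3 * (μ * (1 + z) - m 1) = (μ + m 2) * (m 0 * u + m 1 * s) := by
    have e1 : μ * (d ^ 3 * (1 + z - m 1 / μ)) = d ^ 3 * (μ * (1 + z) - m 1) := by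
      field_simp
    have e2 : μ * ((μ + m 2) * ((1 - m 1 / μ) * u + m 1 / μ * s)) =
        (μ + m 2) * (m 0 * u + m 1 * s) := by
      have e3 : m 0 = μ - m 1 := by rw [hμd]; ring
      rw [e3]
      field_simp
    rw [← e1, ← e2, hZ1]
  have k2 : m 0 * u + m 1 * s = d ^ 2 * R := by
    refine mul_left_cancel₀ hμ2.ne' ?_
    rw [← hZ2]
    linear_combination (-d ^ 2) * hRe'
  set r : Fin 3 → ℝ := ![R - z * d - d, R - z * d, R] with hr
  have r0 : r 0 = R - z * d - d := rfl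
  have r1 : r 1 = R - z * d := rfl
  have r2 : r 2 = R := rfl
  have hE : Eqs m r 1 := by
    rw [eqs_iff hd0 hz (by rw [r0, r1]; ring) (by rw [r1, r2]; ring)]
    rw [r0, r1, r2, du, ds, du, ds, one_mul]
    have key : d ^ 2 * ((1 + z) * d) = (1 + z) * d ^ 3 := by ring
    have hA : (1 + z) * d ^ 3 = m 1 + m 2 * u + m 0 * u + m 1 * s := by
      refine mul_left_cancel₀ hμ.ne' ?_
      have e3 : m 0 = μ - m 1 := by rw [hμd]; ring
      rw [e3] at hZ2 ⊢
      linear_combination hZ2 + m 1 * hd3'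
    refine ⟨?_, ?_, ?_, k2⟩
    · have e3 : m 0 = μ - m 1 := by rw [hμd]; ring
      rw [e3]
      linear_combination hRe'
    · linear_combination (-1) * hA - k2
    · have e3 : m 0 = μ - m 1 := by rw [hμd]; ring
      rw [e3] at hA k2 ⊢
      linear_combination (-1) * hA - k2 + hd3'
  refine ⟨r, ?_, ?_, sol_of_eqs one_ne_zero ?_ ?_ ?_⟩
  · rw [r0, r1]; linarith
  · rw [r1, r2]
    have : 0 < z * d := by positivity
    linarith
  · rw [r0, r1]; linarith
  · rw [r1, r2]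
    have : 0 < z * d := by positivity
    linarith
  · simpa using hE

lemma conf_I (m12 m3 a : ℝ) (x : ℂ) (i : Fin 3) :
    conf m12 m3 a I (x * I) i = I * conf m12 m3 a 1 x i := by
  unfold conf
  fin_cases i
  · simp only [Matrix.cons_val_zero, Fin.zero_eta]
    ring
  · simp only [Matrix.cons_val_one, Fin.mk_one, Matrix.cons_val_zero]
    ring
  · simp only [Fin.reduceFinMk, Matrix.cons_val]
    ring

end Wrap

open Wrap

/-- the statement `base` -/
def Base : Prop := ∃ η : ℝ, 0 < η ∧ ∀ m12 m3 a z : ℝ, IsRE m12 m3 a z → 0 < m3 → m3 < η →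
    |z - 1 / 2| < η → 0 < a ∧ a < 1 ∧ 0 < m12 ∧
    ∀ U ∈ nhds ((conf m12 m3 a 1 ((1 + z - a : ℝ) : ℂ), conf m12 m3 a I ((1 + z - a : ℝ) * I)) : Ph),
      ∃ y : ℝ → Ph, y 0 ∈ U ∧ IsForwardSol (mass m12 m3 a) y ∧
        ∀ R : ℝ, ∃ t₀ : ℝ, ∀ t, t₀ ≤ t → R ≤ ‖(y t).1 2 - (y t).1 0‖ ∧ R ≤ ‖(y t).1 2 - (y t).1 1‖ ∧
          ‖(y t).1 1 - (y t).1 0‖ ≤ 2

/-- all collinear relative equilibria of a nonempty open set of mass triples; the distance of the first two
bodies stays bounded -/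
theorem wrap_strong (hb : Base) : ∃ η : ℝ, 0 < η ∧ ∀ m : Fin 3 → ℝ, (∀ i, 0 < m i) →
    m 2 < η * (m 0 + m 1) → |m 0 - 63 / 82 * (m 0 + m 1)| < η * (m 0 + m 1) →
    (∃ r : Fin 3 → ℝ, r 0 < r 1 ∧ r 1 < r 2 ∧ IsSol m (euler r 1 1)) ∧
    ∀ (r : Fin 3 → ℝ) (w : ℂ) (ω : ℝ), r 0 < r 1 → r 1 < r 2 → w ≠ 0 → ω ≠ 0 → IsSol m (euler r w ω) →
      IsRelPeriodic (euler r w ω) ∧
      ∀ U ∈ nhds (euler r w ω 0), ∃ y : ℝ → Ph, y 0 ∈ U ∧ IsForwardSol m y ∧
        ∀ R : ℝ, ∃ t₀ : ℝ, ∀ t, t₀ ≤ t → R ≤ ‖(y t).1 2 - (y t).1 0‖ ∧ R ≤ ‖(y t).1 2 - (y t).1 1‖ ∧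
          ‖(y t).1 1 - (y t).1 0‖ ≤ 2 * (‖w‖ * (r 1 - r 0)) := by
  obtain ⟨η₀, hη₀, hb⟩ := hb
  set ε : ℝ := min (η₀ / 2) (1 / 4) with hε
  have hε0 : 0 < ε := by positivity
  have hε1 : ε ≤ 1 / 4 := min_le_right _ _
  have hε2 : ε ≤ η₀ / 2 := min_le_left _ _
  obtain ⟨η₁, hη₁, hη₁', hz⟩ := z_near hε0 hε1
  refine ⟨min η₁ (η₀ / 2), by positivity, ?_⟩
  intro m hm hm2 hm0
  have m0 := hm 0
  have m1 := hm 1
  have m2 := hm 2
  have hμ : 0 < m 0 + m 1 := by linarith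
  have hν : 0 < m 2 / (m 0 + m 1) := by positivity
  have hν' : m 2 / (m 0 + m 1) < min η₁ (η₀ / 2) := by rwa [div_lt_iff₀ hμ]
  have hν1 := hν'.trans_le (min_le_left _ _)
  have hν2 := hν'.trans_le (min_le_right _ _)
  have ha : |m 1 / (m 0 + m 1) - 19 / 82| < η₁ := by
    have h1 : m 1 / (m 0 + m 1) - 19 / 82 = -(m 0 - 63 / 82 * (m 0 + m 1)) / (m 0 + m 1) := by
      field_simp
      ring
    rw [h1, abs_div, abs_neg, abs_of_pos hμ, div_lt_iff₀ hμ]
    exact hm0.trans_le (mul_le_mul_of_nonneg_right (min_le_left _ _) hμ.le)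
  obtain ⟨za, zb⟩ := hz _ _ hν hν1 ha
  have hk16 : ∀ z : ℝ, 1 / 4 ≤ z →
      1 / 2 ≤ 1 - m 2 / (m 0 + m 1) * (1 / z ^ 2 - 1 / (1 + z) ^ 2) := by
    intro z hz
    have hz0 : 0 < z := by linarith
    have h1 : 1 / z ^ 2 ≤ 16 := by
      rw [div_le_iff₀ (by positivity)]
      nlinarith
    have h2 : 0 < 1 / (1 + z) ^ 2 := by positivity
    have h3 := mul_le_mul_of_nonneg_left (by linarith : 1 / z ^ 2 - 1 / (1 + z) ^ 2 ≤ 16) hν.le
    linarith
  constructor
  · obtain ⟨z, z1, z2, z3⟩ := zb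
    have hz4 : 1 / 4 ≤ z := by linarith
    exact exists_re hm (by linarith) (by linarith [hk16 z hz4]) z3
  intro r w ω h01 h12 hw hω hsol
  refine ⟨⟨1, one_pos, fun t a b => ?_⟩, ?_⟩
  · have e : ∀ t : ℝ, ‖(euler r w ω t).1 a - (euler r w ω t).1 b‖ = ‖w‖ * |r a - r b| := by
      intro t
      have : (euler r w ω t).1 a - (euler r w ω t).1 b =
          w * cexp (I * ω * t) * ((r a - r b : ℝ) : ℂ) := by
        simp only [euler]
        push_cast
        ring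
      rw [this, norm_mul, norm_mul, Wrap.norm_exp, mul_one, Complex.norm_real, Real.norm_eq_abs]
    rw [e, e]
  intro U hU
  have hwn : 0 < ‖w‖ := norm_pos_iff.2 hw
  have hω2 : 0 < ω ^ 2 := by positivity
  have hl : 0 < ω ^ 2 * ‖w‖ ^ 3 := by positivity
  obtain ⟨d, z, L, hd0, hz0, hdd, hL, hL0, hL1, hRE, hZ, hconf⟩ :=
    norm_re hm hl h01 h12 (eqs_of_sol hw hsol)
  have hk : 0 < 1 - m 2 / (m 0 + m 1) * (1 / z ^ 2 - 1 / (1 + z) ^ 2) := by
    rw [hL1] at hL0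
    exact (mul_pos_iff_of_pos_left hμ).1 hL0
  have hz1 := za z hz0 hk hZ
  have hz4 : 1 / 4 ≤ z := by
    rw [abs_lt] at hz1
    linarith
  have hk2 := hk16 z hz4
  set m12' : ℝ := (m 0 + m 1) / L with hm12'
  set m3' : ℝ := m 2 / L with hm3'
  set a' : ℝ := m 1 / (m 0 + m 1) with ha'
  have hm3 : m3' < η₀ := by
    rw [hm3', div_lt_iff₀ hL0, hL1]
    rw [div_lt_iff₀ hμ] at hν2
    have := mul_le_mul_of_nonneg_left hk2 (mul_pos hη₀ hμ).le
    nlinarith
  obtain ⟨-, -, -, hbase⟩ := hb m12' m3' a' z hRE (div_pos m2 hL0) hm3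
    (hz1.trans_le (hε2.trans (by linarith)))
  -- the real linear map
  set κ : ℝ := |ω| with hκ
  have hκ0 : 0 < κ := abs_pos.2 hω
  set D : ℝ := ‖w‖ * d with hD
  have hD0 : 0 < D := by positivity
  have hDL : D ^ 3 * κ ^ 2 = L := by
    rw [hL, hD, hκ, sq_abs]
    ring
  have hmass : ∀ i, m i = D ^ 3 * κ ^ 2 * mass m12' m3' a' i := by
    intro i
    rw [hDL]
    unfold mass
    fin_cases i
    · simp only [Matrix.cons_val_zero, Fin.zero_eta]
      rw [hm12', ha']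
      field_simp
      ring
    · simp only [Matrix.cons_val_one, Fin.mk_one, Matrix.cons_val_zero]
      rw [hm12', ha']
      field_simp
    · simp only [Fin.reduceFinMk, Matrix.cons_val]
      rw [hm3']
      field_simp
  obtain ⟨Lm, hLm, hLr, hLi⟩ : ∃ Lm : ℂ →L[ℝ] ℂ, (∀ x, ‖Lm x‖ = D * ‖x‖) ∧
      (∀ x : ℝ, Lm ((x / d : ℝ) : ℂ) = w * x) ∧
      (∀ x : ℝ, κ • Lm (I * ((x / d : ℝ) : ℂ)) = w * (I * ω) * x) := by
    have hdc : (d : ℂ) ≠ 0 := by exact_mod_cast hd0.ne'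
    have hnd : ‖w * (d : ℂ)‖ = D := by
      rw [norm_mul, Complex.norm_real, Real.norm_eq_abs, abs_of_pos hd0]
    rcases lt_or_gt_of_ne hω with hneg | hpos
    · refine ⟨(ContinuousLinearMap.mul ℝ ℂ (w * d)).comp
        (Complex.conjCLE : ℂ →L[ℝ] ℂ), fun x => ?_, fun x => ?_, fun x => ?_⟩
      · change ‖(w * d) * (starRingEnd ℂ) x‖ = D * ‖x‖
        rw [norm_mul, hnd, RCLike.norm_conj]
      · change (w * d) * (starRingEnd ℂ) ((x / d : ℝ) : ℂ) = w * x
        rw [Complex.conj_ofReal]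
        push_cast
        field_simp
      · change κ • ((w * d) * (starRingEnd ℂ) (I * ((x / d : ℝ) : ℂ))) = w * (I * ω) * x
        rw [map_mul, Complex.conj_ofReal, Complex.conj_I, hκ, abs_of_neg hneg, Complex.real_smul]
        push_cast
        field_simp
    · refine ⟨ContinuousLinearMap.mul ℝ ℂ (w * d), fun x => ?_, fun x => ?_, fun x => ?_⟩
      · change ‖(w * d) * x‖ = D * ‖x‖
        rw [norm_mul, hnd]
      · change (w * d) * ((x / d : ℝ) : ℂ) = w * x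
        push_cast
        field_simp
      · change κ • ((w * d) * (I * ((x / d : ℝ) : ℂ))) = w * (I * ω) * x
        rw [hκ, abs_of_pos hpos, Complex.real_smul]
        push_cast
        field_simp
  set Φ : Ph → Ph := fun p => (fun i => Lm (p.1 i), fun i => κ • Lm (p.2 i)) with hΦ
  have hΦc : Continuous Φ := by
    refine Continuous.prodMk ?_ ?_
    · exact continuous_pi fun i => Lm.continuous.comp ((continuous_apply i).comp continuous_fst)
    · exact continuous_pi fun i => (Lm.continuous.comp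
        ((continuous_apply i).comp continuous_snd)).const_smul κ
  have hΦ0 : Φ (conf m12' m3' a' 1 ((1 + z - a' : ℝ) : ℂ),
      conf m12' m3' a' I ((1 + z - a' : ℝ) * I)) = euler r w ω 0 := by
    refine Prod.ext ?_ ?_
    · funext i
      simp only [hΦ, euler]
      rw [hconf, hLr]
      simp
    · funext i
      simp only [hΦ, euler]
      rw [conf_I, hconf, hLi]
      simp
  rw [← hΦ0] at hU
  obtain ⟨y, y0, ysol, yesc⟩ := hbase (Φ ⁻¹' U) (hΦc.continuousAt.preimage_mem_nhds hU)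
  refine ⟨_, ?_, forward_scale hD0 hκ0 hmass Lm hLm ysol, ?_⟩
  · have : Φ (y 0) ∈ U := y0
    simpa [hΦ] using this
  · intro R
    obtain ⟨t₀, ht₀⟩ := yesc (R / D)
    refine ⟨t₀ / κ, fun t ht => ?_⟩
    have ht' : t₀ ≤ κ * t := by
      rw [div_le_iff₀ hκ0] at ht
      linarith
    obtain ⟨q1, q2, q3⟩ := ht₀ (κ * t) ht'
    rw [div_le_iff₀ hD0] at q1 q2
    have e : ∀ i j, ‖Lm ((y (κ * t)).1 i) - Lm ((y (κ * t)).1 j)‖ =
        D * ‖(y (κ * t)).1 i - (y (κ * t)).1 j‖ := fun i j => by rw [← map_sub, hLm]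
    simp only [e]
    refine ⟨by linarith, by linarith, ?_⟩
    rw [← hdd]
    nlinarith [norm_nonneg ((y (κ * t)).1 1 - (y (κ * t)).1 0)]

theorem wrap_of_base (hb : Base) : ∃ η : ℝ, 0 < η ∧ ∀ m : Fin 3 → ℝ, (∀ i, 0 < m i) →
    m 2 < η * (m 0 + m 1) → |m 0 - 63 / 82 * (m 0 + m 1)| < η * (m 0 + m 1) →
    (∃ r : Fin 3 → ℝ, r 0 < r 1 ∧ r 1 < r 2 ∧ IsSol m (euler r 1 1)) ∧
    ∀ (r : Fin 3 → ℝ) (w : ℂ) (ω : ℝ), r 0 < r 1 → r 1 < r 2 → w ≠ 0 → ω ≠ 0 → IsSol m (euler r w ω) →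
      IsRelPeriodic (euler r w ω) ∧
      ∀ U ∈ nhds (euler r w ω 0), ∃ y : ℝ → Ph, y 0 ∈ U ∧ IsForwardSol m y ∧
        ∀ R : ℝ, ∃ t₀ : ℝ, ∀ t, t₀ ≤ t → R ≤ ‖(y t).1 2 - (y t).1 0‖ ∧
          R ≤ ‖(y t).1 2 - (y t).1 1‖ := by
  obtain ⟨η, hη, h⟩ := wrap_strong hb
  refine ⟨η, hη, fun m hm h2 h0 => ?_⟩
  obtain ⟨h3, h4⟩ := h m hm h2 h0
  refine ⟨h3, fun r w ω r1 r2 hw hω hs => ?_⟩
  obtain ⟨h5, h6⟩ := h4 r w ω r1 r2 hw hω hs
  refine ⟨h5, fun U hU => ?_⟩
  obtain ⟨y, y0, y1, y2⟩ := h6 U hU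
  refine ⟨y, y0, y1, fun R => ?_⟩
  obtain ⟨t₀, ht₀⟩ := y2 R
  exact ⟨t₀, fun t ht => ⟨(ht₀ t ht).1, (ht₀ t ht).2.1⟩⟩

end Pool.Agent.H3.TB
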