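import Pool.Agent.H3.TB.Transit
import Pool.Agent.H3.TB.Near
import Pool.Agent.H3.TB.Bin
import Pool.Agent.H3.TB.Esc
import Pool.Agent.H3.TB.Ode
import Pool.Agent.H3.TB.Chain
import Pool.Agent.H3.TB.Wrap

/-! Assembly of project 3B. -/

set_option autoImplicit false

open Complex

namespace Pool.Agent.H3.TB

theorem chain_all : S_chain :=
  chain_of (fun h x => ker_norm h x) (fun h x y => ker_lip h x y) (fun δ hδ => near δ hδ)
    (fun T δ hT hδ => binary T δ hT hδ) (fun x y th hx hy hth h0 h1 => transit x y th hx hy hth h0 h1) escape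

theorem base : Base := base_of chain_all exists_jsol

end Pool.Agent.H3.TB
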