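import Pool.Agent.H3.TB.Ker

/-! One time step of the validated integration. -/

set_option autoImplicit false

open Complex Set

namespace Pool.Agent.H3.TB

/-- the force of the restricted problem -/
noncomputable def fr (t : ℝ) (x : ℂ) : ℂ :=
  -(63 / 82 * ker (1/4) (x + 19 / 82 * cexp (I * t)) + 19 / 82 * ker (1/4) (x - 63 / 82 * cexp (I * t)))

theorem norm_eit (t : ℝ) : ‖cexp (I * t)‖ = 1 := by
  rw [mul_comm]; exact norm_exp_ofReal_mul_I t

theorem deriv_eit (t : ℝ) : HasDerivAt (fun s : ℝ => cexp (I * s)) (I * cexp (I * t)) t := by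
  have h1 : HasDerivAt (fun s : ℝ => I * (s : ℂ)) (I * 1) t := (Complex.ofRealCLM.hasDerivAt (x := t)).const_mul I
  have h2 := h1.cexp
  rw [mul_one, mul_comm] at h2
  exact h2

theorem fr_lip {t ρ₁ ρ₂ : ℝ} {x z : ℂ} (h1 : 1 / 4 ≤ ρ₁) (h2 : 1 / 4 ≤ ρ₂)
    (a1 : ρ₁ ≤ ‖x + 19 / 82 * cexp (I * t)‖) (a2 : ρ₁ ≤ ‖z + 19 / 82 * cexp (I * t)‖)
    (b1 : ρ₂ ≤ ‖x - 63 / 82 * cexp (I * t)‖) (b2 : ρ₂ ≤ ‖z - 63 / 82 * cexp (I * t)‖) :
    ‖fr t x - fr t z‖ ≤ 2 * (63 / 82 / ρ₁ ^ 3 + 19 / 82 / ρ₂ ^ 3) * ‖x - z‖ := by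
  have k1 := ker_lip_loc (by norm_num : (0:ℝ) < 1/4) h1 a1 a2
  have k2 := ker_lip_loc (by norm_num : (0:ℝ) < 1/4) h2 b1 b2
  have e1 : fr t x - fr t z = -((63 / 82 : ℝ) : ℂ) * (ker (1/4) (x + 19 / 82 * cexp (I * t)) -
      ker (1/4) (z + 19 / 82 * cexp (I * t))) - ((19 / 82 : ℝ) : ℂ) * (ker (1/4) (x - 63 / 82 * cexp (I * t)) -
      ker (1/4) (z - 63 / 82 * cexp (I * t))) := by
    unfold fr; push_cast; ring
  rw [e1]
  refine (norm_sub_le _ _).trans ?_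
  rw [norm_mul, norm_mul, norm_neg, Complex.norm_real, Complex.norm_real, Real.norm_of_nonneg (by norm_num),
    Real.norm_of_nonneg (by norm_num)]
  have e2 : x + 19 / 82 * cexp (I * t) - (z + 19 / 82 * cexp (I * t)) = x - z := by ring
  have e3 : x - 63 / 82 * cexp (I * t) - (z - 63 / 82 * cexp (I * t)) = x - z := by ring
  rw [e2] at k1
  rw [e3] at k2
  have e4 : 2 * (63 / 82 / ρ₁ ^ 3 + 19 / 82 / ρ₂ ^ 3) * ‖x - z‖ =
      63 / 82 * (2 / ρ₁ ^ 3 * ‖x - z‖) + 19 / 82 * (2 / ρ₂ ^ 3 * ‖x - z‖) := by ring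
  rw [e4]
  gcongr

theorem piece_abs {t₀ h α K b d ω ρ₁ ρ₂ e : ℝ} {W W1 W2 x y th : ℝ → ℂ} (hα : 0 < α) (hb : 0 < b)
    (hd0 : 0 ≤ d) (hω0 : 0 ≤ ω) (hK : α * b + d + ω < K * b) (hρ₁ : 1 / 4 ≤ ρ₁) (hρ₂ : 1 / 4 ≤ ρ₂)
    (hτ : 2 * (63 / 82 / ρ₁ ^ 3 + 19 / 82 / ρ₂ ^ 3) ≤ α ^ 2) (he : b * Real.exp (K * h) ≤ α * e)
    (hW : ∀ t ∈ Icc t₀ (t₀ + h), HasDerivAt W (W1 t) t) (hW1 : ∀ t ∈ Icc t₀ (t₀ + h), HasDerivAt W1 (W2 t) t)
    (hdef : ∀ t ∈ Icc t₀ (t₀ + h), ‖W2 t + 2 * I * W1 t - W t + 19 / 82 + 63 / 82 * ker (1/4) (W t) +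
      19 / 82 * ker (1/4) (W t - 1)‖ ≤ d)
    (hr1 : ∀ t ∈ Icc t₀ (t₀ + h), ρ₁ + e ≤ ‖W t‖) (hr2 : ∀ t ∈ Icc t₀ (t₀ + h), ρ₂ + e ≤ ‖W t - 1‖)
    (hx : ∀ t ∈ Icc t₀ (t₀ + h), HasDerivAt x (y t) t)
    (hy : ∀ t ∈ Icc t₀ (t₀ + h), HasDerivAt y (fr t (x t) + th t) t)
    (hth : ∀ t ∈ Icc t₀ (t₀ + h), ‖th t‖ ≤ ω)
    (h0 : α * ‖x t₀ - cexp (I * t₀) * (W t₀ - 19 / 82)‖ ≤ b)
    (h1 : ‖y t₀ - cexp (I * t₀) * (W1 t₀ + I * (W t₀ - 19 / 82))‖ ≤ b) :
    ∀ t ∈ Icc t₀ (t₀ + h), α * ‖x t - cexp (I * t) * (W t - 19 / 82)‖ ≤ b * Real.exp (K * (t - t₀)) ∧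
      ‖y t - cexp (I * t) * (W1 t + I * (W t - 19 / 82))‖ ≤ b * Real.exp (K * (t - t₀)) ∧
      ρ₁ ≤ ‖x t + 19 / 82 * cexp (I * t)‖ ∧ ρ₂ ≤ ‖x t - 63 / 82 * cexp (I * t)‖ := by
  have hαK : α < K := by
    by_contra hc
    have : K * b ≤ α * b := mul_le_mul_of_nonneg_right (not_lt.mp hc) hb.le
    linarith
  have hK0 : 0 < K := hα.trans hαK
  obtain ⟨f, hf⟩ : ∃ f : ℝ → ℂ × ℂ, f = fun t => ((α : ℂ) * (x t - cexp (I * t) * (W t - 19 / 82)),
    y t - cexp (I * t) * (W1 t + I * (W t - 19 / 82))) := ⟨_, rfl⟩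
  obtain ⟨f', hf'⟩ : ∃ f' : ℝ → ℂ × ℂ, f' = fun t => ((α : ℂ) * (y t - cexp (I * t) * (W1 t + I * (W t - 19 / 82))),
    fr t (x t) + th t - (I * cexp (I * t) * (W1 t + I * (W t - 19 / 82)) + cexp (I * t) * (W2 t + I * W1 t))) :=
    ⟨_, rfl⟩
  have hn1 : ∀ t, ‖(f t).1‖ = α * ‖x t - cexp (I * t) * (W t - 19 / 82)‖ := by
    intro t; rw [hf]; simp only [norm_mul, Complex.norm_real, Real.norm_of_nonneg hα.le]
  have hn2 : ∀ t, ‖(f t).2‖ = ‖y t - cexp (I * t) * (W1 t + I * (W t - 19 / 82))‖ := by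
    intro t; rw [hf]
  have hder : ∀ t ∈ Icc t₀ (t₀ + h), HasDerivAt f (f' t) t := by
    intro t ht
    rw [hf, hf']
    have c1 := (hW t ht).sub_const (19 / 82 : ℂ)
    have c2 := (deriv_eit t).mul c1
    have c3 := ((hx t ht).sub c2).const_mul (α : ℂ)
    have c4 := (hW1 t ht).add (c1.const_mul I)
    have c5 := (hy t ht).sub ((deriv_eit t).mul c4)
    refine HasDerivAt.prodMk ?_ ?_
    · exact c3.congr_deriv (by ring)
    · exact c5
  -- the estimate in the tube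
  have key : ∀ t ∈ Icc t₀ (t₀ + h), ‖f t‖ ≤ b * Real.exp (K * (t - t₀)) →
      ρ₁ ≤ ‖x t + 19 / 82 * cexp (I * t)‖ ∧ ρ₂ ≤ ‖x t - 63 / 82 * cexp (I * t)‖ ∧
      ‖f' t‖ < K * (b * Real.exp (K * (t - t₀))) := by
    intro t ht hft
    have hexp1 : 1 ≤ Real.exp (K * (t - t₀)) := Real.one_le_exp (mul_nonneg hK0.le (by linarith [ht.1]))
    have hexp2 : Real.exp (K * (t - t₀)) ≤ Real.exp (K * h) :=
      Real.exp_le_exp.mpr (mul_le_mul_of_nonneg_left (by linarith [ht.2]) hK0.le)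
    obtain ⟨B, hB⟩ : ∃ B, B = b * Real.exp (K * (t - t₀)) := ⟨_, rfl⟩
    rw [← hB] at hft ⊢
    have hbB : b ≤ B := by rw [hB]; nlinarith
    have hBe : B ≤ α * e := by
      refine le_trans ?_ he
      rw [hB]
      exact mul_le_mul_of_nonneg_left hexp2 hb.le
    have p1 : α * ‖x t - cexp (I * t) * (W t - 19 / 82)‖ ≤ B := by
      rw [← hn1]; exact (norm_fst_le _).trans hft
    have p2 : ‖y t - cexp (I * t) * (W1 t + I * (W t - 19 / 82))‖ ≤ B := by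
      rw [← hn2]; exact (norm_snd_le _).trans hft
    have p3 : ‖x t - cexp (I * t) * (W t - 19 / 82)‖ ≤ e := by
      have := p1.trans hBe
      exact le_of_mul_le_mul_left this hα
    have q1 : ‖cexp (I * t) * (W t - 19 / 82) + 19 / 82 * cexp (I * t)‖ = ‖W t‖ := by
      have : cexp (I * t) * (W t - 19 / 82) + 19 / 82 * cexp (I * t) = cexp (I * t) * W t := by ring
      rw [this, norm_mul, norm_eit, one_mul]
    have q2 : ‖cexp (I * t) * (W t - 19 / 82) - 63 / 82 * cexp (I * t)‖ = ‖W t - 1‖ := by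
      have : cexp (I * t) * (W t - 19 / 82) - 63 / 82 * cexp (I * t) = cexp (I * t) * (W t - 1) := by ring
      rw [this, norm_mul, norm_eit, one_mul]
    have he0 : 0 ≤ e := (norm_nonneg _).trans p3
    have r1 : ρ₁ ≤ ‖x t + 19 / 82 * cexp (I * t)‖ := by
      have s1 : cexp (I * t) * (W t - 19 / 82) + 19 / 82 * cexp (I * t) =
          (x t + 19 / 82 * cexp (I * t)) - (x t - cexp (I * t) * (W t - 19 / 82)) := by ring
      have s2 := norm_sub_le (x t + 19 / 82 * cexp (I * t)) (x t - cexp (I * t) * (W t - 19 / 82))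
      rw [← s1, q1] at s2
      have := hr1 t ht
      linarith
    have r2 : ρ₂ ≤ ‖x t - 63 / 82 * cexp (I * t)‖ := by
      have s1 : cexp (I * t) * (W t - 19 / 82) - 63 / 82 * cexp (I * t) =
          (x t - 63 / 82 * cexp (I * t)) - (x t - cexp (I * t) * (W t - 19 / 82)) := by ring
      have s2 := norm_sub_le (x t - 63 / 82 * cexp (I * t)) (x t - cexp (I * t) * (W t - 19 / 82))
      rw [← s1, q2] at s2
      have := hr2 t ht
      linarith
    have hlip := fr_lip hρ₁ hρ₂ r1 (by rw [q1]; linarith [hr1 t ht]) r2 (by rw [q2]; linarith [hr2 t ht])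
    have hfa : fr t (cexp (I * t) * (W t - 19 / 82)) =
        -(cexp (I * t) * (63 / 82 * ker (1/4) (W t) + 19 / 82 * ker (1/4) (W t - 1))) := by
      unfold fr
      have s1 : cexp (I * t) * (W t - 19 / 82) + 19 / 82 * cexp (I * t) = cexp (I * t) * W t := by ring
      have s2 : cexp (I * t) * (W t - 19 / 82) - 63 / 82 * cexp (I * t) = cexp (I * t) * (W t - 1) := by ring
      rw [s1, s2, ker_rot (norm_eit t), ker_rot (norm_eit t)]
      ring
    refine ⟨r1, r2, ?_⟩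
    have g1 : ‖(f' t).1‖ < K * B := by
      rw [hf']
      simp only [norm_mul, Complex.norm_real, Real.norm_of_nonneg hα.le]
      have : α * ‖y t - cexp (I * t) * (W1 t + I * (W t - 19 / 82))‖ ≤ α * B := mul_le_mul_of_nonneg_left p2 hα.le
      have hB0 : 0 < B := hb.trans_le hbB
      nlinarith
    have g2 : ‖(f' t).2‖ < K * B := by
      have s1 : (f' t).2 = (fr t (x t) - fr t (cexp (I * t) * (W t - 19 / 82))) + th t -
          cexp (I * t) * (W2 t + 2 * I * W1 t - W t + 19 / 82 + 63 / 82 * ker (1/4) (W t) +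
            19 / 82 * ker (1/4) (W t - 1)) := by
        rw [hf', hfa]
        simp only
        linear_combination (-(cexp (I * t)) * (W t - 19 / 82)) * I_mul_I
      rw [s1]
      have s2 : ‖fr t (x t) - fr t (cexp (I * t) * (W t - 19 / 82))‖ ≤ α * B := by
        refine hlip.trans ?_
        calc 2 * (63 / 82 / ρ₁ ^ 3 + 19 / 82 / ρ₂ ^ 3) * ‖x t - cexp (I * t) * (W t - 19 / 82)‖
            ≤ α ^ 2 * ‖x t - cexp (I * t) * (W t - 19 / 82)‖ := by gcongr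
          _ = α * (α * ‖x t - cexp (I * t) * (W t - 19 / 82)‖) := by ring
          _ ≤ α * B := by gcongr
      have s3 : ‖cexp (I * t) * (W2 t + 2 * I * W1 t - W t + 19 / 82 + 63 / 82 * ker (1/4) (W t) +
            19 / 82 * ker (1/4) (W t - 1))‖ ≤ d := by
        rw [norm_mul, norm_eit, one_mul]; exact hdef t ht
      have s4 := norm_sub_le ((fr t (x t) - fr t (cexp (I * t) * (W t - 19 / 82))) + th t)
        (cexp (I * t) * (W2 t + 2 * I * W1 t - W t + 19 / 82 + 63 / 82 * ker (1/4) (W t) +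
            19 / 82 * ker (1/4) (W t - 1)))
      have s5 := norm_add_le (fr t (x t) - fr t (cexp (I * t) * (W t - 19 / 82))) (th t)
      have s6 := hth t ht
      nlinarith
    rw [Prod.norm_def]
    exact max_lt g1 g2
  have hmain : ∀ ⦃t⦄, t ∈ Icc t₀ (t₀ + h) → ‖f t‖ ≤ b * Real.exp (K * (t - t₀)) := by
    refine image_norm_le_of_norm_deriv_right_lt_deriv_boundary' (f := f) (f' := f')
      (B := fun t => b * Real.exp (K * (t - t₀))) (B' := fun t => K * (b * Real.exp (K * (t - t₀))))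
      (fun t ht => (hder t ht).continuousAt.continuousWithinAt)
      (fun t ht => (hder t (Ico_subset_Icc_self ht)).hasDerivWithinAt) ?_ ?_ ?_ ?_
    · rw [Prod.norm_def]
      refine max_le ?_ ?_
      · rw [hn1]; simpa using h0
      · rw [hn2]; simpa using h1
    · exact Continuous.continuousOn (by fun_prop)
    · intro t _
      have c1 : HasDerivAt (fun t : ℝ => K * (t - t₀)) (K * 1) t := ((hasDerivAt_id t).sub_const t₀).const_mul K
      have c2 := (c1.exp).const_mul b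
      exact HasDerivAt.hasDerivWithinAt (c2.congr_deriv (by ring))
    · intro t ht hft
      exact (key t (Ico_subset_Icc_self ht) hft.le).2.2
  intro t ht
  have h2 := hmain ht
  have h3 := key t ht h2
  refine ⟨?_, ?_, h3.1, h3.2.1⟩
  · rw [← hn1]; exact (norm_fst_le _).trans h2
  · rw [← hn2]; exact (norm_snd_le _).trans h2

end Pool.Agent.H3.TB
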