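import Pool.Agent.H3.TB.Poly
import Pool.Agent.H3.TB.Piece

/-! The checker for one time step and its soundness. -/

set_option autoImplicit false

open Complex Set

namespace Pool.Agent.H3.TB

/-- data of one time step of length `1/2` -/
structure Pc where
  wr : List ℤ
  wi : List ℤ
  p : List ℤ
  q : List ℤ
  al : ℕ
  ka : ℕ
  b : ℕ
  d : ℕ
  ee : ℕ
  r1 : ℕ
  r2 : ℕ
  n1 : ℕ
  n2 : ℕ
  e1 : ℕ
  e2 : ℕ

/-- `2^80`, the scale of the coefficients -/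
def OO : ℤ := 2 ^ 80

/-- `|W|^2` -/
def pA (c : Pc) : List ℤ := padd (pmul c.wr c.wr) (pmul c.wi c.wi)
/-- `W - 1`, real part -/
def pw1 (c : Pc) : List ℤ := padd c.wr [-OO]
/-- `|W - 1|^2` -/
def pB (c : Pc) : List ℤ := padd (pmul (pw1 c) (pw1 c)) (pmul c.wi c.wi)
/-- `P^3` -/
def pp3 (c : Pc) : List ℤ := pmul (pmul c.p c.p) c.p
/-- `Q^3` -/
def pq3 (c : Pc) : List ℤ := pmul (pmul c.q c.q) c.q
/-- real part of the defect, times `82 * 2^320` -/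
def pdr (c : Pc) : List ℤ :=
  padd (padd (psmul (82 * 16 * OO ^ 3) (pder (pder c.wr))) (psmul (-(82 * 8 * OO ^ 3)) (pder c.wi)))
    (padd (padd (psmul (-(82 * OO ^ 3)) c.wr) [19 * OO ^ 4])
      (padd (psmul 63 (pmul c.wr (pp3 c))) (psmul 19 (pmul (pw1 c) (pq3 c)))))
/-- imaginary part of the defect, times `82 * 2^320` -/
def pdi (c : Pc) : List ℤ :=
  padd (padd (psmul (82 * 16 * OO ^ 3) (pder (pder c.wi))) (psmul (82 * 8 * OO ^ 3) (pder c.wr)))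
    (padd (psmul (-(82 * OO ^ 3)) c.wi)
      (padd (psmul 63 (pmul c.wi (pp3 c))) (psmul 19 (pmul c.wi (pq3 c)))))

/-- the check of one time step -/
def chk (c : Pc) : Bool :=
  decide (pnrm (padd (pmul (pmul c.p c.p) (pA c)) [-OO ^ 4]) ≤ c.e1 * OO ^ 3) &&
  decide (pnrm (padd (pmul (pmul c.q c.q) (pB c)) [-OO ^ 4]) ≤ c.e2 * OO ^ 3) &&
  decide (100 * (c.e1 : ℤ) ≤ OO) && decide (100 * (c.e2 : ℤ) ≤ OO) &&
  decide (0 < plow c.p) && decide (0 < plow c.q) &&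
  decide (pnrm c.p ≤ OO) && decide (10 * pnrm c.q ≤ 21 * OO) &&
  decide ((c.r1 : ℤ) ^ 2 * 2 ^ 120 ≤ plow (pA c)) && decide ((c.r2 : ℤ) ^ 2 * 2 ^ 120 ≤ plow (pB c)) &&
  decide (9 * 2 ^ 20 ≤ 20 * c.n1) && decide (9 * 2 ^ 20 ≤ 20 * c.n2) &&
  decide (c.n1 * 2 ^ 40 + c.ee ≤ c.r1 * 2 ^ 40) && decide (c.n2 * 2 ^ 40 + c.ee ≤ c.r2 * 2 ^ 40) &&
  decide (c.b * 64 ^ (c.ka + 1) ≤ c.al * 63 ^ c.ka * c.ee * 2 ^ 40) &&
  decide (2 * 4096 * 2 ^ 60 * (63 * c.n2 ^ 3 + 19 * c.n1 ^ 3) ≤ c.al ^ 2 * 82 * c.n1 ^ 3 * c.n2 ^ 3) &&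
  decide (pnrm (pdr c) + pnrm (pdi c) + 82 * (2 * c.e1 + 3 * c.e2) * OO ^ 3 ≤ 82 * (c.d : ℤ) * 2 ^ 220) &&
  decide (c.al * c.b + 64 * (c.d + 12676506003) < 2 * c.ka * c.b) && decide (0 < c.al) && decide (0 < c.b)

/-- the approximate solution (rotating coordinates, centred at the first body), `θ ∈ [-1, 1]` -/
noncomputable def Wc (c : Pc) (θ : ℝ) : ℂ := ((ev c.wr θ / 2 ^ 80 : ℝ) : ℂ) + ((ev c.wi θ / 2 ^ 80 : ℝ) : ℂ) * I
/-- its first derivative with respect to `t` -/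
noncomputable def Wc1 (c : Pc) (θ : ℝ) : ℂ :=
  ((4 * ev (pder c.wr) θ / 2 ^ 80 : ℝ) : ℂ) + ((4 * ev (pder c.wi) θ / 2 ^ 80 : ℝ) : ℂ) * I
/-- its second derivative with respect to `t` -/
noncomputable def Wc2 (c : Pc) (θ : ℝ) : ℂ :=
  ((16 * ev (pder (pder c.wr)) θ / 2 ^ 80 : ℝ) : ℂ) + ((16 * ev (pder (pder c.wi)) θ / 2 ^ 80 : ℝ) : ℂ) * I

theorem hasDerivAt_lin (p : List ℤ) (t₀ t : ℝ) :
    HasDerivAt (fun s : ℝ => ev p (4 * (s - t₀) - 1)) (4 * ev (pder p) (4 * (t - t₀) - 1)) t := by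
  have h1 : HasDerivAt (fun s : ℝ => 4 * (s - t₀) - 1) (4 * 1) t :=
    (((hasDerivAt_id t).sub_const t₀).const_mul 4).sub_const 1
  have h2 := (hasDerivAt_ev p (4 * (t - t₀) - 1)).comp t h1
  exact h2.congr_deriv (by ring)

theorem hasDerivAt_cx {f g : ℝ → ℝ} {f' g' t : ℝ} (hf : HasDerivAt f f' t) (hg : HasDerivAt g g' t) :
    HasDerivAt (fun s => ((f s : ℝ) : ℂ) + ((g s : ℝ) : ℂ) * I) ((f' : ℂ) + (g' : ℂ) * I) t :=
  hf.ofReal_comp.add (hg.ofReal_comp.mul_const I)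

theorem hasDerivAt_Wc (c : Pc) (t₀ t : ℝ) :
    HasDerivAt (fun s : ℝ => Wc c (4 * (s - t₀) - 1)) (Wc1 c (4 * (t - t₀) - 1)) t :=
  hasDerivAt_cx ((hasDerivAt_lin c.wr t₀ t).div_const _) ((hasDerivAt_lin c.wi t₀ t).div_const _)

theorem hasDerivAt_Wc1 (c : Pc) (t₀ t : ℝ) :
    HasDerivAt (fun s : ℝ => Wc1 c (4 * (s - t₀) - 1)) (Wc2 c (4 * (t - t₀) - 1)) t := by
  have h1 := ((hasDerivAt_lin (pder c.wr) t₀ t).const_mul 4).div_const (2 ^ 80)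
  have h2 := ((hasDerivAt_lin (pder c.wi) t₀ t).const_mul 4).div_const (2 ^ 80)
  refine (hasDerivAt_cx h1 h2).congr_deriv ?_
  unfold Wc2
  congr 2
  · congr 1; ring
  · congr 1; ring

theorem norm_cx_sq (x y : ℝ) : ‖(x : ℂ) + (y : ℂ) * I‖ ^ 2 = x ^ 2 + y ^ 2 := by
  rw [← Complex.normSq_eq_norm_sq, Complex.normSq_add_mul_I]

theorem norm_cx_le (x y : ℝ) : ‖(x : ℂ) + (y : ℂ) * I‖ ≤ |x| + |y| := by
  refine (norm_add_le _ _).trans ?_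
  rw [norm_mul, Complex.norm_I, mul_one, Complex.norm_real, Complex.norm_real, Real.norm_eq_abs, Real.norm_eq_abs]

theorem ker_poly {W : ℂ} {P η Pm : ℝ} (hP : 0 < P) (hη : η ≤ 1 / 100) (h : |P ^ 2 * ‖W‖ ^ 2 - 1| ≤ η)
    (hW : 1 / 4 ≤ ‖W‖) (hPm : P ≤ Pm) : ‖ker (1/4) W - ((P ^ 3 : ℝ) : ℂ) * W‖ ≤ 21 / 10 * η * Pm ^ 2 := by
  obtain ⟨r, hr⟩ : ∃ r, r = ‖W‖ := ⟨_, rfl⟩
  rw [← hr] at h hW
  have hr0 : 0 < r := by linarith
  rw [ker_eq (by rw [← hr]; exact hW), ← hr]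
  have e1 : ((1 / r ^ 3 : ℝ) : ℂ) * W - ((P ^ 3 : ℝ) : ℂ) * W = ((1 / r ^ 3 - P ^ 3 : ℝ) : ℂ) * W := by
    push_cast; ring
  rw [e1, norm_mul, Complex.norm_real, ← hr, Real.norm_eq_abs]
  obtain ⟨s, hs⟩ : ∃ s, s = P * r := ⟨_, rfl⟩
  have hs0 : 0 < s := by rw [hs]; positivity
  have e2 : |s ^ 2 - 1| ≤ η := by rw [hs, mul_pow]; exact h
  have hη0 : 0 ≤ η := (abs_nonneg _).trans e2
  have e3 : |s - 1| * (s + 1) ≤ η := by
    have : |s - 1| * (s + 1) = |s ^ 2 - 1| := by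
      rw [show s ^ 2 - 1 = (s - 1) * (s + 1) by ring, abs_mul, abs_of_pos (by linarith : 0 < s + 1)]
    rw [this]; exact e2
  have e4 : |s - 1| ≤ η := by nlinarith [abs_nonneg (s - 1)]
  have e5 := abs_le.mp e4
  have s1 : 99 / 100 ≤ s := by linarith
  have s2 : s ≤ 101 / 100 := by linarith
  have e6 : |s - 1| ≤ η / (199 / 100) := by
    rw [le_div_iff₀ (by norm_num)]
    nlinarith [abs_nonneg (s - 1)]
  have e7 : 1 / r ^ 3 - P ^ 3 = P ^ 3 * ((1 - s) * (1 + s + s ^ 2) / s ^ 3) := by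
    rw [hs]; field_simp; ring
  have e8 : |1 / r ^ 3 - P ^ 3| * r = P ^ 2 * (|s - 1| * (1 + s + s ^ 2) / s ^ 2) := by
    rw [e7, abs_mul, abs_of_pos (by positivity : 0 < P ^ 3), abs_div, abs_mul,
      abs_of_pos (by positivity : 0 < 1 + s + s ^ 2), abs_of_pos (by positivity : 0 < s ^ 3), abs_sub_comm]
    have : r = s / P := by rw [hs]; field_simp
    rw [this]
    field_simp
  rw [e8]
  have e9 : |s - 1| * (1 + s + s ^ 2) / s ^ 2 ≤ 21 / 10 * η := by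
    rw [div_le_iff₀ (by positivity)]
    have f1 : 1 + s + s ^ 2 ≤ 304 / 100 := by nlinarith
    have f2 : (98 : ℝ) / 100 ≤ s ^ 2 := by nlinarith
    calc |s - 1| * (1 + s + s ^ 2) ≤ η / (199 / 100) * (304 / 100) := by gcongr
      _ ≤ 21 / 10 * η * (98 / 100) := by nlinarith
      _ ≤ 21 / 10 * η * s ^ 2 := by gcongr
  calc P ^ 2 * (|s - 1| * (1 + s + s ^ 2) / s ^ 2) ≤ Pm ^ 2 * (21 / 10 * η) := by gcongr
    _ = _ := by ring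

end Pool.Agent.H3.TB
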