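import Pool.Agent.H3.TB.Defs

/-!
Project 3B, stub CONF: from Jacobi coordinates to the three-body problem. Author: helper29.
-/

set_option autoImplicit false

open Complex

namespace Pool.Agent.H3.TB

/-- Newton's kernel -/
noncomputable def nk (x : ℂ) : ℂ := ((1 / ‖x‖ ^ 3 : ℝ) : ℂ) * x

theorem nk_neg (x : ℂ) : nk (-x) = -nk x := by
  unfold nk
  rw [norm_neg]
  ring

theorem ker_eq_nk {ε : ℝ} {x : ℂ} (h : ε ≤ ‖x‖) : ker ε x = nk x := by
  unfold ker nk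
  rw [max_eq_right h]

theorem nk_smul {r : ℝ} (hr : 0 < r) {x : ℂ} (hx : ‖x‖ = 1) : nk ((r : ℂ) * x) = ((1 / r ^ 2 : ℝ) : ℂ) * x := by
  unfold nk
  rw [norm_mul, hx, mul_one, Complex.norm_real, Real.norm_of_nonneg hr.le, ← mul_assoc, ← Complex.ofReal_mul]
  congr 2
  field_simp

theorem acc_eq (m : Fin 3 → ℝ) (q : Fin 3 → ℂ) :
    acc m q = ![(m 1 : ℂ) * nk (q 1 - q 0) + (m 2 : ℂ) * nk (q 2 - q 0),
      (m 0 : ℂ) * nk (q 0 - q 1) + (m 2 : ℂ) * nk (q 2 - q 1),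
      (m 0 : ℂ) * nk (q 0 - q 2) + (m 1 : ℂ) * nk (q 1 - q 2)] := by
  have h : ∀ (μ : ℝ) (w : ℂ), ((μ / ‖w‖ ^ 3 : ℝ) : ℂ) * w = (μ : ℂ) * nk w := by
    intro μ w
    unfold nk
    rw [← mul_assoc, ← Complex.ofReal_mul]
    congr 2
    ring
  funext i
  unfold acc
  simp only [h]
  fin_cases i
  · rw [show (Finset.univ.erase (⟨0, by norm_num⟩ : Fin 3)) = {1, 2} by decide, Finset.sum_pair (by decide)]
    rfl
  · rw [show (Finset.univ.erase (⟨1, by norm_num⟩ : Fin 3)) = {0, 2} by decide, Finset.sum_pair (by decide)]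
    rfl
  · rw [show (Finset.univ.erase (⟨2, by norm_num⟩ : Fin 3)) = {0, 1} by decide, Finset.sum_pair (by decide)]
    rfl

/-- the Newtonian acceleration in Jacobi coordinates -/
theorem acc_conf {m12 m3 a : ℝ} (hM : m12 + m3 ≠ 0) (u x : ℂ) :
    acc (mass m12 m3 a) (conf m12 m3 a u x) = conf m12 m3 a
      (-(m12 : ℂ) * nk u + (m3 : ℂ) * (nk (x - (1 - (a : ℂ)) * u) - nk (x + (a : ℂ) * u)))
      (-((m12 : ℂ) + (m3 : ℂ)) * ((1 - (a : ℂ)) * nk (x + (a : ℂ) * u) + (a : ℂ) * nk (x - (1 - (a : ℂ)) * u))) := by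
  have hMc : (m12 : ℂ) + (m3 : ℂ) ≠ 0 := by exact_mod_cast hM
  have e10 : conf m12 m3 a u x 1 - conf m12 m3 a u x 0 = u := by
    simp only [conf, Matrix.cons_val_zero, Matrix.cons_val_one]
    ring
  have e20 : conf m12 m3 a u x 2 - conf m12 m3 a u x 0 = x + (a : ℂ) * u := by
    simp only [conf, Matrix.cons_val_zero, Matrix.cons_val]
    push_cast
    field_simp
    ring
  have e21 : conf m12 m3 a u x 2 - conf m12 m3 a u x 1 = x - (1 - (a : ℂ)) * u := by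
    simp only [conf, Matrix.cons_val_one, Matrix.cons_val]
    push_cast
    field_simp
    ring
  have e01 : conf m12 m3 a u x 0 - conf m12 m3 a u x 1 = -u := by rw [← neg_sub, e10]
  have e02 : conf m12 m3 a u x 0 - conf m12 m3 a u x 2 = -(x + (a : ℂ) * u) := by rw [← neg_sub, e20]
  have e12 : conf m12 m3 a u x 1 - conf m12 m3 a u x 2 = -(x - (1 - (a : ℂ)) * u) := by
    rw [← neg_sub, e21]
  rw [acc_eq, e10, e20, e21, e01, e02, e12, nk_neg, nk_neg, nk_neg]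
  funext i
  fin_cases i
  · simp only [conf, mass, Matrix.cons_val_zero, Matrix.cons_val_one, Matrix.cons_val, Fin.zero_eta]
    push_cast
    field_simp
    ring
  · simp only [conf, mass, Matrix.cons_val_zero, Matrix.cons_val_one, Matrix.cons_val, Fin.mk_one]
    push_cast
    field_simp
    ring
  · simp only [conf, mass, Matrix.cons_val_zero, Matrix.cons_val_one, Matrix.cons_val, Fin.reduceFinMk]
    push_cast
    field_simp
    ring

theorem conf_com {m12 m3 a : ℝ} (hM : m12 + m3 ≠ 0) (u x : ℂ) :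
    ∑ i, (mass m12 m3 a i : ℂ) * conf m12 m3 a u x i = 0 := by
  have hMc : (m12 : ℂ) + (m3 : ℂ) ≠ 0 := by exact_mod_cast hM
  rw [Fin.sum_univ_three]
  simp only [conf, mass, Matrix.cons_val_zero, Matrix.cons_val_one, Matrix.cons_val]
  push_cast
  field_simp
  ring

theorem conf_ne {m12 m3 a : ℝ} (hM : m12 + m3 ≠ 0) {u x : ℂ} (h0 : u ≠ 0) (h1 : x + (a : ℂ) * u ≠ 0)
    (h2 : x - (1 - (a : ℂ)) * u ≠ 0) (i j : Fin 3) (hij : i ≠ j) : conf m12 m3 a u x i ≠ conf m12 m3 a u x j := by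
  have hMc : (m12 : ℂ) + (m3 : ℂ) ≠ 0 := by exact_mod_cast hM
  have e10 : conf m12 m3 a u x 1 - conf m12 m3 a u x 0 = u := by
    simp only [conf, Matrix.cons_val_zero, Matrix.cons_val_one]
    ring
  have e20 : conf m12 m3 a u x 2 - conf m12 m3 a u x 0 = x + (a : ℂ) * u := by
    simp only [conf, Matrix.cons_val_zero, Matrix.cons_val]
    push_cast
    field_simp
    ring
  have e21 : conf m12 m3 a u x 2 - conf m12 m3 a u x 1 = x - (1 - (a : ℂ)) * u := by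
    simp only [conf, Matrix.cons_val_one, Matrix.cons_val]
    push_cast
    field_simp
    ring
  have g10 : conf m12 m3 a u x 1 ≠ conf m12 m3 a u x 0 := sub_ne_zero.1 (by rw [e10]; exact h0)
  have g20 : conf m12 m3 a u x 2 ≠ conf m12 m3 a u x 0 := sub_ne_zero.1 (by rw [e20]; exact h1)
  have g21 : conf m12 m3 a u x 2 ≠ conf m12 m3 a u x 1 := sub_ne_zero.1 (by rw [e21]; exact h2)
  fin_cases i <;> fin_cases j
  · exact absurd rfl hij
  · exact g10.symm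
  · exact g20.symm
  · exact g10
  · exact absurd rfl hij
  · exact g21.symm
  · exact g20
  · exact g21
  · exact absurd rfl hij

theorem conf_deriv {m12 m3 a : ℝ} {u x : ℝ → ℂ} {u' x' : ℂ} {t : ℝ} (hu : HasDerivAt u u' t)
    (hx : HasDerivAt x x' t) :
    HasDerivAt (fun t => conf m12 m3 a (u t) (x t)) (conf m12 m3 a u' x') t := by
  rw [hasDerivAt_pi]
  intro i
  fin_cases i
  · exact (hx.const_mul _).sub (hu.const_mul _)
  · exact (hx.const_mul _).add (hu.const_mul _)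
  · exact hx.const_mul _

theorem sol_at {m12 m3 a : ℝ} (hM : m12 + m3 ≠ 0) {u v x y : ℝ → ℂ} {t : ℝ}
    (du : HasDerivAt u (v t) t) (dx : HasDerivAt x (y t) t)
    (dv : HasDerivAt v (-(m12 : ℂ) * nk (u t) + (m3 : ℂ) * (nk (x t - (1 - (a : ℂ)) * u t) -
      nk (x t + (a : ℂ) * u t))) t)
    (dy : HasDerivAt y (-((m12 : ℂ) + (m3 : ℂ)) * ((1 - (a : ℂ)) * nk (x t + (a : ℂ) * u t) +
      (a : ℂ) * nk (x t - (1 - (a : ℂ)) * u t))) t)
    (h0 : u t ≠ 0) (h1 : x t + (a : ℂ) * u t ≠ 0) (h2 : x t - (1 - (a : ℂ)) * u t ≠ 0) :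
    (conf m12 m3 a (u t) (x t), conf m12 m3 a (v t) (y t)) ∈ phaseSpace (mass m12 m3 a) ∧
    HasDerivAt (fun t => ((conf m12 m3 a (u t) (x t), conf m12 m3 a (v t) (y t)) : Ph))
      (conf m12 m3 a (v t) (y t), acc (mass m12 m3 a) (conf m12 m3 a (u t) (x t))) t := by
  refine ⟨⟨fun i j hij => conf_ne hM h0 h1 h2 i j hij, conf_com hM _ _, conf_com hM _ _⟩, ?_⟩
  rw [acc_conf hM]
  exact (conf_deriv du dx).prodMk (conf_deriv dv dy)

theorem of_jsol {m12 m3 a : ℝ} (h12 : 0 < m12) (h3 : 0 < m3) (ha : 0 < a) (ha1 : a < 1) {u v x y : ℝ → ℂ}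
    (h : JSol m12 m3 a u v x y)
    (hd : ∀ t, 0 ≤ t → 2 / 5 ≤ ‖u t‖ ∧ 2 / 5 ≤ ‖x t + (a : ℂ) * u t‖ ∧ 2 / 5 ≤ ‖x t - (1 - (a : ℂ)) * u t‖) :
    IsForwardSol (mass m12 m3 a) (fun t => (conf m12 m3 a (u t) (x t), conf m12 m3 a (v t) (y t))) := by
  have hM : m12 + m3 ≠ 0 := by linarith
  have hu : Continuous u := continuous_iff_continuousAt.2 fun t => (h.du t).continuousAt
  have hx : Continuous x := continuous_iff_continuousAt.2 fun t => (h.dx t).continuousAt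
  have hev : ∀ᶠ t in nhds (0 : ℝ), 1 / 4 < ‖u t‖ ∧ 1 / 4 < ‖x t + (a : ℂ) * u t‖ ∧
      1 / 4 < ‖x t - (1 - (a : ℂ)) * u t‖ := by
    obtain ⟨g1, g2, g3⟩ := hd 0 le_rfl
    refine Filter.Eventually.and ?_ (Filter.Eventually.and ?_ ?_)
    · exact continuousAt_const.eventually_lt hu.norm.continuousAt (by linarith)
    · exact continuousAt_const.eventually_lt
        (hx.add (continuous_const.mul hu)).norm.continuousAt (by linarith)
    · exact continuousAt_const.eventually_lt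
        (hx.sub (continuous_const.mul hu)).norm.continuousAt (by linarith)
  obtain ⟨η, hη, hηb⟩ := Metric.eventually_nhds_iff.1 hev
  refine ⟨η, hη, fun t ht => ?_⟩
  have hb : 1 / 4 < ‖u t‖ ∧ 1 / 4 < ‖x t + (a : ℂ) * u t‖ ∧ 1 / 4 < ‖x t - (1 - (a : ℂ)) * u t‖ := by
    rcases le_or_gt 0 t with h0 | h0
    · obtain ⟨g1, g2, g3⟩ := hd t h0
      exact ⟨by linarith, by linarith, by linarith⟩
    · apply hηb
      rw [Real.dist_eq, sub_zero, abs_lt]
      exact ⟨ht, by linarith⟩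
  obtain ⟨g1, g2, g3⟩ := hb
  have k1 := ker_eq_nk g1.le
  have k2 := ker_eq_nk g2.le
  have k3 := ker_eq_nk g3.le
  have dv := h.dv t
  have dy := h.dy t
  unfold fu at dv
  unfold fx at dy
  rw [k1, k2, k3] at dv
  rw [k2, k3] at dy
  refine sol_at hM (h.du t) (h.dx t) dv dy ?_ ?_ ?_
  · exact norm_pos_iff.1 (by linarith)
  · exact norm_pos_iff.1 (by linarith)
  · exact norm_pos_iff.1 (by linarith)

theorem re_sol {m12 m3 a z : ℝ} (h12 : 0 < m12) (h3 : 0 < m3) (ha : 0 < a) (ha1 : a < 1)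
    (h : IsRE m12 m3 a z) :
    IsSol (mass m12 m3 a) (fun t => (conf m12 m3 a (cexp (I * t)) ((1 + z - a : ℝ) * cexp (I * t)),
      conf m12 m3 a (I * cexp (I * t)) ((1 + z - a : ℝ) * (I * cexp (I * t))))) ∧
    IsRelPeriodic (fun t => (conf m12 m3 a (cexp (I * t)) ((1 + z - a : ℝ) * cexp (I * t)),
      conf m12 m3 a (I * cexp (I * t)) ((1 + z - a : ℝ) * (I * cexp (I * t))))) := by
  obtain ⟨hz, hm, hb⟩ := h
  have hM : m12 + m3 ≠ 0 := by linarith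
  have hMc : (m12 : ℂ) + (m3 : ℂ) ≠ 0 := by exact_mod_cast hM
  have hn : ∀ t : ℝ, ‖cexp (I * t)‖ = 1 := by
    intro t
    rw [mul_comm]
    exact Complex.norm_exp_ofReal_mul_I t
  have e1 : ∀ t : ℝ, ((1 + z - a : ℝ) : ℂ) * cexp (I * t) + (a : ℂ) * cexp (I * t) =
      ((1 + z : ℝ) : ℂ) * cexp (I * t) := by
    intro t; push_cast; ring
  have e2 : ∀ t : ℝ, ((1 + z - a : ℝ) : ℂ) * cexp (I * t) - (1 - (a : ℂ)) * cexp (I * t) =
      ((z : ℝ) : ℂ) * cexp (I * t) := by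
    intro t; push_cast; ring
  have hde : ∀ t : ℝ, HasDerivAt (fun t : ℝ => cexp (I * t)) (I * cexp (I * t)) t := by
    intro t
    have h1 : HasDerivAt (fun t : ℝ => I * (t : ℂ)) (I * 1) t := (Complex.ofRealCLM.hasDerivAt).const_mul I
    have h2 := h1.cexp
    rw [mul_one, mul_comm] at h2
    exact h2
  constructor
  · intro t
    have hne : cexp (I * t) ≠ 0 := Complex.exp_ne_zero _
    have hk : nk (cexp (I * t)) = cexp (I * t) := by
      have := nk_smul (r := 1) one_pos (hn t)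
      simpa using this
    have k1 : nk (((1 + z - a : ℝ) : ℂ) * cexp (I * t) + (a : ℂ) * cexp (I * t)) =
        ((1 / (1 + z) ^ 2 : ℝ) : ℂ) * cexp (I * t) := by
      rw [e1, nk_smul (by linarith) (hn t)]
    have k2 : nk (((1 + z - a : ℝ) : ℂ) * cexp (I * t) - (1 - (a : ℂ)) * cexp (I * t)) =
        ((1 / z ^ 2 : ℝ) : ℂ) * cexp (I * t) := by
      rw [e2, nk_smul hz (hn t)]
    refine sol_at (u := fun t : ℝ => cexp (I * t)) (v := fun t : ℝ => I * cexp (I * t))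
      (x := fun t : ℝ => ((1 + z - a : ℝ) : ℂ) * cexp (I * t))
      (y := fun t : ℝ => ((1 + z - a : ℝ) : ℂ) * (I * cexp (I * t))) hM (hde t) ((hde t).const_mul _) ?_ ?_ hne ?_ ?_
    · rw [hk, k1, k2]
      refine ((hde t).const_mul I).congr_deriv ?_
      have hmc : (m12 : ℂ) = 1 + m3 * (1 / (z : ℂ) ^ 2 - 1 / (1 + (z : ℂ)) ^ 2) := by
        rw [hm]; push_cast; ring
      rw [← mul_assoc I I, I_mul_I, hmc]
      push_cast
      ring
    · rw [k1, k2]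
      refine (((hde t).const_mul I).const_mul ((1 + z - a : ℝ) : ℂ)).congr_deriv ?_
      rw [← mul_assoc I I, I_mul_I, hb]
      push_cast
      ring
    · rw [e1]
      refine mul_ne_zero ?_ hne
      exact_mod_cast (by linarith : (1 + z) ≠ 0)
    · rw [e2]
      refine mul_ne_zero ?_ hne
      exact_mod_cast hz.ne'
  · refine ⟨1, one_pos, fun t i j => ?_⟩
    -- all positions are constant multiples of `e^{it}`
    have hc : ∀ t : ℝ, ∀ i, conf m12 m3 a (cexp (I * t)) ((1 + z - a : ℝ) * cexp (I * t)) i =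
        conf m12 m3 a 1 ((1 + z - a : ℝ) : ℂ) i * cexp (I * t) := by
      intro t i
      fin_cases i
      · simp only [conf, Matrix.cons_val_zero, Fin.zero_eta]; ring
      · simp only [conf, Matrix.cons_val_one, Fin.mk_one, Matrix.cons_val_zero]; ring
      · simp only [conf, Matrix.cons_val, Fin.reduceFinMk]; ring
    simp only [hc, ← sub_mul, norm_mul]
    rw [hn, hn]

/-- the statement of stub CHAIN -/
def S_chain : Prop := ∃ η : ℝ, 0 < η ∧ ∀ m12 m3 a z : ℝ, IsRE m12 m3 a z → 0 < m3 → m3 < η →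
    |z - 1 / 2| < η → |m12 - 1| ≤ 1 / 10 ∧ |a - 19 / 82| ≤ 1 / 10 ∧ ∃ (l : ℝ) (gu gx : ℂ), ∀ s : ℝ, 0 < s →
      s ≤ 1 / 10 ^ 9 → ∀ u v x y : ℝ → ℂ, JSol m12 m3 a u v x y →
      u 0 = 1 + (s : ℂ) * gu → v 0 = I * (1 + (s : ℂ) * gu) + (l : ℂ) * (s : ℂ) * gu →
      x 0 = (1 + z - a : ℝ) + (s : ℂ) * gx → y 0 = I * ((1 + z - a : ℝ) + (s : ℂ) * gx) + (l : ℂ) * (s : ℂ) * gx →
      (∀ t, 0 ≤ t → 2 / 5 ≤ ‖u t‖ ∧ 2 / 5 ≤ ‖x t + (a : ℂ) * u t‖ ∧ 2 / 5 ≤ ‖x t - (1 - (a : ℂ)) * u t‖) ∧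
      ∃ T₀ : ℝ, 0 ≤ T₀ ∧ ∀ t, T₀ ≤ t → (t - T₀) / 10 ≤ ‖x t‖ ∧ ‖u t‖ ≤ 2

/-- the statement of `exists_jsol` -/
def S_jsol : Prop := ∀ (m12 m3 a : ℝ) (u₀ v₀ x₀ y₀ : ℂ),
    ∃ u v x y : ℝ → ℂ, JSol m12 m3 a u v x y ∧ u 0 = u₀ ∧ v 0 = v₀ ∧ x 0 = x₀ ∧ y 0 = y₀

/-- base version of the result, from CHAIN and the existence of solutions -/
theorem base_of (hch : S_chain) (hex : S_jsol) :
    ∃ η : ℝ, 0 < η ∧ ∀ m12 m3 a z : ℝ, IsRE m12 m3 a z → 0 < m3 → m3 < η → |z - 1 / 2| < η →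
    0 < a ∧ a < 1 ∧ 0 < m12 ∧
    ∀ U ∈ nhds ((conf m12 m3 a 1 ((1 + z - a : ℝ) : ℂ), conf m12 m3 a I ((1 + z - a : ℝ) * I)) : Ph),
      ∃ y : ℝ → Ph, y 0 ∈ U ∧ IsForwardSol (mass m12 m3 a) y ∧
        ∀ R : ℝ, ∃ t₀ : ℝ, ∀ t, t₀ ≤ t → R ≤ ‖(y t).1 2 - (y t).1 0‖ ∧ R ≤ ‖(y t).1 2 - (y t).1 1‖ ∧
          ‖(y t).1 1 - (y t).1 0‖ ≤ 2 := by
  obtain ⟨η, hη, hc⟩ := hch
  refine ⟨η, hη, fun m12 m3 a z hre h3 h3η hz => ?_⟩
  obtain ⟨hm12, haa, l, gu, gx, hs⟩ := hc m12 m3 a z hre h3 h3η hz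
  have ha : 0 < a := by have := (abs_le.1 haa).1; linarith
  have ha1 : a < 1 := by have := (abs_le.1 haa).2; linarith
  have h12 : 0 < m12 := by have := (abs_le.1 hm12).1; linarith
  have hM : m12 + m3 ≠ 0 := by linarith
  have hMc : (m12 : ℂ) + (m3 : ℂ) ≠ 0 := by exact_mod_cast hM
  refine ⟨ha, ha1, h12, fun U hU => ?_⟩
  -- the initial data
  obtain ⟨F, hF⟩ : ∃ F : ℝ → Ph, F = fun s : ℝ => (conf m12 m3 a (1 + (s : ℂ) * gu) ((1 + z - a : ℝ) + (s : ℂ) * gx),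
      conf m12 m3 a (I * (1 + (s : ℂ) * gu) + (l : ℂ) * (s : ℂ) * gu)
        (I * ((1 + z - a : ℝ) + (s : ℂ) * gx) + (l : ℂ) * (s : ℂ) * gx)) := ⟨_, rfl⟩
  have hcont : ∀ f g : ℝ → ℂ, Continuous f → Continuous g → Continuous fun s => conf m12 m3 a (f s) (g s) := by
    intro f g hf hg
    refine continuous_pi fun i => ?_
    fin_cases i
    · exact (continuous_const.mul hg).sub (continuous_const.mul hf)
    · exact (continuous_const.mul hg).add (continuous_const.mul hf)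
    · exact continuous_const.mul hg
  have hFc : Continuous F := by
    rw [hF]
    refine (hcont _ _ ?_ ?_).prodMk (hcont _ _ ?_ ?_) <;> fun_prop
  have hF0 : F 0 = (conf m12 m3 a 1 ((1 + z - a : ℝ) : ℂ), conf m12 m3 a I ((1 + z - a : ℝ) * I)) := by
    rw [hF]
    simp only [Complex.ofReal_zero, zero_mul, add_zero, mul_zero, mul_one]
    rw [mul_comm I]
  have hev : ∀ᶠ s in nhds (0 : ℝ), F s ∈ U := hFc.continuousAt.preimage_mem_nhds (by rw [hF0]; exact hU)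
  obtain ⟨r, hr, hrb⟩ := Metric.eventually_nhds_iff.1 hev
  obtain ⟨s, hsdef⟩ : ∃ s : ℝ, s = min (r / 2) (1 / 10 ^ 9) := ⟨_, rfl⟩
  have hs0 : 0 < s := by rw [hsdef]; positivity
  have hs1 : s ≤ 1 / 10 ^ 9 := by rw [hsdef]; exact min_le_right _ _
  have hs2 : s < r := by
    have : s ≤ r / 2 := by rw [hsdef]; exact min_le_left _ _
    linarith
  have hFs : F s ∈ U := hrb (by rw [Real.dist_eq, sub_zero, abs_of_pos hs0]; exact hs2)
  obtain ⟨u, v, x, y, hJ, hu0, hv0, hx0, hy0⟩ := hex m12 m3 a (1 + (s : ℂ) * gu)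
    (I * (1 + (s : ℂ) * gu) + (l : ℂ) * (s : ℂ) * gu) ((1 + z - a : ℝ) + (s : ℂ) * gx)
    (I * ((1 + z - a : ℝ) + (s : ℂ) * gx) + (l : ℂ) * (s : ℂ) * gx)
  obtain ⟨hd, T₀, hT₀, hgrow⟩ := hs s hs0 hs1 u v x y hJ hu0 hv0 hx0 hy0
  refine ⟨fun t => (conf m12 m3 a (u t) (x t), conf m12 m3 a (v t) (y t)), ?_, of_jsol h12 h3 ha ha1 hJ hd, ?_⟩
  · show (conf m12 m3 a (u 0) (x 0), conf m12 m3 a (v 0) (y 0)) ∈ U
    rw [hu0, hv0, hx0, hy0]
    rw [hF] at hFs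
    exact hFs
  · intro R
    refine ⟨T₀ + 10 * (|R| + 2), fun t ht => ?_⟩
    have hR := abs_nonneg R
    have hR' := le_abs_self R
    obtain ⟨hx1, hu1⟩ := hgrow t (by linarith)
    have hx2 : |R| + 2 ≤ ‖x t‖ := by linarith
    have e10 : conf m12 m3 a (u t) (x t) 1 - conf m12 m3 a (u t) (x t) 0 = u t := by
      simp only [conf, Matrix.cons_val_zero, Matrix.cons_val_one]
      ring
    have e20 : conf m12 m3 a (u t) (x t) 2 - conf m12 m3 a (u t) (x t) 0 = x t + (a : ℂ) * u t := by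
      simp only [conf, Matrix.cons_val_zero, Matrix.cons_val]
      push_cast
      field_simp
      ring
    have e21 : conf m12 m3 a (u t) (x t) 2 - conf m12 m3 a (u t) (x t) 1 = x t - (1 - (a : ℂ)) * u t := by
      simp only [conf, Matrix.cons_val_one, Matrix.cons_val]
      push_cast
      field_simp
      ring
    simp only []
    rw [e10, e20, e21]
    have n1 : ‖(a : ℂ) * u t‖ ≤ 2 := by
      rw [norm_mul, Complex.norm_real, Real.norm_of_nonneg ha.le]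
      nlinarith [norm_nonneg (u t)]
    have n2 : ‖(1 - (a : ℂ)) * u t‖ ≤ 2 := by
      rw [norm_mul, show (1 - (a : ℂ)) = ((1 - a : ℝ) : ℂ) by push_cast; ring, Complex.norm_real,
        Real.norm_of_nonneg (by linarith)]
      nlinarith [norm_nonneg (u t)]
    refine ⟨?_, ?_, hu1⟩
    · have := norm_sub_le (x t + (a : ℂ) * u t) ((a : ℂ) * u t)
      rw [add_sub_cancel_right] at this
      linarith
    · have := norm_add_le (x t - (1 - (a : ℂ)) * u t) ((1 - (a : ℂ)) * u t)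
      rw [sub_add_cancel] at this
      linarith

end Pool.Agent.H3.TB
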