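import Mathlib

/-! Definitions for project 3B (MP_6e7c44_mp): unbounded solutions near Euler's relative equilibria. -/

set_option autoImplicit false

open Complex

namespace Pool.Agent.H3.TB

/-- Newton's kernel `x / |x|^3`, cut off at the distance `ε`. -/
noncomputable def ker (ε : ℝ) (x : ℂ) : ℂ := ((1 / max ε ‖x‖ ^ 3 : ℝ) : ℂ) * x

/-- acceleration of `u = q₂ - q₁` (kernel cut off at `1/4`); `x` is the position of the third body relative to the
centre of mass of the first two, `m12 = m₁ + m₂`, `a = m₂ / (m₁ + m₂)`, so `q₃ - q₁ = x + a u`,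
`q₃ - q₂ = x - (1 - a) u`. -/
noncomputable def fu (m12 m3 a : ℝ) (u x : ℂ) : ℂ :=
  -(m12 : ℂ) * ker (1/4) u + (m3 : ℂ) * (ker (1/4) (x - (1 - (a : ℂ)) * u) - ker (1/4) (x + (a : ℂ) * u))

/-- acceleration of `x` -/
noncomputable def fx (m12 m3 a : ℝ) (u x : ℂ) : ℂ :=
  -((m12 : ℂ) + (m3 : ℂ)) * ((1 - (a : ℂ)) * ker (1/4) (x + (a : ℂ) * u) + (a : ℂ) * ker (1/4) (x - (1 - (a : ℂ)) * u))

/-- `u, x` with velocities `v, y` solve the cut off three-body problem in Jacobi coordinates (for all times). -/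
structure JSol (m12 m3 a : ℝ) (u v x y : ℝ → ℂ) : Prop where
  du : ∀ t, HasDerivAt u (v t) t
  dv : ∀ t, HasDerivAt v (fu m12 m3 a (u t) (x t)) t
  dx : ∀ t, HasDerivAt x (y t) t
  dy : ∀ t, HasDerivAt y (fx m12 m3 a (u t) (x t)) t

/-- The collinear relative equilibrium `u = e^{it}`, `x = (1 + z - a) e^{it}` (so `q₁, q₂, q₃` at `-a, 1-a, 1+z-a`
relative to the centre of mass of the pair; distances `1, z, 1+z`) is a solution. -/
def IsRE (m12 m3 a z : ℝ) : Prop :=
  0 < z ∧ m12 = 1 + m3 * (1 / z ^ 2 - 1 / (1 + z) ^ 2) ∧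
    1 + z - a = (m12 + m3) * ((1 - a) / (1 + z) ^ 2 + a / z ^ 2)

/-- rounded slope of the unstable direction of L2 for mass ratio 19/82 -/
noncomputable def cc : ℝ := -0.8897488375
/-- rounded rate of the unstable direction of L2 for mass ratio 19/82 -/
noncomputable def ll : ℝ := 1.5503853022
/-- start of the numerical part: position -/
noncomputable def Z0 : ℂ := ((52 / 41 + 1 / 10 ^ 9 : ℝ) : ℂ) + ((cc / 10 ^ 9 : ℝ) : ℂ) * I
/-- start of the numerical part: velocity (inertial) -/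
noncomputable def Z1 : ℂ := I * Z0 + ((ll / 10 ^ 9 : ℝ) : ℂ) * (1 + (cc : ℂ) * I)

/-! Newtonian side (as in the library's files for this problem) -/

/-- Phase points of the three bodies in the plane `ℂ`: positions and velocities (product topology). -/
abbrev Ph := (Fin 3 → ℂ) × (Fin 3 → ℂ)

/-- Newtonian acceleration of body `a`: `∑_{b ≠ a} m_b (q_b - q_a) / |q_b - q_a|^3`. -/
noncomputable def acc (m : Fin 3 → ℝ) (q : Fin 3 → ℂ) (a : Fin 3) : ℂ :=
  ∑ b ∈ Finset.univ.erase a, ((m b / ‖q b - q a‖ ^ 3 : ℝ) : ℂ) * (q b - q a)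

/-- The phase space in the centre of mass frame: no collisions, `∑ m_a q_a = 0`, `∑ m_a v_a = 0`. -/
def phaseSpace (m : Fin 3 → ℝ) : Set Ph :=
  {z | (∀ a b, a ≠ b → z.1 a ≠ z.1 b) ∧ ∑ a, (m a : ℂ) * z.1 a = 0 ∧ ∑ a, (m a : ℂ) * z.2 a = 0}

/-- `x = (q, v)` is a solution of Newton's equations in the centre of mass frame which is defined for all times. -/
def IsSol (m : Fin 3 → ℝ) (x : ℝ → Ph) : Prop :=
  ∀ t, x t ∈ phaseSpace m ∧ HasDerivAt x ((x t).2, acc m (x t).1) t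

/-- `x` is a solution in the centre of mass frame which is defined for all positive times and shortly before `0`:
on the time interval `(-η, ∞)` for some `η > 0`. -/
def IsForwardSol (m : Fin 3 → ℝ) (x : ℝ → Ph) : Prop :=
  ∃ η : ℝ, 0 < η ∧ ∀ t, -η < t → x t ∈ phaseSpace m ∧ HasDerivAt x ((x t).2, acc m (x t).1) t

/-- The mutual distances are periodic functions of time. -/
def IsRelPeriodic (x : ℝ → Ph) : Prop :=
  ∃ T : ℝ, 0 < T ∧ ∀ t a b, ‖(x (t + T)).1 a - (x (t + T)).1 b‖ = ‖(x t).1 a - (x t).1 b‖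

/-- masses `m₁ = (1-a) m12, m₂ = a m12, m₃ = m3` -/
noncomputable def mass (m12 m3 a : ℝ) : Fin 3 → ℝ := ![(1 - a) * m12, a * m12, m3]

/-- positions (or velocities) of the bodies in the centre of mass frame from Jacobi coordinates -/
noncomputable def conf (m12 m3 a : ℝ) (u x : ℂ) : Fin 3 → ℂ :=
  ![-((m3 / (m12 + m3) : ℝ) : ℂ) * x - (a : ℂ) * u, -((m3 / (m12 + m3) : ℝ) : ℂ) * x + (1 - (a : ℂ)) * u,
    ((m12 / (m12 + m3) : ℝ) : ℂ) * x]

end Pool.Agent.H3.TB
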