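import Pool.Agent.H3.TB.Sound

/-! Composition of the time steps. -/

set_option autoImplicit false
set_option exponentiation.threshold 1000
set_option maxHeartbeats 4000000

open Complex Set

namespace Pool.Agent.H3.TB

/-- position mismatch -/
def m0 (c c' : Pc) : ℤ := |evI c.wr 1 - evI c'.wr (-1)| + |evI c.wi 1 - evI c'.wi (-1)|
/-- velocity mismatch -/
def mv (c c' : Pc) : ℤ :=
  4 * |evI (pder c.wr) 1 - evI (pder c'.wr) (-1)| + 4 * |evI (pder c.wi) 1 - evI (pder c'.wi) (-1)| + m0 c c'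
/-- check of a junction -/
def lnk (c c' : Pc) : Bool :=
  decide (c'.al ≤ c.al) && decide (c.al ≤ 256) &&
    decide ((c.b : ℤ) * 64 ^ c.ka + (4 * m0 c c' + mv c c') * 2 ^ 20 * 63 ^ c.ka ≤ c'.b * 63 ^ c.ka)
/-- check of all junctions -/
def lnks : List Pc → Bool
  | [] => true
  | [_] => true
  | c :: c' :: l => lnk c c' && lnks (c' :: l)

/-- `x, y` is within the tolerance `B` of the approximate solution -/
def Near (c : Pc) (θ B t : ℝ) (x y : ℂ) : Prop :=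
  (c.al : ℝ) / 64 * ‖x - cexp (I * t) * (Wc c θ - 19 / 82)‖ ≤ B ∧
    ‖y - cexp (I * t) * (Wc1 c θ + I * (Wc c θ - 19 / 82))‖ ≤ B

theorem norm_diff_W (c c' : Pc) : ‖Wc c 1 - Wc c' (-1)‖ ≤ (m0 c c' : ℝ) / 2 ^ 80 := by
  have e1 : Wc c 1 - Wc c' (-1) = (((evI c.wr 1 - evI c'.wr (-1) : ℤ) / 2 ^ 80 : ℝ) : ℂ) +
      (((evI c.wi 1 - evI c'.wi (-1) : ℤ) / 2 ^ 80 : ℝ) : ℂ) * I := by
    unfold Wc
    have h1 := ev_evI c.wr 1
    have h2 := ev_evI c.wi 1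
    have h3 := ev_evI c'.wr (-1)
    have h4 := ev_evI c'.wi (-1)
    push_cast at h1 h2 h3 h4 ⊢
    rw [h1, h2, h3, h4]
    push_cast
    ring
  rw [e1]
  refine (norm_cx_le _ _).trans (le_of_eq ?_)
  unfold m0
  push_cast
  rw [abs_div, abs_div, abs_of_pos (by positivity : (0:ℝ) < 2 ^ 80)]
  ring

theorem norm_diff_W1 (c c' : Pc) :
    ‖Wc1 c 1 - Wc1 c' (-1)‖ ≤ ((mv c c' : ℝ) - m0 c c') / 2 ^ 80 := by
  have e1 : Wc1 c 1 - Wc1 c' (-1) = ((4 * (evI (pder c.wr) 1 - evI (pder c'.wr) (-1) : ℤ) / 2 ^ 80 : ℝ) : ℂ) +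
      ((4 * (evI (pder c.wi) 1 - evI (pder c'.wi) (-1) : ℤ) / 2 ^ 80 : ℝ) : ℂ) * I := by
    unfold Wc1
    have h1 := ev_evI (pder c.wr) 1
    have h2 := ev_evI (pder c.wi) 1
    have h3 := ev_evI (pder c'.wr) (-1)
    have h4 := ev_evI (pder c'.wi) (-1)
    push_cast at h1 h2 h3 h4 ⊢
    rw [h1, h2, h3, h4]
    push_cast
    ring
  rw [e1]
  refine (norm_cx_le _ _).trans (le_of_eq ?_)
  unfold mv
  push_cast
  rw [abs_div, abs_div, abs_mul, abs_mul, abs_of_pos (by positivity : (0:ℝ) < 2 ^ 80),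
    abs_of_pos (by norm_num : (0:ℝ) < 4)]
  ring

theorem lnk_sound {c c' : Pc} (h : lnk c c' = true) {t : ℝ} {x y : ℂ}
    (hn : Near c 1 (c.b / 2 ^ 100 * (64 / 63) ^ c.ka) t x y) : Near c' (-1) (c'.b / 2 ^ 100) t x y := by
  simp only [lnk, Bool.and_eq_true, decide_eq_true_eq] at h
  obtain ⟨⟨h1, h2⟩, h3⟩ := h
  have a1 : (c'.al : ℝ) ≤ c.al := by exact_mod_cast h1
  have a2 : (c.al : ℝ) ≤ 256 := by exact_mod_cast h2
  have a3 : (c.b : ℝ) * 64 ^ c.ka + (4 * (m0 c c' : ℝ) + mv c c') * 2 ^ 20 * 63 ^ c.ka ≤ c'.b * 63 ^ c.ka := by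
    exact_mod_cast h3
  have a4 : (0 : ℝ) ≤ c'.al := Nat.cast_nonneg _
  obtain ⟨n1, n2⟩ := hn
  have d1 := norm_diff_W c c'
  have d2 := norm_diff_W1 c c'
  have m0n : (0 : ℝ) ≤ m0 c c' := by
    have : (0 : ℤ) ≤ m0 c c' := by unfold m0; positivity
    exact_mod_cast this
  have mvn : (m0 c c' : ℝ) ≤ mv c c' := by
    have q1 := abs_nonneg (evI (pder c.wr) 1 - evI (pder c'.wr) (-1))
    have q2 := abs_nonneg (evI (pder c.wi) 1 - evI (pder c'.wi) (-1))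
    have : m0 c c' ≤ mv c c' := by
      unfold mv
      linarith
    exact_mod_cast this
  -- the total
  have tot : c.b / 2 ^ 100 * (64 / 63) ^ c.ka + (4 * (m0 c c' : ℝ) + mv c c') / 2 ^ 80 ≤ c'.b / 2 ^ 100 := by
    have e1 : c.b / 2 ^ 100 * (64 / 63) ^ c.ka + (4 * (m0 c c' : ℝ) + mv c c') / 2 ^ 80 =
        (c.b * 64 ^ c.ka + (4 * (m0 c c' : ℝ) + mv c c') * 2 ^ 20 * 63 ^ c.ka) / (2 ^ 100 * 63 ^ c.ka) := by
      rw [div_pow]; field_simp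
    have e2 : (c'.b : ℝ) / 2 ^ 100 = (c'.b * 63 ^ c.ka) / (2 ^ 100 * 63 ^ c.ka) := by field_simp
    rw [e1, e2]
    gcongr
  have f1 : ‖x - cexp (I * t) * (Wc c' (-1) - 19 / 82)‖ ≤
      ‖x - cexp (I * t) * (Wc c 1 - 19 / 82)‖ + (m0 c c' : ℝ) / 2 ^ 80 := by
    have e1 : x - cexp (I * t) * (Wc c' (-1) - 19 / 82) =
        (x - cexp (I * t) * (Wc c 1 - 19 / 82)) + cexp (I * t) * (Wc c 1 - Wc c' (-1)) := by ring
    rw [e1]
    refine (norm_add_le _ _).trans ?_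
    rw [norm_mul, norm_eit, one_mul]
    gcongr
  constructor
  · calc (c'.al : ℝ) / 64 * ‖x - cexp (I * t) * (Wc c' (-1) - 19 / 82)‖
        ≤ (c'.al : ℝ) / 64 * (‖x - cexp (I * t) * (Wc c 1 - 19 / 82)‖ + (m0 c c' : ℝ) / 2 ^ 80) := by gcongr
      _ = (c'.al : ℝ) / 64 * ‖x - cexp (I * t) * (Wc c 1 - 19 / 82)‖ + (c'.al : ℝ) / 64 * ((m0 c c' : ℝ) / 2 ^ 80) := by
          ring
      _ ≤ (c.al : ℝ) / 64 * ‖x - cexp (I * t) * (Wc c 1 - 19 / 82)‖ + 256 / 64 * ((m0 c c' : ℝ) / 2 ^ 80) := by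
          gcongr
          exact a1.trans a2
      _ ≤ c.b / 2 ^ 100 * (64 / 63) ^ c.ka + 256 / 64 * ((m0 c c' : ℝ) / 2 ^ 80) := by gcongr
      _ ≤ c.b / 2 ^ 100 * (64 / 63) ^ c.ka + (4 * (m0 c c' : ℝ) + mv c c') / 2 ^ 80 := by
          have : 256 / 64 * ((m0 c c' : ℝ) / 2 ^ 80) ≤ (4 * (m0 c c' : ℝ) + mv c c') / 2 ^ 80 := by
            rw [mul_div_assoc', div_le_div_iff_of_pos_right (by positivity)]
            linarith
          linarith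
      _ ≤ _ := tot
  · have e1 : y - cexp (I * t) * (Wc1 c' (-1) + I * (Wc c' (-1) - 19 / 82)) =
        (y - cexp (I * t) * (Wc1 c 1 + I * (Wc c 1 - 19 / 82))) +
        (cexp (I * t) * (Wc1 c 1 - Wc1 c' (-1)) + cexp (I * t) * (I * (Wc c 1 - Wc c' (-1)))) := by ring
    rw [e1]
    refine (norm_add_le _ _).trans ?_
    refine le_trans (add_le_add n2 (norm_add_le _ _)) ?_
    rw [norm_mul, norm_mul, norm_mul, norm_eit, one_mul, one_mul, norm_I, one_mul]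
    refine le_trans ?_ tot
    have : ‖Wc1 c 1 - Wc1 c' (-1)‖ + ‖Wc c 1 - Wc c' (-1)‖ ≤ (4 * (m0 c c' : ℝ) + mv c c') / 2 ^ 80 := by
      refine (add_le_add d2 d1).trans ?_
      rw [← add_div, div_le_div_iff_of_pos_right (by positivity)]
      linarith
    linarith

/-- the last time step -/
def lastP : Pc → List Pc → Pc
  | c, [] => c
  | _, c' :: l => lastP c' l

theorem run {x y th : ℝ → ℂ} (l : List Pc) : ∀ (c : Pc), (c :: l).all chk = true → lnks (c :: l) = true →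
    ∀ t₀ : ℝ, (∀ t ∈ Icc t₀ (t₀ + (l.length + 1) / 2), HasDerivAt x (y t) t) →
    (∀ t ∈ Icc t₀ (t₀ + (l.length + 1) / 2), HasDerivAt y (fr t (x t) + th t) t) →
    (∀ t ∈ Icc t₀ (t₀ + (l.length + 1) / 2), ‖th t‖ ≤ 1 / 10 ^ 20) →
    Near c (-1) (c.b / 2 ^ 100) t₀ (x t₀) (y t₀) →
    (∀ t ∈ Icc t₀ (t₀ + (l.length + 1) / 2), 9 / 20 ≤ ‖x t + 19 / 82 * cexp (I * t)‖ ∧
      9 / 20 ≤ ‖x t - 63 / 82 * cexp (I * t)‖) ∧
    Near (lastP c l) 1 ((lastP c l).b / 2 ^ 100 * (64 / 63) ^ (lastP c l).ka) (t₀ + (l.length + 1) / 2)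
      (x (t₀ + (l.length + 1) / 2)) (y (t₀ + (l.length + 1) / 2)) := by
  induction l with
  | nil =>
    intro c hc _ t₀ hx hy hth hn
    have hc1 : chk c = true := by simpa using hc
    have e0 : t₀ + ((([] : List Pc).length : ℝ) + 1) / 2 = t₀ + 1 / 2 := by simp
    rw [e0] at hx hy hth ⊢
    have h := chk_sound c hc1 hx hy hth hn.1 hn.2
    refine ⟨fun t ht => (h t ht).2.2, ?_⟩
    have h1 := h (t₀ + 1 / 2) ⟨by linarith, le_refl _⟩
    have e1 : 4 * (t₀ + 1 / 2 - t₀) - 1 = (1 : ℝ) := by ring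
    rw [e1] at h1
    exact ⟨h1.1, h1.2.1⟩
  | cons c' l ih =>
    intro c hc hl t₀ hx hy hth hn
    have hc1 : chk c = true := by simp at hc; exact hc.1
    have hc2 : (c' :: l).all chk = true := by
      simp only [List.all_cons, Bool.and_eq_true] at hc ⊢
      exact hc.2
    have hl1 : lnk c c' = true ∧ lnks (c' :: l) = true := by
      simpa [lnks, Bool.and_eq_true] using hl
    have e0 : t₀ + (((c' :: l).length : ℝ) + 1) / 2 = (t₀ + 1 / 2) + ((l.length : ℝ) + 1) / 2 := by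
      simp only [List.length_cons]; push_cast; ring
    rw [e0] at hx hy hth ⊢
    have hlen : (0 : ℝ) ≤ (l.length : ℝ) := Nat.cast_nonneg _
    have hsub1 : Icc t₀ (t₀ + 1 / 2) ⊆ Icc t₀ (t₀ + 1 / 2 + ((l.length : ℝ) + 1) / 2) :=
      Icc_subset_Icc_right (by linarith)
    have hsub2 : Icc (t₀ + 1 / 2) (t₀ + 1 / 2 + ((l.length : ℝ) + 1) / 2) ⊆
        Icc t₀ (t₀ + 1 / 2 + ((l.length : ℝ) + 1) / 2) := Icc_subset_Icc_left (by linarith)
    have h := chk_sound c hc1 (fun t ht => hx t (hsub1 ht)) (fun t ht => hy t (hsub1 ht))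
      (fun t ht => hth t (hsub1 ht)) hn.1 hn.2
    have h1 := h (t₀ + 1 / 2) ⟨by linarith, le_refl _⟩
    have e1 : 4 * (t₀ + 1 / 2 - t₀) - 1 = (1 : ℝ) := by ring
    rw [e1] at h1
    have h2 := lnk_sound hl1.1 (t := t₀ + 1 / 2) (x := x (t₀ + 1 / 2)) (y := y (t₀ + 1 / 2)) ⟨h1.1, h1.2.1⟩
    have h3 := ih c' hc2 hl1.2 (t₀ + 1 / 2) (fun t ht => hx t (hsub2 ht)) (fun t ht => hy t (hsub2 ht))
      (fun t ht => hth t (hsub2 ht)) h2
    refine ⟨fun t ht => ?_, ?_⟩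
    · rcases le_total t (t₀ + 1 / 2) with ht1 | ht1
      · exact (h t ⟨ht.1, ht1⟩).2.2
      · exact h3.1 t ⟨ht1, ht.2⟩
    · exact h3.2

end Pool.Agent.H3.TB
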