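import Pool.Agent.H3.TB.Defs

/-! Project 3B: the kernel (stubs 3B-KER). -/

set_option autoImplicit false

open Complex

namespace Pool.Agent.H3.TB

theorem ker_eq {ε : ℝ} {x : ℂ} (h : ε ≤ ‖x‖) : ker ε x = ((1 / ‖x‖ ^ 3 : ℝ) : ℂ) * x := by
  rw [ker, max_eq_right h]

theorem ker_norm {ε : ℝ} (hε : 0 < ε) (x : ℂ) : ‖ker ε x‖ ≤ 1 / ε ^ 2 := by
  have h1 : ε ≤ max ε ‖x‖ := le_max_left _ _
  have h2 : ‖x‖ ≤ max ε ‖x‖ := le_max_right _ _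
  set g := max ε ‖x‖ with hg
  have hg0 : 0 < g := hε.trans_le h1
  rw [ker, ← hg, norm_mul, Complex.norm_real, Real.norm_of_nonneg (by positivity)]
  calc 1 / g ^ 3 * ‖x‖ ≤ 1 / g ^ 3 * g := by gcongr
    _ = 1 / g ^ 2 := by field_simp
    _ ≤ 1 / ε ^ 2 := by gcongr

theorem ker_norm_le {ε : ℝ} (hε : 0 < ε) {x : ℂ} (hx : x ≠ 0) : ‖ker ε x‖ ≤ 1 / ‖x‖ ^ 2 := by
  have h0 : 0 < ‖x‖ := norm_pos_iff.mpr hx
  have h1 : ε ≤ max ε ‖x‖ := le_max_left _ _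
  have h2 : ‖x‖ ≤ max ε ‖x‖ := le_max_right _ _
  set g := max ε ‖x‖ with hg
  have hg0 : 0 < g := hε.trans_le h1
  rw [ker, ← hg, norm_mul, Complex.norm_real, Real.norm_of_nonneg (by positivity)]
  calc 1 / g ^ 3 * ‖x‖ ≤ 1 / ‖x‖ ^ 3 * ‖x‖ := by gcongr
    _ = 1 / ‖x‖ ^ 2 := by field_simp

theorem ker_lip {ε : ℝ} (hε : 0 < ε) (x y : ℂ) : ‖ker ε x - ker ε y‖ ≤ 4 / ε ^ 3 * ‖x - y‖ := by
  have ha1 : ε ≤ max ε ‖x‖ := le_max_left _ _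
  have hb1 : ε ≤ max ε ‖y‖ := le_max_left _ _
  have hb2 : ‖y‖ ≤ max ε ‖y‖ := le_max_right _ _
  have hab : |max ε ‖x‖ - max ε ‖y‖| ≤ ‖x - y‖ := by
    rw [max_comm ε, max_comm ε]
    exact (abs_max_sub_max_le_abs ‖x‖ ‖y‖ ε).trans (abs_norm_sub_norm_le x y)
  set α := max ε ‖x‖ with hα
  set β := max ε ‖y‖ with hβ
  have hα0 : 0 < α := hε.trans_le ha1
  have hβ0 : 0 < β := hε.trans_le hb1
  have e1 : ker ε x - ker ε y = ((1 / α ^ 3 : ℝ) : ℂ) * (x - y) + ((1 / α ^ 3 - 1 / β ^ 3 : ℝ) : ℂ) * y := by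
    rw [ker, ker, ← hα, ← hβ]
    push_cast
    ring
  have e2 : |1 / α ^ 3 - 1 / β ^ 3| * β ≤ 3 / ε ^ 3 * |α - β| := by
    have e3 : 1 / α ^ 3 - 1 / β ^ 3 = -(α - β) * (1 / (α * β ^ 3) + 1 / (α ^ 2 * β ^ 2) + 1 / (α ^ 3 * β)) := by
      field_simp
      ring
    have e4 : 0 ≤ 1 / (α * β ^ 3) + 1 / (α ^ 2 * β ^ 2) + 1 / (α ^ 3 * β) := by positivity
    rw [e3, abs_mul, abs_neg, abs_of_nonneg e4]
    have e5 : (1 / (α * β ^ 3) + 1 / (α ^ 2 * β ^ 2) + 1 / (α ^ 3 * β)) * β =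
        1 / (α * β ^ 2) + 1 / (α ^ 2 * β) + 1 / α ^ 3 := by
      field_simp
    have e6 : 1 / (α * β ^ 2) + 1 / (α ^ 2 * β) + 1 / α ^ 3 ≤ 1 / (ε * ε ^ 2) + 1 / (ε ^ 2 * ε) + 1 / ε ^ 3 := by
      gcongr
    have e7 : 1 / (ε * ε ^ 2) + 1 / (ε ^ 2 * ε) + 1 / ε ^ 3 = 3 / ε ^ 3 := by field_simp; ring
    calc |α - β| * (1 / (α * β ^ 3) + 1 / (α ^ 2 * β ^ 2) + 1 / (α ^ 3 * β)) * β
        = |α - β| * (1 / (α * β ^ 2) + 1 / (α ^ 2 * β) + 1 / α ^ 3) := by rw [mul_assoc, e5]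
      _ ≤ |α - β| * (3 / ε ^ 3) := by rw [← e7]; gcongr
      _ = _ := by ring
  rw [e1]
  refine (norm_add_le _ _).trans ?_
  rw [norm_mul, norm_mul, Complex.norm_real, Complex.norm_real, Real.norm_eq_abs, Real.norm_eq_abs,
    abs_of_pos (by positivity : 0 < 1 / α ^ 3)]
  have e8 : 1 / α ^ 3 * ‖x - y‖ ≤ 1 / ε ^ 3 * ‖x - y‖ := by gcongr
  have e9 : |1 / α ^ 3 - 1 / β ^ 3| * ‖y‖ ≤ 3 / ε ^ 3 * ‖x - y‖ := by
    calc |1 / α ^ 3 - 1 / β ^ 3| * ‖y‖ ≤ |1 / α ^ 3 - 1 / β ^ 3| * β := by gcongr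
      _ ≤ 3 / ε ^ 3 * |α - β| := e2
      _ ≤ _ := by gcongr
  have e10 : 4 / ε ^ 3 * ‖x - y‖ = 1 / ε ^ 3 * ‖x - y‖ + 3 / ε ^ 3 * ‖x - y‖ := by ring
  linarith

/-- `|x/|x|^3 - y/|y|^3| = ... ≤ (a+b)/(a^2 b^2) |x-y|` for `|x| = a`, `|y| = b`. -/
theorem ker_lip_loc {ε ρ : ℝ} (hε : 0 < ε) (hρ : ε ≤ ρ) {x y : ℂ} (hx : ρ ≤ ‖x‖) (hy : ρ ≤ ‖y‖) :
    ‖ker ε x - ker ε y‖ ≤ 2 / ρ ^ 3 * ‖x - y‖ := by
  have hρ0 : 0 < ρ := hε.trans_le hρ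
  rw [ker_eq (hρ.trans hx), ker_eq (hρ.trans hy)]
  set a := ‖x‖ with ha
  set b := ‖y‖ with hb
  have ha0 : 0 < a := hρ0.trans_le hx
  have hb0 : 0 < b := hρ0.trans_le hy
  have hab : |a - b| ≤ ‖x - y‖ := abs_norm_sub_norm_le x y
  have hx2 : x.re ^ 2 + x.im ^ 2 = a ^ 2 := by
    rw [ha, ← Complex.normSq_eq_norm_sq, Complex.normSq_apply]; ring
  have hy2 : y.re ^ 2 + y.im ^ 2 = b ^ 2 := by
    rw [hb, ← Complex.normSq_eq_norm_sq, Complex.normSq_apply]; ring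
  have hD : ‖x - y‖ ^ 2 = a ^ 2 + b ^ 2 - 2 * (x.re * y.re + x.im * y.im) := by
    rw [← Complex.normSq_eq_norm_sq, Complex.normSq_apply, Complex.sub_re, Complex.sub_im]
    linear_combination hx2 + hy2
  set D := ‖x - y‖ with hDD
  have hD0 : 0 ≤ D := norm_nonneg _
  have h1 : ‖((1 / a ^ 3 : ℝ) : ℂ) * x - ((1 / b ^ 3 : ℝ) : ℂ) * y‖ ^ 2 =
      (1 / a ^ 3) ^ 2 * a ^ 2 + (1 / b ^ 3) ^ 2 * b ^ 2 - 2 * (1 / a ^ 3) * (1 / b ^ 3) *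
        (x.re * y.re + x.im * y.im) := by
    rw [← Complex.normSq_eq_norm_sq, Complex.normSq_apply, Complex.sub_re, Complex.sub_im,
      Complex.re_ofReal_mul, Complex.re_ofReal_mul, Complex.im_ofReal_mul, Complex.im_ofReal_mul]
    linear_combination (1 / a ^ 3) ^ 2 * hx2 + (1 / b ^ 3) ^ 2 * hy2
  have h2 : (a - b) ^ 2 ≤ D ^ 2 := by
    rw [← sq_abs (a - b)]
    exact pow_le_pow_left₀ (abs_nonneg _) hab 2
  have h3 : ‖((1 / a ^ 3 : ℝ) : ℂ) * x - ((1 / b ^ 3 : ℝ) : ℂ) * y‖ ^ 2 ≤ (D * (1 / (a * b ^ 2) + 1 / (a ^ 2 * b))) ^ 2 := by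
    rw [h1]
    have h4 : x.re * y.re + x.im * y.im = (a ^ 2 + b ^ 2 - D ^ 2) / 2 := by linarith
    rw [h4]
    have h5 : (D * (1 / (a * b ^ 2) + 1 / (a ^ 2 * b))) ^ 2 - ((1 / a ^ 3) ^ 2 * a ^ 2 + (1 / b ^ 3) ^ 2 * b ^ 2 -
        2 * (1 / a ^ 3) * (1 / b ^ 3) * ((a ^ 2 + b ^ 2 - D ^ 2) / 2)) =
        (D ^ 2 - (a - b) ^ 2) * (a ^ 2 + a * b + b ^ 2) / (a ^ 4 * b ^ 4) := by
      field_simp
      ring
    have h6 : 0 ≤ (D ^ 2 - (a - b) ^ 2) * (a ^ 2 + a * b + b ^ 2) / (a ^ 4 * b ^ 4) := by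
      have : 0 ≤ D ^ 2 - (a - b) ^ 2 := by linarith
      positivity
    linarith
  have h4 : ‖((1 / a ^ 3 : ℝ) : ℂ) * x - ((1 / b ^ 3 : ℝ) : ℂ) * y‖ ≤ D * (1 / (a * b ^ 2) + 1 / (a ^ 2 * b)) :=
    le_of_sq_le_sq h3 (by positivity)
  have h5 : 1 / (a * b ^ 2) + 1 / (a ^ 2 * b) ≤ 2 / ρ ^ 3 := by
    calc 1 / (a * b ^ 2) + 1 / (a ^ 2 * b) ≤ 1 / (ρ * ρ ^ 2) + 1 / (ρ ^ 2 * ρ) := by gcongr
      _ = 2 / ρ ^ 3 := by field_simp; ring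
  calc _ ≤ D * (1 / (a * b ^ 2) + 1 / (a ^ 2 * b)) := h4
    _ ≤ D * (2 / ρ ^ 3) := by gcongr
    _ = _ := by ring

/-- the remainder for `X = 1` -/
theorem ker_taylor_one {k : ℂ} (hk : ‖k‖ ≤ 1 / 100) :
    ‖((1 / ‖1 + k‖ ^ 3 : ℝ) : ℂ) * (1 + k) - (1 - (1 / 2 : ℂ) * (k + 3 * (starRingEnd ℂ) k))‖ ≤ 13 * ‖k‖ ^ 2 := by
  set ρ := ‖1 + k‖ with hρ
  set κ := ‖k‖ with hκ
  have hκ0 : 0 ≤ κ := norm_nonneg _
  have h1 : |ρ - 1| ≤ κ := by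
    have := abs_norm_sub_norm_le (1 + k) 1
    rw [norm_one] at this
    simpa using this
  have hρ1 : 99 / 100 ≤ ρ := by have := (abs_le.mp h1).1; linarith
  have hρ2 : ρ ≤ 101 / 100 := by have := (abs_le.mp h1).2; linarith
  have hρ0 : 0 < ρ := by linarith
  have hk2 : k.re ^ 2 + k.im ^ 2 = κ ^ 2 := by
    rw [hκ, ← Complex.normSq_eq_norm_sq, Complex.normSq_apply]; ring
  have hr2 : ρ ^ 2 = 1 + 2 * k.re + κ ^ 2 := by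
    rw [hρ, ← Complex.normSq_eq_norm_sq, Complex.normSq_apply, Complex.add_re, Complex.add_im,
      Complex.one_re, Complex.one_im]
    linear_combination hk2
  set s : ℝ := ρ ^ 2 - 1 with hs
  set R : ℝ := 1 / ρ ^ 3 - 1 + 3 / 2 * s with hR
  have hRe : R = (ρ - 1) ^ 2 * ((3 * ρ ^ 3 + 6 * ρ ^ 2 + 4 * ρ + 2) / (2 * ρ ^ 3)) := by
    rw [hR, hs]
    field_simp
    ring
  have hRb : |R| ≤ 7.86 * κ ^ 2 := by
    have e1 : (3 * ρ ^ 3 + 6 * ρ ^ 2 + 4 * ρ + 2) / (2 * ρ ^ 3) ≤ 7.86 := by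
      rw [div_le_iff₀ (by positivity)]
      nlinarith [mul_nonneg (mul_nonneg hρ0.le hρ0.le) (sub_nonneg.mpr hρ1),
        mul_nonneg hρ0.le (sub_nonneg.mpr hρ1)]
    have e2 : 0 ≤ (3 * ρ ^ 3 + 6 * ρ ^ 2 + 4 * ρ + 2) / (2 * ρ ^ 3) := by positivity
    have e3 : (ρ - 1) ^ 2 ≤ κ ^ 2 := by
      rw [← sq_abs (ρ - 1)]
      exact pow_le_pow_left₀ (abs_nonneg _) h1 2
    rw [hRe, abs_of_nonneg (by positivity)]
    calc _ ≤ κ ^ 2 * 7.86 := by gcongr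
      _ = _ := by ring
  have hsb : |s| ≤ 2.01 * κ := by
    have e1 : s = 2 * k.re + κ ^ 2 := by rw [hs, hr2]; ring
    have e2 : |k.re| ≤ κ := Complex.abs_re_le_norm k
    have e3 : κ ^ 2 ≤ κ / 100 := by nlinarith
    rw [e1, abs_le]
    have := abs_le.mp e2
    constructor <;> nlinarith [sq_nonneg κ]
  have hmain : ((1 / ρ ^ 3 : ℝ) : ℂ) * (1 + k) - (1 - (1 / 2 : ℂ) * (k + 3 * (starRingEnd ℂ) k)) =
      ((-(3 / 2) * κ ^ 2 : ℝ) : ℂ) - ((3 / 2 * s : ℝ) : ℂ) * k + (R : ℂ) * (1 + k) := by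
    have e1 : (1 / ρ ^ 3 : ℝ) = 1 - 3 / 2 * s + R := by rw [hR]; ring
    have e2 : s = 2 * k.re + κ ^ 2 := by rw [hs, hr2]; ring
    rw [e1]
    apply Complex.ext
    · simp only [Complex.sub_re, Complex.add_re, Complex.mul_re, Complex.ofReal_re, Complex.ofReal_im,
        Complex.one_re, Complex.conj_re, Complex.conj_im, Complex.one_im, Complex.add_im, Complex.mul_im]
      norm_num
      rw [e2]
      ring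
    · simp only [Complex.sub_im, Complex.add_re, Complex.mul_re, Complex.ofReal_re, Complex.ofReal_im,
        Complex.one_re, Complex.conj_re, Complex.conj_im, Complex.one_im, Complex.add_im, Complex.mul_im]
      norm_num
      ring
  rw [hmain]
  have t1 : ‖((-(3 / 2) * κ ^ 2 : ℝ) : ℂ)‖ = 3 / 2 * κ ^ 2 := by
    rw [Complex.norm_real, Real.norm_eq_abs, abs_mul, abs_neg, abs_of_pos (by norm_num : (0:ℝ) < 3 / 2),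
      abs_of_nonneg (sq_nonneg κ)]
  have t2 : ‖((3 / 2 * s : ℝ) : ℂ) * k‖ ≤ 3.015 * κ ^ 2 := by
    rw [norm_mul, Complex.norm_real, Real.norm_eq_abs, abs_mul, abs_of_pos (by norm_num : (0:ℝ) < 3 / 2), ← hκ]
    nlinarith
  have t3 : ‖(R : ℂ) * (1 + k)‖ ≤ 7.94 * κ ^ 2 := by
    rw [norm_mul, Complex.norm_real, Real.norm_eq_abs, ← hρ]
    calc |R| * ρ ≤ (7.86 * κ ^ 2) * (101 / 100) := by gcongr
      _ ≤ _ := by nlinarith [sq_nonneg κ]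
  calc _ ≤ ‖((-(3 / 2) * κ ^ 2 : ℝ) : ℂ) - ((3 / 2 * s : ℝ) : ℂ) * k‖ + ‖(R : ℂ) * (1 + k)‖ := norm_add_le _ _
    _ ≤ ‖((-(3 / 2) * κ ^ 2 : ℝ) : ℂ)‖ + ‖((3 / 2 * s : ℝ) : ℂ) * k‖ + ‖(R : ℂ) * (1 + k)‖ := by
        gcongr; exact norm_sub_le _ _
    _ ≤ 3 / 2 * κ ^ 2 + 3.015 * κ ^ 2 + 7.94 * κ ^ 2 := by rw [t1]; gcongr
    _ ≤ 13 * κ ^ 2 := by nlinarith [sq_nonneg κ]

/-- second order remainder at a positive real point -/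
theorem ker_taylor {ε X : ℝ} (hε : 0 < ε) (hX : ε ≤ 99 / 100 * X) {h : ℂ} (hh : ‖h‖ ≤ X / 100) :
    ‖ker ε ((X : ℂ) + h) - (((1 / X ^ 2 : ℝ) : ℂ) -
      ((1 / (2 * X ^ 3) : ℝ) : ℂ) * (h + 3 * (starRingEnd ℂ) h))‖ ≤ 13 * ‖h‖ ^ 2 / X ^ 4 := by
  have hX0 : 0 < X := by linarith
  have hXc : (X : ℂ) ≠ 0 := by exact_mod_cast hX0.ne'
  set k : ℂ := h / X with hk
  have hhk : h = X * k := by rw [hk]; field_simp
  have hnk : ‖k‖ = ‖h‖ / X := by rw [hk, norm_div, Complex.norm_real, Real.norm_of_nonneg hX0.le]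
  have hk1 : ‖k‖ ≤ 1 / 100 := by
    rw [hnk, div_le_iff₀ hX0]; linarith
  have e1 : (X : ℂ) + h = X * (1 + k) := by rw [hhk]; ring
  have e2 : ‖(X : ℂ) + h‖ = X * ‖1 + k‖ := by
    rw [e1, norm_mul, Complex.norm_real, Real.norm_of_nonneg hX0.le]
  have h1 : |‖1 + k‖ - 1| ≤ ‖k‖ := by
    have := abs_norm_sub_norm_le (1 + k) 1
    rw [norm_one] at this
    simpa using this
  have hρ1 : 99 / 100 ≤ ‖1 + k‖ := by have := (abs_le.mp h1).1; linarith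
  have hge : ε ≤ ‖(X : ℂ) + h‖ := by
    rw [e2]; nlinarith
  rw [ker_eq hge, e2, e1]
  have hmain := ker_taylor_one hk1
  set ρ := ‖1 + k‖ with hρ
  have hρ0 : 0 < ρ := by linarith
  have e3 : ((1 / (X * ρ) ^ 3 : ℝ) : ℂ) * (X * (1 + k)) - (((1 / X ^ 2 : ℝ) : ℂ) -
      ((1 / (2 * X ^ 3) : ℝ) : ℂ) * (h + 3 * (starRingEnd ℂ) h)) =
      ((1 / X ^ 2 : ℝ) : ℂ) * (((1 / ρ ^ 3 : ℝ) : ℂ) * (1 + k) - (1 - (1 / 2 : ℂ) * (k + 3 * (starRingEnd ℂ) k))) := by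
    have hρc : (ρ : ℂ) ≠ 0 := by exact_mod_cast hρ0.ne'
    rw [hhk, map_mul, Complex.conj_ofReal]
    push_cast
    field_simp
  rw [e3, norm_mul, Complex.norm_real, Real.norm_of_nonneg (by positivity)]
  calc 1 / X ^ 2 * ‖((1 / ρ ^ 3 : ℝ) : ℂ) * (1 + k) - (1 - (1 / 2 : ℂ) * (k + 3 * (starRingEnd ℂ) k))‖
      ≤ 1 / X ^ 2 * (13 * ‖k‖ ^ 2) := by gcongr
    _ = 13 * ‖h‖ ^ 2 / X ^ 4 := by rw [hnk]; field_simp

theorem ker_rot {ε : ℝ} {c : ℂ} (hc : ‖c‖ = 1) (x : ℂ) : ker ε (c * x) = c * ker ε x := by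
  rw [ker, ker, norm_mul, hc, one_mul]
  ring

end Pool.Agent.H3.TB
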