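import Mathlib

/-! Polynomials with integer coefficients as lists, evaluated on `[-1, 1]`. -/

set_option autoImplicit false

namespace Pool.Agent.H3.TB

/-- sum of two coefficient lists -/
def padd : List ℤ → List ℤ → List ℤ
  | [], q => q
  | p, [] => p
  | a :: p, b :: q => (a + b) :: padd p q

/-- multiple of a coefficient list -/
def psmul (c : ℤ) : List ℤ → List ℤ
  | [] => []
  | a :: p => c * a :: psmul c p

/-- product of two coefficient lists -/
def pmul : List ℤ → List ℤ → List ℤ
  | [], _ => []
  | a :: p, q => padd (psmul a q) (0 :: pmul p q)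

/-- derivative -/
def pder : List ℤ → List ℤ
  | [] => []
  | _ :: p => padd p (0 :: pder p)

/-- real evaluation -/
def ev : List ℤ → ℝ → ℝ
  | [], _ => 0
  | a :: p, x => (a : ℝ) + x * ev p x

/-- integer evaluation -/
def evI : List ℤ → ℤ → ℤ
  | [], _ => 0
  | a :: p, x => a + x * evI p x

/-- sum of the absolute values of the coefficients -/
def pnrm : List ℤ → ℤ
  | [] => 0
  | a :: p => |a| + pnrm p

/-- first coefficient minus the absolute values of the others -/
def plow : List ℤ → ℤ
  | [] => 0
  | a :: p => a - pnrm p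

theorem ev_evI (p : List ℤ) (x : ℤ) : ev p (x : ℝ) = (evI p x : ℝ) := by
  induction p with
  | nil => simp [ev, evI]
  | cons a p ih => simp [ev, evI, ih]

theorem ev_padd (p q : List ℤ) (x : ℝ) : ev (padd p q) x = ev p x + ev q x := by
  induction p generalizing q with
  | nil => simp [padd, ev]
  | cons a p ih =>
    cases q with
    | nil => simp [padd, ev]
    | cons b q => simp [padd, ev, ih]; ring

theorem ev_psmul (c : ℤ) (p : List ℤ) (x : ℝ) : ev (psmul c p) x = c * ev p x := by
  induction p with
  | nil => simp [psmul, ev]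
  | cons a p ih => simp [psmul, ev, ih]; ring

theorem ev_pmul (p q : List ℤ) (x : ℝ) : ev (pmul p q) x = ev p x * ev q x := by
  induction p with
  | nil => simp [pmul, ev]
  | cons a p ih => simp [pmul, ev, ev_padd, ev_psmul, ih]; ring

theorem hasDerivAt_ev (p : List ℤ) (x : ℝ) : HasDerivAt (ev p) (ev (pder p) x) x := by
  induction p with
  | nil =>
    have : ev ([] : List ℤ) = fun _ => (0 : ℝ) := by funext y; simp [ev]
    rw [this]
    simpa [pder, ev] using hasDerivAt_const x (0 : ℝ)
  | cons a p ih =>
    have h1 : ev (a :: p) = fun y => (a : ℝ) + y * ev p y := by funext y; simp [ev]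
    rw [h1]
    have h2 := ((hasDerivAt_id x).mul ih).const_add (a : ℝ)
    refine h2.congr_deriv ?_
    simp [pder, ev_padd, ev]

theorem abs_ev_le (p : List ℤ) {x : ℝ} (hx : |x| ≤ 1) : |ev p x| ≤ (pnrm p : ℝ) := by
  induction p with
  | nil => simp [ev, pnrm]
  | cons a p ih =>
    simp only [ev, pnrm]
    push_cast
    calc |(a : ℝ) + x * ev p x| ≤ |(a : ℝ)| + |x| * |ev p x| := by
          rw [← abs_mul]; exact abs_add_le _ _
      _ ≤ |(a : ℝ)| + 1 * (pnrm p : ℝ) := by gcongr
      _ = _ := by ring

theorem plow_le_ev (p : List ℤ) {x : ℝ} (hx : |x| ≤ 1) : (plow p : ℝ) ≤ ev p x := by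
  cases p with
  | nil => simp [ev, plow]
  | cons a p =>
    simp only [ev, plow]
    push_cast
    have h1 : |x * ev p x| ≤ (pnrm p : ℝ) := by
      rw [abs_mul]
      calc |x| * |ev p x| ≤ 1 * (pnrm p : ℝ) := by
            gcongr
            exact abs_ev_le p hx
        _ = _ := by ring
    have := (abs_le.mp h1).1
    linarith

end Pool.Agent.H3.TB
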