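import Pool.Agent.H3.TB.Check

/-! Soundness of the checker. -/

set_option autoImplicit false
set_option exponentiation.threshold 1000
set_option maxHeartbeats 4000000

open Complex Set

namespace Pool.Agent.H3.TB

theorem OO_cast : ((OO : ℤ) : ℝ) = 2 ^ 80 := by norm_num [OO]

theorem ev_single (a : ℤ) (x : ℝ) : ev [a] x = a := by simp [ev]

theorem ev_pA (c : Pc) (θ : ℝ) : ev (pA c) θ = ev c.wr θ ^ 2 + ev c.wi θ ^ 2 := by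
  unfold pA; rw [ev_padd, ev_pmul, ev_pmul]; ring

theorem ev_pw1 (c : Pc) (θ : ℝ) : ev (pw1 c) θ = ev c.wr θ - 2 ^ 80 := by
  unfold pw1; rw [ev_padd, ev_single]; push_cast [OO_cast]; ring

theorem ev_pB (c : Pc) (θ : ℝ) : ev (pB c) θ = (ev c.wr θ - 2 ^ 80) ^ 2 + ev c.wi θ ^ 2 := by
  unfold pB; rw [ev_padd, ev_pmul, ev_pmul, ev_pw1]; ring

theorem norm_Wc_sq (c : Pc) (θ : ℝ) : ‖Wc c θ‖ ^ 2 = ev (pA c) θ / 2 ^ 160 := by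
  unfold Wc; rw [norm_cx_sq, ev_pA]; ring

theorem Wc_sub_one (c : Pc) (θ : ℝ) :
    Wc c θ - 1 = (((ev c.wr θ - 2 ^ 80) / 2 ^ 80 : ℝ) : ℂ) + ((ev c.wi θ / 2 ^ 80 : ℝ) : ℂ) * I := by
  unfold Wc; push_cast; ring

theorem norm_Wc1_sq (c : Pc) (θ : ℝ) : ‖Wc c θ - 1‖ ^ 2 = ev (pB c) θ / 2 ^ 160 := by
  rw [Wc_sub_one, norm_cx_sq, ev_pB]; ring

theorem lower_of {w : ℝ} {L : List ℤ} {r : ℕ} {θ : ℝ} (hθ : |θ| ≤ 1) (hw : 0 ≤ w) (h : w ^ 2 = ev L θ / 2 ^ 160)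
    (hr : (r : ℤ) ^ 2 * 2 ^ 120 ≤ plow L) : (r : ℝ) / 2 ^ 20 ≤ w := by
  have h1 : ((r : ℝ)) ^ 2 * 2 ^ 120 ≤ (plow L : ℝ) := by exact_mod_cast hr
  have h2 := plow_le_ev L hθ
  have h3 : ((r : ℝ) / 2 ^ 20) ^ 2 ≤ w ^ 2 := by
    rw [h]
    rw [le_div_iff₀ (by positivity)]
    have : ((r : ℝ) / 2 ^ 20) ^ 2 * 2 ^ 160 = (r : ℝ) ^ 2 * 2 ^ 120 := by ring
    rw [this]; linarith
  exact le_of_sq_le_sq h3 hw |> fun h => h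

theorem eta_of {w : ℝ} {p L : List ℤ} {e : ℕ} {θ : ℝ} (hθ : |θ| ≤ 1) (h : w ^ 2 = ev L θ / 2 ^ 160)
    (he : pnrm (padd (pmul (pmul p p) L) [-OO ^ 4]) ≤ e * OO ^ 3) :
    |(ev p θ / 2 ^ 80) ^ 2 * w ^ 2 - 1| ≤ (e : ℝ) / 2 ^ 80 := by
  have h1 : ((pnrm (padd (pmul (pmul p p) L) [-OO ^ 4]) : ℤ) : ℝ) ≤ (e : ℝ) * (2 ^ 80) ^ 3 := by
    rw [← OO_cast]; exact_mod_cast he
  have h2 := abs_ev_le (padd (pmul (pmul p p) L) [-OO ^ 4]) hθ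
  rw [ev_padd, ev_pmul, ev_pmul, ev_single] at h2
  push_cast [OO_cast] at h2
  have h3 : (ev p θ / 2 ^ 80) ^ 2 * w ^ 2 - 1 = (ev p θ * ev p θ * ev L θ + -(2 ^ 80) ^ 4) / 2 ^ 320 := by
    rw [h]; ring
  rw [h3, abs_div, abs_of_pos (by positivity : (0:ℝ) < 2 ^ 320), div_le_div_iff₀ (by positivity) (by positivity)]
  calc |ev p θ * ev p θ * ev L θ + -(2 ^ 80) ^ 4| * 2 ^ 80 ≤ ((e : ℝ) * (2 ^ 80) ^ 3) * 2 ^ 80 := by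
        gcongr; exact h2.trans h1
    _ = (e : ℝ) * 2 ^ 320 := by ring

/-- the polynomial part of the defect -/
theorem defect_poly (c : Pc) (θ : ℝ) :
    Wc2 c θ + 2 * I * Wc1 c θ - Wc c θ + 19 / 82 + 63 / 82 * ((((ev c.p θ / 2 ^ 80) ^ 3 : ℝ) : ℂ) * Wc c θ) +
      19 / 82 * ((((ev c.q θ / 2 ^ 80) ^ 3 : ℝ) : ℂ) * (Wc c θ - 1)) =
    ((ev (pdr c) θ / (82 * 2 ^ 320) : ℝ) : ℂ) + ((ev (pdi c) θ / (82 * 2 ^ 320) : ℝ) : ℂ) * I := by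
  have hr : ev (pdr c) θ = 82 * 16 * (2 ^ 80) ^ 3 * ev (pder (pder c.wr)) θ - 82 * 8 * (2 ^ 80) ^ 3 * ev (pder c.wi) θ
      - 82 * (2 ^ 80) ^ 3 * ev c.wr θ + 19 * (2 ^ 80) ^ 4 + 63 * (ev c.wr θ * ev c.p θ ^ 3) +
      19 * ((ev c.wr θ - 2 ^ 80) * ev c.q θ ^ 3) := by
    unfold pdr pp3 pq3
    simp only [ev_padd, ev_psmul, ev_pmul, ev_single, ev_pw1]
    push_cast [OO_cast]
    ring
  have hi : ev (pdi c) θ = 82 * 16 * (2 ^ 80) ^ 3 * ev (pder (pder c.wi)) θ + 82 * 8 * (2 ^ 80) ^ 3 * ev (pder c.wr) θ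
      - 82 * (2 ^ 80) ^ 3 * ev c.wi θ + 63 * (ev c.wi θ * ev c.p θ ^ 3) + 19 * (ev c.wi θ * ev c.q θ ^ 3) := by
    unfold pdi pp3 pq3
    simp only [ev_padd, ev_psmul, ev_pmul]
    push_cast [OO_cast]
    ring
  rw [hr, hi]
  unfold Wc Wc1 Wc2
  push_cast
  generalize (ev (pder (pder c.wr)) θ : ℂ) = a1
  generalize (ev (pder (pder c.wi)) θ : ℂ) = a2
  generalize (ev (pder c.wr) θ : ℂ) = a3
  generalize (ev (pder c.wi) θ : ℂ) = a4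
  generalize (ev c.wr θ : ℂ) = a5
  generalize (ev c.wi θ : ℂ) = a6
  generalize (ev c.p θ : ℂ) = a7
  generalize (ev c.q θ : ℂ) = a8
  field_simp
  ring_nf
  rw [I_sq]
  ring

theorem chk_sound (c : Pc) (h : chk c = true) {t₀ : ℝ} {x y th : ℝ → ℂ}
    (hx : ∀ t ∈ Icc t₀ (t₀ + 1 / 2), HasDerivAt x (y t) t)
    (hy : ∀ t ∈ Icc t₀ (t₀ + 1 / 2), HasDerivAt y (fr t (x t) + th t) t)
    (hth : ∀ t ∈ Icc t₀ (t₀ + 1 / 2), ‖th t‖ ≤ 1 / 10 ^ 20)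
    (h0 : (c.al : ℝ) / 64 * ‖x t₀ - cexp (I * t₀) * (Wc c (-1) - 19 / 82)‖ ≤ c.b / 2 ^ 100)
    (h1 : ‖y t₀ - cexp (I * t₀) * (Wc1 c (-1) + I * (Wc c (-1) - 19 / 82))‖ ≤ c.b / 2 ^ 100) :
    ∀ t ∈ Icc t₀ (t₀ + 1 / 2),
      (c.al : ℝ) / 64 * ‖x t - cexp (I * t) * (Wc c (4 * (t - t₀) - 1) - 19 / 82)‖ ≤
        c.b / 2 ^ 100 * (64 / 63) ^ c.ka ∧
      ‖y t - cexp (I * t) * (Wc1 c (4 * (t - t₀) - 1) + I * (Wc c (4 * (t - t₀) - 1) - 19 / 82))‖ ≤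
        c.b / 2 ^ 100 * (64 / 63) ^ c.ka ∧
      9 / 20 ≤ ‖x t + 19 / 82 * cexp (I * t)‖ ∧ 9 / 20 ≤ ‖x t - 63 / 82 * cexp (I * t)‖ := by
  simp only [chk, Bool.and_eq_true, decide_eq_true_eq] at h
  obtain ⟨⟨⟨⟨⟨⟨⟨⟨⟨⟨⟨⟨⟨⟨⟨⟨⟨⟨⟨k1, k2⟩, k3⟩, k4⟩, k5⟩, k6⟩, k7⟩, k8⟩, k9⟩, k10⟩, k11⟩, k12⟩, k13⟩, k14⟩, k15⟩, k16⟩, k17⟩, k18⟩, k19⟩, k20⟩ := h
  have hal : (0 : ℝ) < c.al := by exact_mod_cast k19
  have hb : (0 : ℝ) < c.b := by exact_mod_cast k20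
  have hn1 : (9 : ℝ) / 20 ≤ c.n1 / 2 ^ 20 := by
    have : (9 : ℝ) * 2 ^ 20 ≤ 20 * c.n1 := by exact_mod_cast k11
    rw [le_div_iff₀ (by positivity)]; linarith
  have hn2 : (9 : ℝ) / 20 ≤ c.n2 / 2 ^ 20 := by
    have : (9 : ℝ) * 2 ^ 20 ≤ 20 * c.n2 := by exact_mod_cast k12
    rw [le_div_iff₀ (by positivity)]; linarith
  have hn1' : (0 : ℝ) < c.n1 := by
    have h1 : (0 : ℝ) < c.n1 / 2 ^ 20 := by linarith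
    by_contra hc
    have : (c.n1 : ℝ) / 2 ^ 20 ≤ 0 := div_nonpos_of_nonpos_of_nonneg (not_lt.mp hc) (by positivity)
    linarith
  have hn2' : (0 : ℝ) < c.n2 := by
    have h1 : (0 : ℝ) < c.n2 / 2 ^ 20 := by linarith
    by_contra hc
    have : (c.n2 : ℝ) / 2 ^ 20 ≤ 0 := div_nonpos_of_nonpos_of_nonneg (not_lt.mp hc) (by positivity)
    linarith
  have hexp : Real.exp ((c.ka : ℝ) / 32 * (1 / 2)) ≤ (64 / 63) ^ c.ka := by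
    have e1 : (c.ka : ℝ) / 32 * (1 / 2) = c.ka * (1 / 64) := by ring
    rw [e1, Real.exp_nat_mul]
    gcongr
    have e2 : 1 - 1 / 64 ≤ Real.exp (-(1 / 64)) := by
      have := Real.add_one_le_exp (-(1 / 64 : ℝ))
      linarith
    rw [Real.exp_neg] at e2
    have e3 := Real.exp_pos (1 / 64 : ℝ)
    have e4 : (1 - 1 / 64) * Real.exp (1 / 64) ≤ 1 := by
      calc (1 - 1 / 64) * Real.exp (1 / 64) ≤ (Real.exp (1 / 64))⁻¹ * Real.exp (1 / 64) := by gcongr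
        _ = 1 := inv_mul_cancel₀ e3.ne'
    linarith
  -- the geometry for one parameter
  have geo : ∀ θ : ℝ, |θ| ≤ 1 → (c.r1 : ℝ) / 2 ^ 20 ≤ ‖Wc c θ‖ ∧ (c.r2 : ℝ) / 2 ^ 20 ≤ ‖Wc c θ - 1‖ ∧
      ‖Wc2 c θ + 2 * I * Wc1 c θ - Wc c θ + 19 / 82 + 63 / 82 * ker (1/4) (Wc c θ) +
        19 / 82 * ker (1/4) (Wc c θ - 1)‖ ≤ c.d / 2 ^ 100 := by
    intro θ hθ
    have g1 := lower_of hθ (norm_nonneg _) (norm_Wc_sq c θ) k9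
    have g2 := lower_of hθ (norm_nonneg _) (norm_Wc1_sq c θ) k10
    refine ⟨g1, g2, ?_⟩
    have hr1 : (c.n1 : ℝ) / 2 ^ 20 ≤ c.r1 / 2 ^ 20 := by
      have : (c.n1 : ℝ) * 2 ^ 40 + c.ee ≤ c.r1 * 2 ^ 40 := by exact_mod_cast k13
      have h0 : (0 : ℝ) ≤ c.ee := Nat.cast_nonneg _
      gcongr; nlinarith
    have hr2 : (c.n2 : ℝ) / 2 ^ 20 ≤ c.r2 / 2 ^ 20 := by
      have : (c.n2 : ℝ) * 2 ^ 40 + c.ee ≤ c.r2 * 2 ^ 40 := by exact_mod_cast k14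
      have h0 : (0 : ℝ) ≤ c.ee := Nat.cast_nonneg _
      gcongr; nlinarith
    have w1 : 1 / 4 ≤ ‖Wc c θ‖ := by linarith
    have w2 : 1 / 4 ≤ ‖Wc c θ - 1‖ := by linarith
    have η1 := eta_of (p := c.p) hθ (norm_Wc_sq c θ) k1
    have η2 := eta_of (p := c.q) hθ (norm_Wc1_sq c θ) k2
    have s1 : (c.e1 : ℝ) / 2 ^ 80 ≤ 1 / 100 := by
      have : 100 * (c.e1 : ℝ) ≤ 2 ^ 80 := by rw [← OO_cast]; exact_mod_cast k3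
      rw [div_le_iff₀ (by positivity)]; linarith
    have s2 : (c.e2 : ℝ) / 2 ^ 80 ≤ 1 / 100 := by
      have : 100 * (c.e2 : ℝ) ≤ 2 ^ 80 := by rw [← OO_cast]; exact_mod_cast k4
      rw [div_le_iff₀ (by positivity)]; linarith
    have P0 : 0 < ev c.p θ / 2 ^ 80 := by
      have a1 : (0 : ℝ) < (plow c.p : ℝ) := by exact_mod_cast k5
      have := plow_le_ev c.p hθ
      exact div_pos (by linarith) (by positivity)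
    have Q0 : 0 < ev c.q θ / 2 ^ 80 := by
      have a1 : (0 : ℝ) < (plow c.q : ℝ) := by exact_mod_cast k6
      have := plow_le_ev c.q hθ
      exact div_pos (by linarith) (by positivity)
    have Pm : ev c.p θ / 2 ^ 80 ≤ 1 := by
      have a1 : ((pnrm c.p : ℤ) : ℝ) ≤ 2 ^ 80 := by rw [← OO_cast]; exact_mod_cast k7
      have := (le_abs_self _).trans (abs_ev_le c.p hθ)
      rw [div_le_one (by positivity)]; linarith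
    have Qm : ev c.q θ / 2 ^ 80 ≤ 21 / 10 := by
      have a1 : 10 * ((pnrm c.q : ℤ) : ℝ) ≤ 21 * 2 ^ 80 := by rw [← OO_cast]; exact_mod_cast k8
      have := (le_abs_self _).trans (abs_ev_le c.q hθ)
      rw [div_le_iff₀ (by positivity)]; linarith
    have K1 := ker_poly P0 s1 η1 w1 Pm
    have K2 := ker_poly Q0 s2 η2 w2 Qm
    have split : Wc2 c θ + 2 * I * Wc1 c θ - Wc c θ + 19 / 82 + 63 / 82 * ker (1/4) (Wc c θ) +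
        19 / 82 * ker (1/4) (Wc c θ - 1) =
        (Wc2 c θ + 2 * I * Wc1 c θ - Wc c θ + 19 / 82 + 63 / 82 * ((((ev c.p θ / 2 ^ 80) ^ 3 : ℝ) : ℂ) * Wc c θ) +
          19 / 82 * ((((ev c.q θ / 2 ^ 80) ^ 3 : ℝ) : ℂ) * (Wc c θ - 1))) +
        (((63 / 82 : ℝ) : ℂ) * (ker (1/4) (Wc c θ) - (((ev c.p θ / 2 ^ 80) ^ 3 : ℝ) : ℂ) * Wc c θ) +
        ((19 / 82 : ℝ) : ℂ) * (ker (1/4) (Wc c θ - 1) - (((ev c.q θ / 2 ^ 80) ^ 3 : ℝ) : ℂ) * (Wc c θ - 1))) := by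
      push_cast; ring
    rw [split, defect_poly]
    have d1 : ((pnrm (pdr c) : ℤ) : ℝ) + ((pnrm (pdi c) : ℤ) : ℝ) + 82 * (2 * c.e1 + 3 * c.e2) * (2 ^ 80) ^ 3 ≤
        82 * (c.d : ℝ) * 2 ^ 220 := by rw [← OO_cast]; exact_mod_cast k17
    have d2 := abs_ev_le (pdr c) hθ
    have d3 := abs_ev_le (pdi c) hθ
    refine (norm_add_le _ _).trans ?_
    refine (add_le_add (norm_cx_le _ _) (norm_add_le _ _)).trans ?_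
    rw [norm_mul, norm_mul, Complex.norm_real, Complex.norm_real, Real.norm_of_nonneg (by norm_num : (0:ℝ) ≤ 63/82),
      Real.norm_of_nonneg (by norm_num : (0:ℝ) ≤ 19/82), abs_div, abs_div,
      abs_of_pos (by positivity : (0:ℝ) < 82 * 2 ^ 320)]
    have E1 : (0 : ℝ) ≤ c.e1 := Nat.cast_nonneg _
    have E2 : (0 : ℝ) ≤ c.e2 := Nat.cast_nonneg _
    calc |ev (pdr c) θ| / (82 * 2 ^ 320) + |ev (pdi c) θ| / (82 * 2 ^ 320) +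
          (63 / 82 * ‖ker (1/4) (Wc c θ) - (((ev c.p θ / 2 ^ 80) ^ 3 : ℝ) : ℂ) * Wc c θ‖ +
          19 / 82 * ‖ker (1/4) (Wc c θ - 1) - (((ev c.q θ / 2 ^ 80) ^ 3 : ℝ) : ℂ) * (Wc c θ - 1)‖)
        ≤ (pnrm (pdr c) : ℝ) / (82 * 2 ^ 320) + (pnrm (pdi c) : ℝ) / (82 * 2 ^ 320) +
          (63 / 82 * (21 / 10 * (c.e1 / 2 ^ 80) * 1 ^ 2) + 19 / 82 * (21 / 10 * (c.e2 / 2 ^ 80) * (21 / 10) ^ 2)) := by
          gcongr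
      _ ≤ (pnrm (pdr c) : ℝ) / (82 * 2 ^ 320) + (pnrm (pdi c) : ℝ) / (82 * 2 ^ 320) +
          (2 * (c.e1 / 2 ^ 80) + 3 * (c.e2 / 2 ^ 80)) := by
          have f1 : (0 : ℝ) ≤ c.e1 / 2 ^ 80 := by positivity
          have f2 : (0 : ℝ) ≤ c.e2 / 2 ^ 80 := by positivity
          nlinarith
      _ = (((pnrm (pdr c) : ℤ) : ℝ) + ((pnrm (pdi c) : ℤ) : ℝ) + 82 * (2 * c.e1 + 3 * c.e2) * (2 ^ 80) ^ 3) /
          (82 * 2 ^ 320) := by ring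
      _ ≤ (82 * (c.d : ℝ) * 2 ^ 220) / (82 * 2 ^ 320) := by gcongr
      _ = c.d / 2 ^ 100 := by ring
  have hθ : ∀ t ∈ Icc t₀ (t₀ + 1 / 2), |4 * (t - t₀) - 1| ≤ 1 := by
    intro t ht
    rw [abs_le]
    constructor <;> linarith [ht.1, ht.2]
  have hee1 : (c.n1 : ℝ) / 2 ^ 20 + c.ee / 2 ^ 60 ≤ c.r1 / 2 ^ 20 := by
    have : (c.n1 : ℝ) * 2 ^ 40 + c.ee ≤ c.r1 * 2 ^ 40 := by exact_mod_cast k13
    have e1 : (c.n1 : ℝ) / 2 ^ 20 + c.ee / 2 ^ 60 = (c.n1 * 2 ^ 40 + c.ee) / 2 ^ 60 := by ring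
    have e2 : (c.r1 : ℝ) / 2 ^ 20 = (c.r1 * 2 ^ 40) / 2 ^ 60 := by ring
    rw [e1, e2]; gcongr
  have hee2 : (c.n2 : ℝ) / 2 ^ 20 + c.ee / 2 ^ 60 ≤ c.r2 / 2 ^ 20 := by
    have : (c.n2 : ℝ) * 2 ^ 40 + c.ee ≤ c.r2 * 2 ^ 40 := by exact_mod_cast k14
    have e1 : (c.n2 : ℝ) / 2 ^ 20 + c.ee / 2 ^ 60 = (c.n2 * 2 ^ 40 + c.ee) / 2 ^ 60 := by ring
    have e2 : (c.r2 : ℝ) / 2 ^ 20 = (c.r2 * 2 ^ 40) / 2 ^ 60 := by ring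
    rw [e1, e2]; gcongr
  have hK : (c.al : ℝ) / 64 * (c.b / 2 ^ 100) + c.d / 2 ^ 100 + 1 / 10 ^ 20 < c.ka / 32 * (c.b / 2 ^ 100) := by
    have : (c.al : ℝ) * c.b + 64 * (c.d + 12676506003) < 2 * c.ka * c.b := by exact_mod_cast k18
    have e1 : (1 : ℝ) / 10 ^ 20 ≤ 12676506003 / 2 ^ 100 := by norm_num
    have e2 : (c.al : ℝ) / 64 * (c.b / 2 ^ 100) + c.d / 2 ^ 100 + 12676506003 / 2 ^ 100 =
        ((c.al : ℝ) * c.b + 64 * (c.d + 12676506003)) / (64 * 2 ^ 100) := by ring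
    have e3 : (c.ka : ℝ) / 32 * (c.b / 2 ^ 100) = (2 * c.ka * c.b) / (64 * 2 ^ 100) := by ring
    have e4 : ((c.al : ℝ) * c.b + 64 * (c.d + 12676506003)) / (64 * 2 ^ 100) < (2 * c.ka * c.b) / (64 * 2 ^ 100) := by
      gcongr
    rw [e3]
    linarith
  have hτ : 2 * (63 / 82 / ((c.n1 : ℝ) / 2 ^ 20) ^ 3 + 19 / 82 / ((c.n2 : ℝ) / 2 ^ 20) ^ 3) ≤ ((c.al : ℝ) / 64) ^ 2 := by
    have k : 2 * 4096 * 2 ^ 60 * (63 * (c.n2 : ℝ) ^ 3 + 19 * (c.n1 : ℝ) ^ 3) ≤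
        (c.al : ℝ) ^ 2 * 82 * (c.n1 : ℝ) ^ 3 * (c.n2 : ℝ) ^ 3 := by exact_mod_cast k16
    have e1 : 2 * (63 / 82 / ((c.n1 : ℝ) / 2 ^ 20) ^ 3 + 19 / 82 / ((c.n2 : ℝ) / 2 ^ 20) ^ 3) =
        (2 * 4096 * 2 ^ 60 * (63 * (c.n2 : ℝ) ^ 3 + 19 * (c.n1 : ℝ) ^ 3)) /
          (4096 * 82 * (c.n1 : ℝ) ^ 3 * (c.n2 : ℝ) ^ 3) := by
      field_simp
    have e2 : ((c.al : ℝ) / 64) ^ 2 = ((c.al : ℝ) ^ 2 * 82 * (c.n1 : ℝ) ^ 3 * (c.n2 : ℝ) ^ 3) /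
          (4096 * 82 * (c.n1 : ℝ) ^ 3 * (c.n2 : ℝ) ^ 3) := by
      rw [show (4096 : ℝ) = 64 ^ 2 by norm_num]
      field_simp
    rw [e1, e2]
    gcongr
  have he : c.b / 2 ^ 100 * Real.exp ((c.ka : ℝ) / 32 * (1 / 2)) ≤ c.al / 64 * (c.ee / 2 ^ 60) := by
    have k : (c.b : ℝ) * 64 ^ (c.ka + 1) ≤ c.al * 63 ^ c.ka * c.ee * 2 ^ 40 := by exact_mod_cast k15
    calc c.b / 2 ^ 100 * Real.exp ((c.ka : ℝ) / 32 * (1 / 2)) ≤ c.b / 2 ^ 100 * (64 / 63) ^ c.ka := by gcongr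
      _ = ((c.b : ℝ) * 64 ^ (c.ka + 1)) / (64 * 2 ^ 100 * 63 ^ c.ka) := by
          rw [div_pow]; field_simp; ring
      _ ≤ (c.al * 63 ^ c.ka * c.ee * 2 ^ 40) / (64 * 2 ^ 100 * 63 ^ c.ka) := by gcongr
      _ = c.al / 64 * (c.ee / 2 ^ 60) := by field_simp
  have main := piece_abs (t₀ := t₀) (h := 1 / 2) (α := (c.al : ℝ) / 64) (K := (c.ka : ℝ) / 32) (b := c.b / 2 ^ 100)
    (d := c.d / 2 ^ 100) (ω := 1 / 10 ^ 20) (ρ₁ := (c.n1 : ℝ) / 2 ^ 20) (ρ₂ := (c.n2 : ℝ) / 2 ^ 20)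
    (e := c.ee / 2 ^ 60) (W := fun t => Wc c (4 * (t - t₀) - 1)) (W1 := fun t => Wc1 c (4 * (t - t₀) - 1))
    (W2 := fun t => Wc2 c (4 * (t - t₀) - 1)) (x := x) (y := y) (th := th) (by positivity) (by positivity)
    (by positivity) (by positivity) hK (by linarith) (by linarith) hτ he
    (fun t _ => hasDerivAt_Wc c t₀ t) (fun t _ => hasDerivAt_Wc1 c t₀ t)
    (fun t ht => (geo _ (hθ t ht)).2.2) (fun t ht => hee1.trans (geo _ (hθ t ht)).1)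
    (fun t ht => hee2.trans (geo _ (hθ t ht)).2.1) hx hy hth
    (by simpa using h0) (by simpa using h1)
  intro t ht
  obtain ⟨m1, m2, m3, m4⟩ := main t ht
  have hB : (c.b : ℝ) / 2 ^ 100 * Real.exp ((c.ka : ℝ) / 32 * (t - t₀)) ≤ c.b / 2 ^ 100 * (64 / 63) ^ c.ka := by
    refine le_trans ?_ (mul_le_mul_of_nonneg_left hexp (by positivity))
    gcongr
    linarith [ht.2]
  exact ⟨m1.trans hB, m2.trans hB, hn1.trans m3, hn2.trans m4⟩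

end Pool.Agent.H3.TB
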