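import Pool.Agent.H3.TB.Defs

/-! Stubs for project 3B (MP_6e7c44_mp). NOT a hand-in; each stub is proved in its own file
`Pool/Agent/H3/TB/<name>.lean`. -/

set_option autoImplicit false

open Complex

namespace Pool.Agent.H3.TB

/-! ### 3B-ODE -/

/-- A globally Lipschitz field has global solutions. -/
theorem exists_global {E : Type} [NormedAddCommGroup E] [NormedSpace ℝ E] [CompleteSpace E]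
    {X : E → E} {K : NNReal} (hK : LipschitzWith K X) (x : E) :
    ∃ γ : ℝ → E, γ 0 = x ∧ ∀ t, HasDerivAt γ (X (γ t)) t := sorry

theorem exists_jsol (m12 m3 a : ℝ) (u₀ v₀ x₀ y₀ : ℂ) :
    ∃ u v x y : ℝ → ℂ, JSol m12 m3 a u v x y ∧ u 0 = u₀ ∧ v 0 = v₀ ∧ x 0 = x₀ ∧ y 0 = y₀ := sorry

/-! ### 3B-KER -/

theorem ker_eq {ε : ℝ} {x : ℂ} (h : ε ≤ ‖x‖) : ker ε x = ((1 / ‖x‖ ^ 3 : ℝ) : ℂ) * x := sorry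

theorem ker_norm {ε : ℝ} (hε : 0 < ε) (x : ℂ) : ‖ker ε x‖ ≤ 1 / ε ^ 2 := sorry

theorem ker_norm_le {ε : ℝ} (hε : 0 < ε) {x : ℂ} (hx : x ≠ 0) : ‖ker ε x‖ ≤ 1 / ‖x‖ ^ 2 := sorry

theorem ker_lip {ε : ℝ} (hε : 0 < ε) (x y : ℂ) : ‖ker ε x - ker ε y‖ ≤ 4 / ε ^ 3 * ‖x - y‖ := sorry

/-- `|x/|x|^3 - y/|y|^3| = ... ≤ (a+b)/(a^2 b^2) |x-y|` for `|x| = a`, `|y| = b`. -/
theorem ker_lip_loc {ε ρ : ℝ} (hε : 0 < ε) (hρ : ε ≤ ρ) {x y : ℂ} (hx : ρ ≤ ‖x‖) (hy : ρ ≤ ‖y‖) :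
    ‖ker ε x - ker ε y‖ ≤ 2 / ρ ^ 3 * ‖x - y‖ := sorry

/-- second order remainder at a positive real point -/
theorem ker_taylor {ε X : ℝ} (hε : 0 < ε) (hX : ε ≤ 99 / 100 * X) {h : ℂ} (hh : ‖h‖ ≤ X / 100) :
    ‖ker ε ((X : ℂ) + h) - (((1 / X ^ 2 : ℝ) : ℂ) -
      ((1 / (2 * X ^ 3) : ℝ) : ℂ) * (h + 3 * (starRingEnd ℂ) h))‖ ≤ 13 * ‖h‖ ^ 2 / X ^ 4 := sorry

theorem ker_rot {ε : ℝ} {c : ℂ} (hc : ‖c‖ = 1) (x : ℂ) : ker ε (c * x) = c * ker ε x := sorry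

/-! ### 3B-MODE : the exact unstable mode at the relative equilibrium -/

/-- The linearized equations in the rotating frame have the solution `(w, 1) (1 + i c) e^{l t}`; everything is
near the values for mass ratio 19/82, `m3 = 0`, `z = 1/2`. -/
theorem mode (ε : ℝ) (hε : 0 < ε) : ∃ η : ℝ, 0 < η ∧ ∀ m12 m3 a z : ℝ, IsRE m12 m3 a z → 0 < m3 → m3 < η →
    |z - 1 / 2| < η → |m12 - 1| ≤ ε ∧ |a - 19 / 82| ≤ ε ∧ ∃ l c w β : ℝ,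
      |l - ll| ≤ 1 / 10 ^ 9 ∧ |c - cc| ≤ 1 / 10 ^ 9 ∧ |w| ≤ ε ∧
      l ^ 2 - 1 - 2 * β = 2 * l * c ∧ (l ^ 2 - 1 + β) * c = -2 * l ∧
      β = (m12 + m3) * ((1 - a) * (1 + a * w) / (1 + z) ^ 3 + a * (1 - (1 - a) * w) / z ^ 3) ∧
      β * w = m12 * w - m3 * ((1 - (1 - a) * w) / z ^ 3 - (1 + a * w) / (1 + z) ^ 3) := sorry

/-! ### 3B-NEAR : the phase near the relative equilibrium -/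

theorem near (δ : ℝ) (hδ : 0 < δ) : ∃ η : ℝ, 0 < η ∧ ∀ m12 m3 a z : ℝ, IsRE m12 m3 a z → 0 < m3 → m3 < η →
    |z - 1 / 2| < η → |m12 - 1| ≤ δ ∧ |a - 19 / 82| ≤ δ ∧ ∃ (l : ℝ) (gu gx : ℂ), ∀ s : ℝ, 0 < s →
      s ≤ 1 / 10 ^ 9 → ∀ u v x y : ℝ → ℂ, JSol m12 m3 a u v x y →
      u 0 = 1 + (s : ℂ) * gu → v 0 = I * (1 + (s : ℂ) * gu) + (l : ℂ) * (s : ℂ) * gu →
      x 0 = (1 + z - a : ℝ) + (s : ℂ) * gx → y 0 = I * ((1 + z - a : ℝ) + (s : ℂ) * gx) + (l : ℂ) * (s : ℂ) * gx →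
      ∃ T : ℝ, 0 ≤ T ∧
        (∀ t ∈ Set.Icc 0 T, 2 / 5 ≤ ‖u t‖ ∧ 2 / 5 ≤ ‖x t + (a : ℂ) * u t‖ ∧
          2 / 5 ≤ ‖x t - (1 - (a : ℂ)) * u t‖) ∧
        ‖u T - cexp (I * T)‖ ≤ δ ∧ ‖v T - I * cexp (I * T)‖ ≤ δ ∧
        ‖x T - cexp (I * T) * Z0‖ ≤ 8 / 10 ^ 17 ∧ ‖y T - cexp (I * T) * Z1‖ ≤ 16 / 10 ^ 17 := sorry

/-! ### 3B-BIN : the binary is almost unperturbed on bounded time intervals (plain Gronwall) -/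

theorem binary (T δ : ℝ) (hT : 0 < T) (hδ : 0 < δ) : ∃ η : ℝ, 0 < η ∧ ∀ m12 m3 a : ℝ, |m12 - 1| ≤ η → |m3| ≤ η →
    ∀ u v x y : ℝ → ℂ, JSol m12 m3 a u v x y → ‖u 0 - 1‖ ≤ η → ‖v 0 - I‖ ≤ η →
      ∀ t ∈ Set.Icc 0 T, ‖u t - cexp (I * t)‖ ≤ δ ∧ ‖v t - I * cexp (I * t)‖ ≤ δ := sorry

/-! ### 3B-TR : the numerical part (restricted problem with a tiny perturbation `th`) -- helper3 -/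

theorem transit (x y th : ℝ → ℂ) (hx : ∀ t ∈ Set.Icc (0 : ℝ) 20, HasDerivAt x (y t) t)
    (hy : ∀ t ∈ Set.Icc (0 : ℝ) 20, HasDerivAt y (-(63 / 82 * ker (1/4) (x t + 19 / 82 * cexp (I * t)) +
      19 / 82 * ker (1/4) (x t - 63 / 82 * cexp (I * t))) + th t) t)
    (hth : ∀ t ∈ Set.Icc (0 : ℝ) 20, ‖th t‖ ≤ 1 / 10 ^ 20)
    (h0 : ‖x 0 - Z0‖ ≤ 8 / 10 ^ 17) (h1 : ‖y 0 - Z1‖ ≤ 16 / 10 ^ 17) :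
    (∀ t ∈ Set.Icc (0 : ℝ) 20, 9 / 20 ≤ ‖x t + 19 / 82 * cexp (I * t)‖ ∧ 9 / 20 ≤ ‖x t - 63 / 82 * cexp (I * t)‖) ∧
    ∃ E : ℂ, ‖E‖ = 1 ∧ 28 / 5 ≤ ((starRingEnd ℂ) E * x 20).re ∧ 17 / 25 ≤ ((starRingEnd ℂ) E * y 20).re := sorry

/-! ### 3B-ESC : escape -/

theorem escape : ∃ δ : ℝ, 0 < δ ∧ ∀ m12 m3 a : ℝ, |m12 - 1| ≤ δ → 0 < m3 → m3 ≤ δ → |a - 19 / 82| ≤ δ →
    ∀ u v x y : ℝ → ℂ, JSol m12 m3 a u v x y → ∀ P E : ℂ, ‖P‖ = 1 → ‖E‖ = 1 →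
      ‖u 0 - P‖ ≤ δ → ‖v 0 - I * P‖ ≤ δ →
      28 / 5 ≤ ((starRingEnd ℂ) E * x 0).re → 17 / 25 ≤ ((starRingEnd ℂ) E * y 0).re →
      ∀ t, 0 ≤ t → 2 / 5 ≤ ‖u t‖ ∧ 2 / 5 ≤ ‖x t + (a : ℂ) * u t‖ ∧ 2 / 5 ≤ ‖x t - (1 - (a : ℂ)) * u t‖ ∧
        5 + t / 10 ≤ ‖x t‖ ∧ ‖u t‖ ≤ 2 := sorry

/-! ### 3B-CHAIN : near + binary + transit + escape -/

theorem chain : ∃ η : ℝ, 0 < η ∧ ∀ m12 m3 a z : ℝ, IsRE m12 m3 a z → 0 < m3 → m3 < η →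
    |z - 1 / 2| < η → |m12 - 1| ≤ 1 / 10 ∧ |a - 19 / 82| ≤ 1 / 10 ∧ ∃ (l : ℝ) (gu gx : ℂ), ∀ s : ℝ, 0 < s →
      s ≤ 1 / 10 ^ 9 → ∀ u v x y : ℝ → ℂ, JSol m12 m3 a u v x y →
      u 0 = 1 + (s : ℂ) * gu → v 0 = I * (1 + (s : ℂ) * gu) + (l : ℂ) * (s : ℂ) * gu →
      x 0 = (1 + z - a : ℝ) + (s : ℂ) * gx → y 0 = I * ((1 + z - a : ℝ) + (s : ℂ) * gx) + (l : ℂ) * (s : ℂ) * gx →
      (∀ t, 0 ≤ t → 2 / 5 ≤ ‖u t‖ ∧ 2 / 5 ≤ ‖x t + (a : ℂ) * u t‖ ∧ 2 / 5 ≤ ‖x t - (1 - (a : ℂ)) * u t‖) ∧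
      ∃ T₀ : ℝ, 0 ≤ T₀ ∧ ∀ t, T₀ ≤ t → (t - T₀) / 10 ≤ ‖x t‖ ∧ ‖u t‖ ≤ 2 := sorry

/-! ### 3B-CONF : from Jacobi coordinates to the three-body problem -/

theorem of_jsol {m12 m3 a : ℝ} (h12 : 0 < m12) (h3 : 0 < m3) (ha : 0 < a) (ha1 : a < 1) {u v x y : ℝ → ℂ}
    (h : JSol m12 m3 a u v x y)
    (hd : ∀ t, 0 ≤ t → 2 / 5 ≤ ‖u t‖ ∧ 2 / 5 ≤ ‖x t + (a : ℂ) * u t‖ ∧ 2 / 5 ≤ ‖x t - (1 - (a : ℂ)) * u t‖) :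
    IsForwardSol (mass m12 m3 a) (fun t => (conf m12 m3 a (u t) (x t), conf m12 m3 a (v t) (y t))) := sorry

theorem re_sol {m12 m3 a z : ℝ} (h12 : 0 < m12) (h3 : 0 < m3) (ha : 0 < a) (ha1 : a < 1)
    (h : IsRE m12 m3 a z) :
    IsSol (mass m12 m3 a) (fun t => (conf m12 m3 a (cexp (I * t)) ((1 + z - a : ℝ) * cexp (I * t)),
      conf m12 m3 a (I * cexp (I * t)) ((1 + z - a : ℝ) * (I * cexp (I * t))))) ∧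
    IsRelPeriodic (fun t => (conf m12 m3 a (cexp (I * t)) ((1 + z - a : ℝ) * cexp (I * t)),
      conf m12 m3 a (I * cexp (I * t)) ((1 + z - a : ℝ) * (I * cexp (I * t))))) := sorry

/-- base version of the result -/
theorem base : ∃ η : ℝ, 0 < η ∧ ∀ m12 m3 a z : ℝ, IsRE m12 m3 a z → 0 < m3 → m3 < η → |z - 1 / 2| < η →
    0 < a ∧ a < 1 ∧ 0 < m12 ∧
    ∀ U ∈ nhds ((conf m12 m3 a 1 ((1 + z - a : ℝ) : ℂ), conf m12 m3 a I ((1 + z - a : ℝ) * I)) : Ph),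
      ∃ y : ℝ → Ph, y 0 ∈ U ∧ IsForwardSol (mass m12 m3 a) y ∧
        ∀ R : ℝ, ∃ t₀ : ℝ, ∀ t, t₀ ≤ t → R ≤ ‖(y t).1 2 - (y t).1 0‖ ∧ R ≤ ‖(y t).1 2 - (y t).1 1‖ ∧
          ‖(y t).1 1 - (y t).1 0‖ ≤ 2 := sorry

/-! ### 3B-WRAP : all collinear relative equilibria of a nonempty open set of mass triples, by scaling -/

/-- the collinear motion rotating with angular velocity `ω` -/
noncomputable def euler (r : Fin 3 → ℝ) (w : ℂ) (ω : ℝ) (t : ℝ) : Ph :=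
  (fun i => w * cexp (I * ω * t) * r i, fun i => w * (I * ω) * cexp (I * ω * t) * r i)

theorem wrap : ∃ η : ℝ, 0 < η ∧ ∀ m : Fin 3 → ℝ, (∀ i, 0 < m i) → m 2 < η * (m 0 + m 1) →
    |m 0 - 63 / 82 * (m 0 + m 1)| < η * (m 0 + m 1) →
    (∃ r : Fin 3 → ℝ, r 0 < r 1 ∧ r 1 < r 2 ∧ IsSol m (euler r 1 1)) ∧
    ∀ (r : Fin 3 → ℝ) (w : ℂ) (ω : ℝ), r 0 < r 1 → r 1 < r 2 → w ≠ 0 → ω ≠ 0 → IsSol m (euler r w ω) →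
      IsRelPeriodic (euler r w ω) ∧
      ∀ U ∈ nhds (euler r w ω 0), ∃ y : ℝ → Ph, y 0 ∈ U ∧ IsForwardSol m y ∧
        ∀ R : ℝ, ∃ t₀ : ℝ, ∀ t, t₀ ≤ t → R ≤ ‖(y t).1 2 - (y t).1 0‖ ∧ R ≤ ‖(y t).1 2 - (y t).1 1‖ := sorry

end Pool.Agent.H3.TB
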