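import Pool.Agent.H3.TB.Fold
import Pool.Agent.H3.TB.Data

/-! The transit: the orbit of the restricted problem from the neighbourhood of L2 to the far region. -/

set_option autoImplicit false
set_option exponentiation.threshold 1000
set_option maxHeartbeats 4000000
set_option maxRecDepth 100000

open Complex Set

namespace Pool.Agent.H3.TB

theorem chk_all : pcs.all chk = true := by decide +kernel

theorem lnk_all : lnks pcs = true := by decide +kernel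

theorem start_vals : evI pc0.wr (-1) = 1813388730630869581673850 ∧ evI pc0.wi (-1) = -1075640342651455 ∧
    evI (pder pc0.wr) (-1) = 468575205548983 ∧ evI (pder pc0.wi) (-1) = -416914244428460 := by
  decide +kernel

theorem end_vals : evI pc39.wr 1 = 6743597612426887509329473 ∧ evI pc39.wi 1 = 3116883957435262210510226 ∧
    evI (pder pc39.wr) 1 = 907276295170763777523618 ∧ evI (pder pc39.wi) 1 = -1449414903041453314290231 := by
  decide +kernel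

theorem Wc_int (c : Pc) (s : ℤ) (u v : ℤ) (h1 : evI c.wr s = u) (h2 : evI c.wi s = v) :
    Wc c (s : ℝ) = ((u / 2 ^ 80 : ℝ) : ℂ) + ((v / 2 ^ 80 : ℝ) : ℂ) * I := by
  unfold Wc; rw [ev_evI, ev_evI, h1, h2]

theorem Wc1_int (c : Pc) (s : ℤ) (u v : ℤ) (h1 : evI (pder c.wr) s = u) (h2 : evI (pder c.wi) s = v) :
    Wc1 c (s : ℝ) = ((4 * u / 2 ^ 80 : ℝ) : ℂ) + ((4 * v / 2 ^ 80 : ℝ) : ℂ) * I := by
  unfold Wc1; rw [ev_evI, ev_evI, h1, h2]

theorem start_near {x y : ℂ} (h0 : ‖x - Z0‖ ≤ 8 / 10 ^ 17) (h1 : ‖y - Z1‖ ≤ 16 / 10 ^ 17) :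
    Near pc0 (-1) (pc0.b / 2 ^ 100) 0 x y := by
  obtain ⟨v1, v2, v3, v4⟩ := start_vals
  have w1 := Wc_int pc0 (-1) _ _ v1 v2
  have w2 := Wc1_int pc0 (-1) _ _ v3 v4
  push_cast at w1 w2
  have hal : (pc0.al : ℝ) = 131 := by norm_num [pc0]
  have hb : (pc0.b : ℝ) = 221838855039940 := by norm_num [pc0]
  have d0 : Z0 - (Wc pc0 (-1) - 19 / 82) =
      ((52 / 41 + 1 / 10 ^ 9 + 19 / 82 - 1813388730630869581673850 / 2 ^ 80 : ℝ) : ℂ) + ((cc / 10 ^ 9 - -1075640342651455 / 2 ^ 80 : ℝ) : ℂ) * I := by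
    rw [w1, Z0]; push_cast; ring
  have n0 : ‖Z0 - (Wc pc0 (-1) - 19 / 82)‖ ≤ 2 / 10 ^ 18 := by
    rw [d0]
    refine (norm_cx_le _ _).trans ?_
    unfold cc
    norm_num [abs_le, abs_of_pos, abs_of_neg]
  have d1 : Z1 - (Wc1 pc0 (-1) + I * (Wc pc0 (-1) - 19 / 82)) = I * (Z0 - (Wc pc0 (-1) - 19 / 82)) +
      (((ll / 10 ^ 9 - 4 * 468575205548983 / 2 ^ 80 : ℝ) : ℂ) + ((ll * cc / 10 ^ 9 - 4 * -416914244428460 / 2 ^ 80 : ℝ) : ℂ) * I) := by
    rw [w2, Z1]; push_cast; ring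
  have n1 : ‖Z1 - (Wc1 pc0 (-1) + I * (Wc pc0 (-1) - 19 / 82))‖ ≤ 5 / 10 ^ 18 := by
    rw [d1]
    refine (norm_add_le _ _).trans ?_
    rw [norm_mul, norm_I, one_mul]
    have : |ll / 10 ^ 9 - 4 * 468575205548983 / 2 ^ 80| + |ll * cc / 10 ^ 9 - 4 * -416914244428460 / 2 ^ 80| ≤ 3 / 10 ^ 18 := by
      unfold ll cc
      norm_num [abs_le, abs_of_pos, abs_of_neg]
    have := (norm_cx_le (ll / 10 ^ 9 - 4 * 468575205548983 / 2 ^ 80) (ll * cc / 10 ^ 9 - 4 * -416914244428460 / 2 ^ 80)).trans this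
    linarith
  constructor
  · have e1 : x - cexp (I * (0 : ℝ)) * (Wc pc0 (-1) - 19 / 82) = (x - Z0) + (Z0 - (Wc pc0 (-1) - 19 / 82)) := by
      simp
    rw [e1, hal, hb]
    have := norm_add_le (x - Z0) (Z0 - (Wc pc0 (-1) - 19 / 82))
    have h : ‖x - Z0 + (Z0 - (Wc pc0 (-1) - 19 / 82))‖ ≤ 82 / 10 ^ 18 := by
      refine this.trans ((add_le_add h0 n0).trans ?_)
      norm_num
    calc ((131 : ℝ)) / 64 * ‖x - Z0 + (Z0 - (Wc pc0 (-1) - 19 / 82))‖ ≤ 131 / 64 * (82 / 10 ^ 18) := by gcongr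
      _ ≤ _ := by norm_num
  · have e1 : y - cexp (I * (0 : ℝ)) * (Wc1 pc0 (-1) + I * (Wc pc0 (-1) - 19 / 82)) =
        (y - Z1) + (Z1 - (Wc1 pc0 (-1) + I * (Wc pc0 (-1) - 19 / 82))) := by simp
    rw [e1, hb]
    refine (norm_add_le _ _).trans ((add_le_add h1 n1).trans ?_)
    norm_num

/-- the direction of the final projection, rotating frame -/
noncomputable def Eh : ℂ := ((21 / 29 : ℝ) : ℂ) + ((20 / 29 : ℝ) : ℂ) * I

theorem norm_Eh : ‖Eh‖ = 1 := by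
  have h : ‖Eh‖ ^ 2 = 1 := by
    unfold Eh; rw [norm_cx_sq]; norm_num
  nlinarith [norm_nonneg Eh]

theorem re_Eh (p q : ℝ) : ((starRingEnd ℂ) Eh * ((p : ℂ) + (q : ℂ) * I)).re = (21 * p + 20 * q) / 29 := by
  have h : (starRingEnd ℂ) Eh = ((21 / 29 : ℝ) : ℂ) - ((20 / 29 : ℝ) : ℂ) * I := by
    unfold Eh; rw [map_add, map_mul, conj_ofReal, conj_ofReal, conj_I]; ring
  rw [h]
  simp only [Complex.mul_re, Complex.sub_re, Complex.sub_im, Complex.add_re, Complex.add_im, Complex.ofReal_re,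
    Complex.ofReal_im, Complex.mul_im, I_re, I_im]
  ring

theorem end_far {x y : ℂ} {T : ℝ} (h : Near pc39 1 (pc39.b / 2 ^ 100 * (64 / 63) ^ pc39.ka) T x y) :
    28 / 5 ≤ ((starRingEnd ℂ) (cexp (I * T) * Eh) * x).re ∧
      17 / 25 ≤ ((starRingEnd ℂ) (cexp (I * T) * Eh) * y).re := by
  obtain ⟨v1, v2, v3, v4⟩ := end_vals
  have w1 := Wc_int pc39 1 _ _ v1 v2
  have w2 := Wc1_int pc39 1 _ _ v3 v4
  push_cast at w1 w2
  have hal : (pc39.al : ℝ) = 19 := by norm_num [pc39]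
  have hb : (pc39.b : ℝ) = 966845546535308275474382079 := by norm_num [pc39]
  have hka : pc39.ka = 10 := rfl
  obtain ⟨n1, n2⟩ := h
  rw [hb, hka] at n1 n2
  rw [hal] at n1
  have n1' : ‖x - cexp (I * T) * (Wc pc39 1 - 19 / 82)‖ ≤ 4 / 1000 := by
    have : (966845546535308275474382079 : ℝ) / 2 ^ 100 * (64 / 63) ^ 10 ≤ 19 / 64 * (4 / 1000) := by norm_num
    have := n1.trans this
    exact le_of_mul_le_mul_left this (by norm_num)
  have n2' : ‖y - cexp (I * T) * (Wc1 pc39 1 + I * (Wc pc39 1 - 19 / 82))‖ ≤ 1 / 1000 := n2.trans (by norm_num)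
  have rot : ∀ w : ℂ, (starRingEnd ℂ) (cexp (I * T) * Eh) * (cexp (I * T) * w) = (starRingEnd ℂ) Eh * w := by
    intro w
    have e1 : (starRingEnd ℂ) (cexp (I * T)) * cexp (I * T) = 1 := by
      rw [mul_comm, Complex.mul_conj, Complex.normSq_eq_norm_sq, norm_eit]; norm_num
    rw [map_mul]
    linear_combination ((starRingEnd ℂ) Eh * w) * e1
  have est : ∀ (z w : ℂ) (δ : ℝ), ‖z - cexp (I * T) * w‖ ≤ δ →
      ((starRingEnd ℂ) Eh * w).re - δ ≤ ((starRingEnd ℂ) (cexp (I * T) * Eh) * z).re := by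
    intro z w δ hδ
    have e1 : (starRingEnd ℂ) (cexp (I * T) * Eh) * z = (starRingEnd ℂ) Eh * w +
        (starRingEnd ℂ) (cexp (I * T) * Eh) * (z - cexp (I * T) * w) := by
      rw [← rot w]; ring
    rw [e1, Complex.add_re]
    have e2 : |((starRingEnd ℂ) (cexp (I * T) * Eh) * (z - cexp (I * T) * w)).re| ≤ δ := by
      refine (Complex.abs_re_le_norm _).trans ?_
      rw [norm_mul, RCLike.norm_conj, norm_mul, norm_eit, norm_Eh]
      linarith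
    have := (abs_le.mp e2).1
    linarith
  have f1 := est x _ _ n1'
  have f2 := est y _ _ n2'
  have g1 : Wc pc39 1 - 19 / 82 = ((6743597612426887509329473 / 2 ^ 80 - 19 / 82 : ℝ) : ℂ) + ((3116883957435262210510226 / 2 ^ 80 : ℝ) : ℂ) * I := by
    rw [w1]; push_cast; ring
  have g2 : Wc1 pc39 1 + I * (Wc pc39 1 - 19 / 82) = ((4 * 907276295170763777523618 / 2 ^ 80 - 3116883957435262210510226 / 2 ^ 80 : ℝ) : ℂ) +
      ((4 * (-1449414903041453314290231) / 2 ^ 80 + 6743597612426887509329473 / 2 ^ 80 - 19 / 82 : ℝ) : ℂ) * I := by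
    rw [w2, w1]; push_cast
    ring_nf
    rw [I_sq]
    ring
  rw [g1, re_Eh] at f1
  rw [g2, re_Eh] at f2
  constructor
  · refine le_trans ?_ f1; norm_num
  · refine le_trans ?_ f2; norm_num

theorem transit (x y th : ℝ → ℂ) (hx : ∀ t ∈ Set.Icc (0 : ℝ) 20, HasDerivAt x (y t) t)
    (hy : ∀ t ∈ Set.Icc (0 : ℝ) 20, HasDerivAt y (-(63 / 82 * ker (1/4) (x t + 19 / 82 * cexp (I * t)) +
      19 / 82 * ker (1/4) (x t - 63 / 82 * cexp (I * t))) + th t) t)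
    (hth : ∀ t ∈ Set.Icc (0 : ℝ) 20, ‖th t‖ ≤ 1 / 10 ^ 20)
    (h0 : ‖x 0 - Z0‖ ≤ 8 / 10 ^ 17) (h1 : ‖y 0 - Z1‖ ≤ 16 / 10 ^ 17) :
    (∀ t ∈ Set.Icc (0 : ℝ) 20, 9 / 20 ≤ ‖x t + 19 / 82 * cexp (I * t)‖ ∧ 9 / 20 ≤ ‖x t - 63 / 82 * cexp (I * t)‖) ∧
    ∃ E : ℂ, ‖E‖ = 1 ∧ 28 / 5 ≤ ((starRingEnd ℂ) E * x 20).re ∧ 17 / 25 ≤ ((starRingEnd ℂ) E * y 20).re := by
  obtain ⟨l, hl⟩ : ∃ l : List Pc, l = pcs.tail := ⟨_, rfl⟩
  have e1 : pcs = pc0 :: l := by rw [hl]; rfl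
  have e2 : l.length = 39 := by rw [hl]; rfl
  have e3 : lastP pc0 l = pc39 := by rw [hl]; rfl
  have e4 : (0 : ℝ) + ((l.length : ℝ) + 1) / 2 = 20 := by rw [e2]; norm_num
  have h := run (x := x) (y := y) (th := th) l pc0 (by rw [← e1]; exact chk_all) (by rw [← e1]; exact lnk_all) 0
    (by rw [e4]; exact hx) (by rw [e4]; exact hy) (by rw [e4]; exact hth) (start_near h0 h1)
  rw [e3, e4] at h
  refine ⟨h.1, cexp (I * (20 : ℝ)) * Eh, ?_, ?_⟩
  · rw [norm_mul, norm_eit, norm_Eh, one_mul]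
  · exact end_far h.2

end Pool.Agent.H3.TB
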